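import Mathlib

set_option autoImplicit false

namespace Pool.Agent.P.MP_05754a_lc

open Finset

/-- `j` alternating visits: high at `x q`, then low at `y q` -/
def CrossSeq (Hi Lo : ℕ → Prop) (j : ℕ) : Prop :=
  ∃ x y : ℕ → ℕ, ∀ q < j, x q < y q ∧ (q + 1 < j → y q ≤ x (q + 1)) ∧ Hi (x q) ∧ Lo (y q)

lemma CrossSeq.mono {Hi Lo Hi' Lo' : ℕ → Prop} {j : ℕ} (h : CrossSeq Hi Lo j)
    (h1 : ∀ n, (∃ m, n < m ∧ Lo m) → Hi n → Hi' n) (h2 : ∀ n, Lo n → Lo' n) :
    CrossSeq Hi' Lo' j := by
  obtain ⟨x, y, h⟩ := h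
  exact ⟨x, y, fun q hq => ⟨(h q hq).1, (h q hq).2.1,
    h1 _ ⟨_, (h q hq).1, (h q hq).2.2.2⟩ (h q hq).2.2.1, h2 _ (h q hq).2.2.2⟩⟩

lemma CrossSeq.anti {Hi Lo : ℕ → Prop} {j j' : ℕ} (h : CrossSeq Hi Lo j) (hj : j' ≤ j) :
    CrossSeq Hi Lo j' := by
  obtain ⟨x, y, h⟩ := h
  exact ⟨x, y, fun q hq => ⟨(h q (by omega)).1, fun _ => (h q (by omega)).2.1 (by omega),
    (h q (by omega)).2.2⟩⟩

noncomputable def VV (A B : ℕ → ℝ) (L : ℕ) : ℕ → ℝ × ℝ
  | 0 => (0, B L)
  | d + 1 =>
    (max (VV A B L d).1 (A (L - (d + 1)) + (VV A B L d).2),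
      max (VV A B L d).2 (B (L - (d + 1)) + max (VV A B L d).1 (A (L - (d + 1)) + (VV A B L d).2)))

noncomputable def OO (A B : ℕ → ℝ) (L p : ℕ) : ℝ := (VV A B L (L - p)).1
noncomputable def II (A B : ℕ → ℝ) (L p : ℕ) : ℝ := (VV A B L (L - p)).2

section
variable (A B : ℕ → ℝ) (L : ℕ)

lemma OO_top : OO A B L L = 0 := by simp [OO, VV]
lemma II_top : II A B L L = B L := by simp [II, VV]

lemma OO_step {p : ℕ} (hp : p < L) :
    OO A B L p = max (OO A B L (p + 1)) (A p + II A B L (p + 1)) := by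
  have e : L - p = (L - (p + 1)) + 1 := by omega
  have e2 : L - (L - (p + 1) + 1) = p := by omega
  unfold OO II
  rw [e, VV, e2]

lemma II_step {p : ℕ} (hp : p < L) :
    II A B L p = max (II A B L (p + 1)) (B p + OO A B L p) := by
  have e : L - p = (L - (p + 1)) + 1 := by omega
  have e2 : L - (L - (p + 1) + 1) = p := by omega
  unfold OO II
  rw [e, VV, e2]

lemma OO_anti {p q : ℕ} (hpq : p ≤ q) (hq : q ≤ L) : OO A B L q ≤ OO A B L p := by
  induction hpq with
  | refl => exact le_rfl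
  | @step q h ih =>
    refine le_trans ?_ (ih (by omega))
    rw [OO_step A B L (show q < L by omega)]
    exact le_max_left _ _

lemma II_anti {p q : ℕ} (hpq : p ≤ q) (hq : q ≤ L) : II A B L q ≤ II A B L p := by
  induction hpq with
  | refl => exact le_rfl
  | @step q h ih =>
    refine le_trans ?_ (ih (by omega))
    rw [II_step A B L (show q < L by omega)]
    exact le_max_left _ _

lemma OO_ge {p : ℕ} (hp : p < L) : A p + II A B L (p + 1) ≤ OO A B L p := by
  rw [OO_step A B L hp]; exact le_max_right _ _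

lemma II_ge {p : ℕ} (hp : p ≤ L) : B p + OO A B L p ≤ II A B L p := by
  rcases hp.lt_or_eq with hp | rfl
  · rw [II_step A B L hp]; exact le_max_right _ _
  · rw [OO_top, II_top, add_zero]

lemma OO_cases {p y : ℕ} (hpy : p ≤ y) (hy : y ≤ L) :
    OO A B L p = OO A B L y ∨ ∃ u, p ≤ u ∧ u < y ∧ OO A B L p = A u + II A B L (u + 1) := by
  induction hpy with
  | refl => exact Or.inl rfl
  | @step q h ih =>
    rcases ih (by omega) with h1 | ⟨u, h1, h2, h3⟩
    · have := OO_step A B L (show q < L by omega)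
      rcases max_choice (OO A B L (q + 1)) (A q + II A B L (q + 1)) with h4 | h4
      · left; rw [h1, this, h4]
      · right; exact ⟨q, h, Nat.lt_succ_self q, by rw [h1, this, h4]⟩
    · exact Or.inr ⟨u, h1, Nat.lt_succ_of_lt h2, h3⟩

lemma II_cases {p y : ℕ} (hpy : p ≤ y) (hy : y ≤ L) :
    II A B L p = II A B L y ∨ ∃ v, p ≤ v ∧ v < y ∧ II A B L p = B v + OO A B L v := by
  induction hpy with
  | refl => exact Or.inl rfl
  | @step q h ih =>
    rcases ih (by omega) with h1 | ⟨u, h1, h2, h3⟩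
    · have := II_step A B L (show q < L by omega)
      rcases max_choice (II A B L (q + 1)) (B q + OO A B L q) with h4 | h4
      · left; rw [h1, this, h4]
      · right; exact ⟨q, h, Nat.lt_succ_self q, by rw [h1, this, h4]⟩
    · exact Or.inr ⟨u, h1, Nat.lt_succ_of_lt h2, h3⟩

end

section exchange
variable {A B A' B' h : ℕ → ℝ} {L p0 : ℕ} {a b : ℝ}

lemma base_cmp (hab : a ≤ b) (hh : Monotone h) (hA : ∀ p, p0 ≤ p → A' p = A p - h p + b)
    (hB : ∀ p, p0 ≤ p → B' p = B p + h p - a) {p : ℕ} (hp0 : p0 ≤ p) (hp : p ≤ L) :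
    OO A B L p ≤ OO A' B' L p ∧ II A B L p + h p - a ≤ II A' B' L p := by
  induction hp using Nat.decreasingInduction with
  | self => rw [OO_top, OO_top, II_top, II_top, hB L hp0]; exact ⟨le_rfl, le_rfl⟩
  | of_succ k hk ih =>
    obtain ⟨i1, i2⟩ := ih (by omega)
    have hm := hh (Nat.le_succ k)
    have o : OO A B L k ≤ OO A' B' L k := by
      rw [OO_step A B L hk]
      refine max_le (i1.trans (OO_anti _ _ _ (Nat.le_succ k) hk)) ?_
      have := OO_ge A' B' L hk
      rw [hA k hp0] at this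
      simp only [Nat.succ_eq_add_one] at hm
      linarith
    refine ⟨o, ?_⟩
    rw [II_step A B L hk]
    have a1 := II_anti A' B' L (Nat.le_succ k) hk
    have a2 := II_ge A' B' L hk.le
    rw [hB k hp0] at a2
    simp only [Nat.succ_eq_add_one] at hm a1
    rcases max_choice (II A B L (k + 1)) (B k + OO A B L k) with h4 | h4 <;> rw [h4] <;> linarith

lemma stepA (hh : Monotone h) (hA : ∀ p, p0 ≤ p → A' p = A p - h p + b) {x y : ℕ} {c : ℝ}
    (hx0 : p0 ≤ x) (hxy : x < y) (hy : y ≤ L) (hAx : 0 ≤ A x) (hBy : 0 ≤ B y)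
    (H : ∀ p, p0 ≤ p → p ≤ y → II A B L p + h p - a + c ≤ II A' B' L p) :
    ∀ p, p0 ≤ p → p ≤ x → OO A B L p + (c + (b - a)) ≤ OO A' B' L p := by
  intro p hp0 hp
  rcases OO_cases A B L (show p ≤ y by omega) hy with h1 | ⟨u, h1, h2, h3⟩
  · have a1 := II_ge A B L hy
    have a2 := II_anti A B L (show x + 1 ≤ y by omega) hy
    have a3 := OO_anti A' B' L hp (by omega)
    have a4 := OO_ge A' B' L (show x < L by omega)
    have a5 := H (x + 1) (by omega) (by omega)
    have hm := hh (Nat.le_add_right x 1)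
    rw [hA x hx0] at a4
    linarith
  · have a3 := OO_anti A' B' L h1 (by omega)
    have a4 := OO_ge A' B' L (show u < L by omega)
    have a5 := H (u + 1) (by omega) (by omega)
    have hm := hh (Nat.le_add_right u 1)
    rw [hA u (by omega)] at a4
    linarith

lemma stepB (hh : Monotone h) (hB : ∀ p, p0 ≤ p → B' p = B p + h p - a) {x y : ℕ} {c : ℝ}
    (hy0 : p0 ≤ y) (hyx : y ≤ x) (hx : x < L) (hAx : 0 ≤ A x) (hBy : 0 ≤ B y)
    (H : ∀ p, p0 ≤ p → p ≤ x → OO A B L p + c ≤ OO A' B' L p) :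
    ∀ p, p0 ≤ p → p ≤ y → II A B L p + h p - a + c ≤ II A' B' L p := by
  intro p hp0 hp
  rcases II_cases A B L (show p ≤ x + 1 by omega) (show x + 1 ≤ L by omega) with
    h1 | ⟨v, h1, h2, h3⟩
  · have a1 := OO_ge A B L hx
    have a2 := OO_anti A B L hyx hx.le
    have a3 := II_anti A' B' L hp (by omega)
    have a4 := II_ge A' B' L (show y ≤ L by omega)
    have a5 := H y hy0 hyx
    have hm := hh hp
    rw [hB y hy0] at a4
    linarith
  · have a3 := II_anti A' B' L h1 (by omega)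
    have a4 := II_ge A' B' L (show v ≤ L by omega)
    have a5 := H v (by omega) (by omega)
    have hm := hh h1
    rw [hB v (by omega)] at a4
    linarith

lemma chain_cmp (hab : a ≤ b) (hh : Monotone h) (hA : ∀ p, p0 ≤ p → A' p = A p - h p + b)
    (hB : ∀ p, p0 ≤ p → B' p = B p + h p - a) {j : ℕ} {x y : ℕ → ℕ}
    (H : ∀ q < j, p0 ≤ x q ∧ x q < y q ∧ y q ≤ L ∧ (q + 1 < j → y q ≤ x (q + 1)) ∧ 0 ≤ A (x q) ∧
      0 ≤ B (y q)) :
    ∀ i q, q + i + 1 = j → ∀ p, p0 ≤ p → p ≤ x q →
      OO A B L p + (i + 1) * (b - a) ≤ OO A' B' L p := by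
  intro i
  induction i with
  | zero =>
    intro q hq
    obtain ⟨h1, h2, h3, -, h5, h6⟩ := H q (by omega)
    have := stepA (a := a) (c := 0) (B' := B') hh hA h1 h2 h3 h5 h6 fun p hp0 hp => by
      have := (base_cmp (L := L) hab hh hA hB hp0 (hp.trans h3)).2
      linarith
    intro p hp0 hp
    have := this p hp0 hp
    simp only [Nat.cast_zero, zero_add, one_mul] at this ⊢
    exact this
  | succ i ih =>
    intro q hq
    obtain ⟨h1, h2, h3, h4, h5, h6⟩ := H q (by omega)
    obtain ⟨g1, g2, g3, -, g5, -⟩ := H (q + 1) (by omega)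
    have s1 := stepB (A' := A') hh hB (by omega) (h4 (by omega)) (by omega) g5 h6
      (ih (q + 1) (by omega))
    have s2 := stepA hh hA h1 h2 h3 h5 h6 s1
    intro p hp0 hp
    have := s2 p hp0 hp
    push_cast
    linarith

end exchange

/-- supermodular sums -/
noncomputable def FF (g : ℕ → ℕ → ℝ) (s v : ℕ) : ℝ := ∑ k ∈ Ico s v, g k (v - k)

lemma FF_eq (g : ℕ → ℕ → ℝ) (s n : ℕ) :
    FF g s (s + n) = ∑ k ∈ range n, g (s + k) (n - k) := by
  unfold FF
  rw [Finset.sum_Ico_eq_sum_range, Nat.add_sub_cancel_left]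
  refine sum_congr rfl fun k _ => ?_
  congr 1; omega

open Classical in
theorem bishop (g : ℕ → ℕ → ℝ) (g0 : ∀ k r, 0 ≤ g k r) (gm : ∀ k, Monotone (g k)) (a b : ℝ)
    (ha : 0 ≤ a) (hab : a ≤ b) (j lo hi : ℕ) (hlo : lo ≤ hi) (D : Finset ℕ)
    (hD : ∀ s ∈ D, lo ≤ s ∧ s < hi ∧
      CrossSeq (fun n => b * n < ∑ k ∈ range n, g (s + k) (n - k))
        (fun n => s + n ≤ hi ∧ ∑ k ∈ range n, g (s + k) (n - k) < a * n) j) :
    (b - a) * j * D.card ≤ a * ((hi : ℝ) - lo) := by
  set A : ℕ → ℕ → ℝ := fun s u => FF g s u - b * ((u : ℝ) - s) with hA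
  set B : ℕ → ℕ → ℝ := fun s v => a * ((v : ℝ) - s) - FF g s v with hB
  set lam : ℕ → ℝ := fun s => OO (A s) (B s) hi s with hlam
  have Fs : ∀ s p, s + 1 ≤ p → FF g s p = g s (p - s) + FF g (s + 1) p := fun s p hp =>
    Finset.sum_eq_sum_Ico_succ_bot (by omega) _
  have A0 : ∀ s, A s s = 0 := fun s => by simp [hA, FF]
  have B0 : ∀ s, B s s = 0 := fun s => by simp [hB, FF]
  have OI : ∀ s, s ≤ hi → II (A s) (B s) hi s ≤ OO (A s) (B s) hi s := by
    intro s hs
    rcases hs.lt_or_eq with hs | rfl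
    · rw [II_step _ _ _ hs, B0, zero_add]
      refine max_le ?_ le_rfl
      have := OO_ge (A s) (B s) hi hs
      rwa [A0, zero_add] at this
    · rw [II_top, OO_top, B0]
  have key : ∀ s, s < hi → lam s + (if s ∈ D then (b - a) * j else 0) - a ≤ lam (s + 1) := by
    intro s hs
    have hh : Monotone fun p => g s (p - s) := fun p q hpq => gm s (by omega)
    have hA' : ∀ p, s + 1 ≤ p → A (s + 1) p = A s p - g s (p - s) + b := by
      intro p hp; simp only [hA, Fs s p hp]; push_cast; ring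
    have hB' : ∀ p, s + 1 ≤ p → B (s + 1) p = B s p + g s (p - s) - a := by
      intro p hp; simp only [hB, Fs s p hp]; push_cast; ring
    have b1 := base_cmp (L := hi) hab hh hA' hB' (le_refl (s + 1)) hs
    have b2 := OI (s + 1) hs
    have e : lam s = max (OO (A s) (B s) hi (s + 1)) (II (A s) (B s) hi (s + 1)) := by
      simp only [hlam]; rw [OO_step _ _ _ hs, A0, zero_add]
    have gs := g0 s (s + 1 - s)
    have triv : lam s - a ≤ lam (s + 1) := by
      rw [e]; simp only [hlam]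
      rcases max_choice (OO (A s) (B s) hi (s + 1)) (II (A s) (B s) hi (s + 1)) with h4 | h4 <;>
        rw [h4] <;> linarith [b1.1, b1.2]
    split_ifs with hsD
    swap
    · linarith
    rcases Nat.eq_zero_or_pos j with rfl | hj
    · simpa using triv
    obtain ⟨-, -, x, y, hxy⟩ := hD s hsD
    have xpos : ∀ q < j, 1 ≤ x q := by
      intro q hq
      have := (hxy q hq).2.2.1
      by_contra h0
      have h1 : x q = 0 := by omega
      simp [h1] at this
    have ch := chain_cmp (L := hi) hab hh hA' hB' (j := j) (x := fun q => s + x q)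
      (y := fun q => s + y q) (fun q hq => by
        obtain ⟨h1, h2, h3, h4, h5⟩ := hxy q hq
        have := xpos q hq
        refine ⟨by omega, by omega, h4, fun h => by have := h2 h; omega, ?_, ?_⟩
        · simp only [hA, FF_eq]; push_cast; linarith
        · simp only [hB, FF_eq]; push_cast; linarith) (j - 1) 0 (by omega)
    have ej : (((j - 1 : ℕ) : ℝ) + 1) = j := by
      rw [Nat.cast_sub hj]; push_cast; ring
    rw [ej] at ch
    obtain ⟨h1, -, h3, h4, -⟩ := hxy 0 hj
    have x0 := xpos 0 hj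
    have Ax : 0 ≤ A s (s + x 0) := by simp only [hA, FF_eq]; push_cast; linarith
    have c1 := ch (s + 1) le_rfl (by omega)
    rw [e]; simp only [hlam]
    rcases max_choice (OO (A s) (B s) hi (s + 1)) (II (A s) (B s) hi (s + 1)) with h5 | h5 <;>
      rw [h5]
    · linarith
    · rcases II_cases (A s) (B s) hi (show s + 1 ≤ s + x 0 + 1 by omega) (by omega) with
        h6 | ⟨v, h6, h7, h8⟩
      · have a1 := OO_ge (A s) (B s) hi (show s + x 0 < hi by omega)
        have a2 := OO_anti (A s) (B s) hi (show s + 1 ≤ s + x 0 by omega) (by omega)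
        linarith
      · have a1 := ch v h6 (by omega)
        have a2 := II_ge (A (s + 1)) (B (s + 1)) hi (show v ≤ hi by omega)
        have a3 := II_anti (A (s + 1)) (B (s + 1)) hi h6 (by omega)
        rw [hB' v h6] at a2
        have := g0 s (v - s)
        linarith
  have tel : ∀ n, lo + n ≤ hi → lam lo + ∑ s ∈ Ico lo (lo + n),
      (if s ∈ D then (b - a) * j else 0) - a * n ≤ lam (lo + n) := by
    intro n
    induction n with
    | zero => simp
    | succ n ih =>
      intro hn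
      have := key (lo + n) (by omega)
      rw [← add_assoc, Finset.sum_Ico_succ_top (by omega)]
      have := ih (by omega)
      push_cast
      linarith
  have t := tel (hi - lo) (by omega)
  rw [Nat.add_sub_cancel' hlo, Nat.cast_sub hlo] at t
  have l1 : lam hi = 0 := OO_top _ _ _
  have l0 : 0 ≤ lam lo := by
    have := OO_anti (A lo) (B lo) hi hlo le_rfl
    rwa [OO_top] at this
  have e : ∑ s ∈ Ico lo hi, (if s ∈ D then (b - a) * j else 0) = (b - a) * j * D.card := by
    rw [← Finset.sum_filter, Finset.sum_const, nsmul_eq_mul, mul_comm]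
    congr 3
    ext s
    simp only [mem_filter, mem_Ico, and_iff_right_iff_imp]
    exact fun hs => ⟨(hD s hs).1, (hD s hs).2.1⟩
  linarith

end Pool.Agent.P.MP_05754a_lc
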