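import Pool.Agent.P.MP_05754a_lc.Bishop

set_option autoImplicit false

namespace Pool.Agent.P.MP_05754a_lc

open Finset

noncomputable def SS (g : ℕ → ℕ → ℝ) (T s m : ℕ) : ℝ := ∑ k ∈ range m, g (s + k) T

def Caught (g : ℕ → ℕ → ℝ) (a b c : ℝ) (j s n t : ℕ) : Prop :=
  1 ≤ n ∧ SS g (Nat.log 2 n) s n ≤ c * n ∧ b * n < SS g t s n ∧
    CrossSeq (fun m => b * m < SS g (Nat.log 2 n) s m) (fun m => m ≤ n ∧ SS g t s m < a * m) j

section
variable {g : ℕ → ℕ → ℝ} {a b c θ : ℝ} {j : ℕ} {n t : ℕ → ℕ}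

lemma SS_mono (gm : ∀ k, Monotone (g k)) {T T' : ℕ} (h : T ≤ T') (s m : ℕ) :
    SS g T s m ≤ SS g T' s m :=
  sum_le_sum fun _ _ => gm _ h

lemma Caught.log_le (gm : ∀ k, Monotone (g k)) (hcb : c < b) {s n t : ℕ}
    (h : Caught g a b c j s n t) : Nat.log 2 n ≤ t := by
  by_contra hc
  have h1 := SS_mono gm (not_le.mp hc).le s n
  have h2 : (0 : ℝ) < n := by exact_mod_cast h.1
  nlinarith [h.2.1, h.2.2.1]

lemma local_bound (g0 : ∀ k r, 0 ≤ g k r) (gm : ∀ k, Monotone (g k)) (ha : 0 ≤ a) (hab : a < b)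
    (hj : 0 < j) (hθ : a ≤ θ * ((b - a) * j)) (T lo hi : ℕ) (hlo : lo ≤ hi) (D : Finset ℕ)
    (hD : ∀ s ∈ D, Caught g a b c j s (n s) (t s) ∧ lo ≤ s ∧ s + n s ≤ hi ∧
      Nat.log 2 (n s) ≤ T ∧ T ≤ t s) :
    (D.card : ℝ) ≤ θ * ((hi : ℝ) - lo) := by
  have h := bishop (fun k _ => g k T) (fun k _ => g0 k T) (fun _ => monotone_const) a b ha hab.le j
    lo hi hlo D fun s hs => by
      obtain ⟨⟨h1, -, -, h4⟩, h5, h6, h7, h8⟩ := hD s hs
      refine ⟨h5, by omega, h4.mono (fun m _ hm => hm.trans_le (SS_mono gm h7 s m))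
        fun m hm => ⟨by have := hm.1; omega, (SS_mono gm h8 s m).trans_lt hm.2⟩⟩
  have hp : 0 < (b - a) * j := mul_pos (by linarith) (by exact_mod_cast hj)
  have hd : (0 : ℝ) ≤ (hi : ℝ) - lo := sub_nonneg.mpr (by exact_mod_cast hlo)
  have := mul_le_mul_of_nonneg_right hθ hd
  nlinarith

lemma mass_bound (g0 : ∀ k r, 0 ≤ g k r) (gm : ∀ k, Monotone (g k)) (ha : 0 ≤ a) (hab : a < b)
    (hcb : c < b) (hj : 0 < j) (hθ0 : 0 ≤ θ) (hθ : a ≤ θ * ((b - a) * j)) (W : Finset ℕ) :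
    ∀ (N : ℕ) (D : Finset ℕ) (T : ℕ → ℕ), D.card = N →
      (∀ s ∈ D, Caught g a b c j s (n s) (t s) ∧ ∀ k < n s, s + k ∈ W ∧ t s ≤ T (s + k)) →
      (b - c) * D.card ≤ 3 * θ * ∑ k ∈ W, g k (T k) := by
  classical
  intro N
  induction N using Nat.strong_induction_on with
  | _ N ih =>
  intro D T hN hD
  rcases D.eq_empty_or_nonempty with rfl | hne
  · simp only [card_empty, Nat.cast_zero, mul_zero]
    exact mul_nonneg (by positivity) (sum_nonneg fun _ _ => g0 _ _)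
  obtain ⟨s', hs', hmax⟩ := D.exists_max_image n hne
  obtain ⟨hc', hW'⟩ := hD s' hs'
  set τ := Nat.log 2 (n s') with hτ
  set P : ℕ → Prop := fun s => (s < s' + n s' ∧ s' < s + n s) ∧ τ ≤ t s with hP
  have hn' := hc'.1
  have hs'P : P s' := ⟨⟨by omega, by omega⟩, hc'.log_le gm hcb⟩
  have h1 : ((D.filter P).card : ℝ) ≤ θ * (((s' + 2 * n s' : ℕ) : ℝ) - (s' - n s' : ℕ)) :=
    local_bound (n := n) (t := t) (c := c) g0 gm ha hab hj hθ τ _ _ (by omega) _ fun s hs => by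
      obtain ⟨h1, ⟨h2, h3⟩, h4⟩ := mem_filter.mp hs
      have := hmax s h1
      exact ⟨(hD s h1).1, by omega, by omega, Nat.log_mono_right this, h4⟩
  have h1' : ((D.filter P).card : ℝ) ≤ θ * (3 * n s') := by
    refine h1.trans (mul_le_mul_of_nonneg_left ?_ hθ0)
    have : s' + 2 * n s' ≤ 3 * n s' + (s' - n s') := by omega
    have : ((s' + 2 * n s' : ℕ) : ℝ) ≤ ((3 * n s' + (s' - n s') : ℕ) : ℝ) := by exact_mod_cast this
    push_cast at this ⊢
    linarith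
  set T' : ℕ → ℕ := fun k => if k ∈ Ico s' (s' + n s') then τ else T k with hT'
  have hlt : (D.filter fun s => ¬ P s).card < N := by
    rw [← hN]
    exact card_lt_card (filter_ssubset.mpr ⟨s', hs', not_not.mpr hs'P⟩)
  have h2 := ih _ hlt (D.filter fun s => ¬ P s) T' rfl fun s hs => by
    obtain ⟨h1, h2⟩ := mem_filter.mp hs
    refine ⟨(hD s h1).1, fun k hk => ⟨((hD s h1).2 k hk).1, ?_⟩⟩
    simp only [hT']
    split_ifs with h3
    · rw [mem_Ico] at h3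
      by_contra h4
      exact h2 ⟨⟨by omega, by omega⟩, by omega⟩
    · exact ((hD s h1).2 k hk).2
  have hsub : Ico s' (s' + n s') ⊆ W := by
    intro k hk
    rw [mem_Ico] at hk
    have := (hW' (k - s') (by omega)).1
    rwa [Nat.add_sub_cancel' hk.1] at this
  have h3 : ∑ k ∈ W, g k (T' k) + (b - c) * n s' ≤ ∑ k ∈ W, g k (T k) := by
    rw [← sum_sdiff hsub, ← sum_sdiff hsub]
    have e1 : ∑ k ∈ W \ Ico s' (s' + n s'), g k (T' k) = ∑ k ∈ W \ Ico s' (s' + n s'), g k (T k) :=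
      sum_congr rfl fun k hk => by simp only [hT', (mem_sdiff.mp hk).2, if_false]
    have e2 : ∑ k ∈ Ico s' (s' + n s'), g k (T' k) = SS g τ s' (n s') := by
      rw [sum_congr rfl (g := fun k => g k τ) fun k hk => by simp only [hT', hk, if_true],
        Finset.sum_Ico_eq_sum_range, Nat.add_sub_cancel_left]
      rfl
    have e3 : SS g (t s') s' (n s') ≤ ∑ k ∈ Ico s' (s' + n s'), g k (T k) := by
      rw [Finset.sum_Ico_eq_sum_range, Nat.add_sub_cancel_left]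
      exact sum_le_sum fun k hk => gm _ (hW' k (mem_range.mp hk)).2
    rw [e1, e2]
    linarith [hc'.2.1, hc'.2.2.1]
  have e : (D.card : ℝ) = (D.filter P).card + (D.filter fun s => ¬ P s).card := by
    exact_mod_cast (card_filter_add_card_filter_not (s := D) P).symm
  have a1 := mul_le_mul_of_nonneg_left h1' (by linarith : 0 ≤ b - c)
  have a2 := mul_le_mul_of_nonneg_left h3 (by positivity : 0 ≤ 3 * θ)
  rw [e]
  nlinarith

lemma point_bound (g0 : ∀ k r, 0 ≤ g k r) (gm : ∀ k, Monotone (g k)) (ha : 0 ≤ a) (hab : a < b)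
    (hcb : c < b) (hj : 0 < j) (hθ0 : 0 ≤ θ) (hθ : a ≤ θ * ((b - a) * j)) (p N : ℕ) (hN : 1 ≤ N)
    (D : Finset ℕ)
    (hD : ∀ s ∈ D, Caught g a b c j s (n s) (t s) ∧ s ≤ p ∧ p < s + n s ∧ n s ≤ N) :
    (D.card : ℝ) ≤ θ * (8 * N) := by
  have e := card_eq_sum_card_fiberwise (s := D) (t := range (Nat.log 2 N + 1))
    (f := fun s => Nat.log 2 (n s)) fun s hs => by
      simp only [coe_range, Set.mem_Iio]
      exact Nat.lt_succ_of_le (Nat.log_mono_right (hD s hs).2.2.2)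
  rw [e]
  push_cast
  have h1 : ∀ e ∈ range (Nat.log 2 N + 1),
      ((D.filter fun s => Nat.log 2 (n s) = e).card : ℝ) ≤ θ * (4 * 2 ^ e) := by
    intro e _
    have := local_bound (n := n) (t := t) (c := c) g0 gm ha hab hj hθ e (p - 2 ^ (e + 1))
      (p + 2 ^ (e + 1)) ((Nat.sub_le _ _).trans (Nat.le_add_right _ _)) (D.filter fun s => Nat.log 2 (n s) = e) fun s hs => by
        obtain ⟨h1, h2⟩ := mem_filter.mp hs
        obtain ⟨h3, h4, h5, h6⟩ := hD s h1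
        have h7 := Nat.lt_pow_succ_log_self (b := 2) (by norm_num) (n s)
        rw [h2, Nat.succ_eq_add_one] at h7
        exact ⟨h3, by omega, by omega, h2.le, h2 ▸ h3.log_le gm hcb⟩
    refine this.trans (mul_le_mul_of_nonneg_left ?_ hθ0)
    have h8 : p + 2 ^ (e + 1) ≤ 4 * 2 ^ e + (p - 2 ^ (e + 1)) := by rw [pow_succ]; omega
    have : ((p + 2 ^ (e + 1) : ℕ) : ℝ) ≤ ((4 * 2 ^ e + (p - 2 ^ (e + 1)) : ℕ) : ℝ) := by
      exact_mod_cast h8
    push_cast at this ⊢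
    linarith
  refine (sum_le_sum h1).trans ?_
  rw [← mul_sum, ← mul_sum]
  refine mul_le_mul_of_nonneg_left ?_ hθ0
  have h2 : ∑ e ∈ range (Nat.log 2 N + 1), (2 : ℝ) ^ e ≤ 2 * 2 ^ Nat.log 2 N := by
    rw [geom_sum_eq (by norm_num), pow_succ]; norm_num; linarith
  have h3 : (2 : ℝ) ^ Nat.log 2 N ≤ N := by
    exact_mod_cast Nat.pow_log_le_self 2 (by omega : N ≠ 0)
  linarith

theorem window_bound (g0 : ∀ k r, 0 ≤ g k r) (gm : ∀ k, Monotone (g k)) (ha : 0 ≤ a)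
    (hab : a < b) (hc0 : 0 ≤ c) (hcb : c + 1 ≤ b) (hj : 0 < j) (hθ0 : 0 ≤ θ)
    (hθ : a ≤ θ * ((b - a) * j)) :
    ∀ (N : ℕ) (D : Finset ℕ) (lo hi : ℕ), D.card = N → lo ≤ hi →
      (∀ s ∈ D, Caught g a b c j s (n s) (t s) ∧ lo ≤ s ∧ s + n s ≤ hi) →
      (D.card : ℝ) ≤ θ * (17 + 3 * c) * ((hi : ℝ) - lo) := by
  classical
  have hcb' : c < b := by linarith
  intro N
  induction N using Nat.strong_induction_on with
  | _ N ih =>
  intro D lo hi hN hlo hD
  rcases D.eq_empty_or_nonempty with rfl | hne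
  · simp only [card_empty, Nat.cast_zero]
    exact mul_nonneg (by positivity) (sub_nonneg.mpr (by exact_mod_cast hlo))
  obtain ⟨s', hs', hmax⟩ := D.exists_max_image n hne
  obtain ⟨hc', hl', hh'⟩ := hD s' hs'
  have hn' := hc'.1
  set τ := Nat.log 2 (n s') with hτ
  set D1 := D.filter fun s => s + n s ≤ s'
  set D2 := D.filter fun s => s' + n s' ≤ s
  set D3 := D.filter fun s => s ≤ s' ∧ s' < s + n s
  set D4 := D.filter fun s => s ≤ s' + n s' - 1 ∧ s' + n s' - 1 < s + n s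
  set D5 := D.filter fun s => (s' ≤ s ∧ s + n s ≤ s' + n s') ∧ τ ≤ t s
  set D6 := D.filter fun s => (s' ≤ s ∧ s + n s ≤ s' + n s') ∧ t s ≤ τ
  have hsub : D ⊆ D1 ∪ (D2 ∪ (D3 ∪ (D4 ∪ (D5 ∪ D6)))) := by
    intro s hs
    simp only [D1, D2, D3, D4, D5, D6, mem_union, mem_filter, hs, true_and]
    omega
  have hcard : D.card ≤ D1.card + (D2.card + (D3.card + (D4.card + (D5.card + D6.card)))) := by
    refine (card_le_card hsub).trans ((card_union_le _ _).trans ?_)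
    gcongr
    refine (card_union_le _ _).trans ?_
    gcongr
    refine (card_union_le _ _).trans ?_
    gcongr
    refine (card_union_le _ _).trans ?_
    gcongr
    exact card_union_le _ _
  have hcard' : (D.card : ℝ)
      ≤ D1.card + (D2.card + (D3.card + (D4.card + (D5.card + D6.card)))) := by
    exact_mod_cast hcard
  have b1 := ih D1.card (by
    rw [← hN]; exact card_lt_card (filter_ssubset.mpr ⟨s', hs', by omega⟩)) D1 lo s' rfl hl'
    fun s hs => ⟨(hD s (mem_filter.mp hs).1).1, (hD s (mem_filter.mp hs).1).2.1,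
      (mem_filter.mp hs).2⟩
  have b2 := ih D2.card (by
    rw [← hN]; exact card_lt_card (filter_ssubset.mpr ⟨s', hs', by omega⟩)) D2 (s' + n s') hi rfl
    hh' fun s hs => ⟨(hD s (mem_filter.mp hs).1).1, (mem_filter.mp hs).2,
      (hD s (mem_filter.mp hs).1).2.2⟩
  have b3 := point_bound (n := n) (t := t) g0 gm ha hab hcb' hj hθ0 hθ s' (n s') hn' D3
    fun s hs => ⟨(hD s (mem_filter.mp hs).1).1, (mem_filter.mp hs).2.1, (mem_filter.mp hs).2.2,
      hmax s (mem_filter.mp hs).1⟩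
  have b4 := point_bound (n := n) (t := t) g0 gm ha hab hcb' hj hθ0 hθ (s' + n s' - 1) (n s') hn'
    D4 fun s hs => ⟨(hD s (mem_filter.mp hs).1).1, (mem_filter.mp hs).2.1,
      (mem_filter.mp hs).2.2, hmax s (mem_filter.mp hs).1⟩
  have b5 := local_bound (n := n) (t := t) (c := c) g0 gm ha hab hj hθ τ s' (s' + n s') (by omega)
    D5 fun s hs => ⟨(hD s (mem_filter.mp hs).1).1, (mem_filter.mp hs).2.1.1,
      (mem_filter.mp hs).2.1.2, Nat.log_mono_right (hmax s (mem_filter.mp hs).1),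
      (mem_filter.mp hs).2.2⟩
  have b6 := mass_bound (n := n) (t := t) g0 gm ha hab hcb' hj hθ0 hθ (Ico s' (s' + n s')) _ D6
    (fun _ => τ) rfl fun s hs => ⟨(hD s (mem_filter.mp hs).1).1, fun k hk => by
      obtain ⟨-, ⟨h1, h2⟩, h3⟩ := mem_filter.mp hs
      exact ⟨mem_Ico.mpr ⟨by omega, by omega⟩, h3⟩⟩
  have e2 : ∑ k ∈ Ico s' (s' + n s'), g k τ = SS g τ s' (n s') := by
    rw [Finset.sum_Ico_eq_sum_range, Nat.add_sub_cancel_left]; rfl
  rw [e2] at b6
  have b7 := mul_le_mul_of_nonneg_left hc'.2.1 (by positivity : 0 ≤ 3 * θ)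
  have b8 : (D6.card : ℝ) ≤ (b - c) * D6.card :=
    le_mul_of_one_le_left (Nat.cast_nonneg _) (by linarith)
  push_cast at b2 b5
  nlinarith

end

end Pool.Agent.P.MP_05754a_lc
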