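import Pool.Agent.P.MP_05754a_lc.Down

set_option autoImplicit false

namespace Pool.Agent.P.MP_05754a_lc

open Finset

def Caught2 (G : ℕ → ℕ → ℕ → ℝ) (a : ℝ) (j s n t : ℕ) : Prop :=
  1 ≤ n ∧ G (Nat.log 2 n) s n ≤ (a + 1) * n ∧ (a + 2) * n < G t s n ∧
    CrossSeq (fun m => (a + 1) * m < G (Nat.log 2 n) s m) (fun m => m ≤ n ∧ G t s m < a * m) j

section
variable {G : ℕ → ℕ → ℕ → ℝ} {a θ : ℝ} {j : ℕ} {n t : ℕ → ℕ}

lemma Caught2.log_lt (gm : ∀ s m, Monotone fun T => G T s m) {s n t : ℕ}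
    (h : Caught2 G a j s n t) : Nat.log 2 n < t := by
  by_contra hc
  have h1 := gm s n (not_lt.mp hc)
  have h2 : (0 : ℝ) < n := by exact_mod_cast h.1
  nlinarith [h.2.1, h.2.2.1]

lemma local2 (gm : ∀ s m, Monotone fun T => G T s m) (hB : ∀ T, Bd (G T) a (a + 1) j θ)
    (T lo hi : ℕ) (hlo : lo ≤ hi) (D : Finset ℕ)
    (hD : ∀ s ∈ D, Caught2 G a j s (n s) (t s) ∧ lo ≤ s ∧ s + n s ≤ hi ∧
      Nat.log 2 (n s) ≤ T ∧ T ≤ t s) :
    (D.card : ℝ) ≤ θ * ((hi : ℝ) - lo) :=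
  hB T lo hi D hlo fun s hs => by
    obtain ⟨⟨h1, -, -, h4⟩, h5, h6, h7, h8⟩ := hD s hs
    exact ⟨h5, by omega, h4.mono (fun m _ hm => hm.trans_le (gm s m h7))
      fun m hm => ⟨by have := hm.1; omega, (gm s m h8).trans_lt hm.2⟩⟩

lemma point2 (gm : ∀ s m, Monotone fun T => G T s m) (hB : ∀ T, Bd (G T) a (a + 1) j θ)
    (hθ0 : 0 ≤ θ) (p N : ℕ) (hN : 1 ≤ N) (D : Finset ℕ)
    (hD : ∀ s ∈ D, Caught2 G a j s (n s) (t s) ∧ s ≤ p ∧ p < s + n s ∧ n s ≤ N) :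
    (D.card : ℝ) ≤ θ * (8 * N) := by
  have e := card_eq_sum_card_fiberwise (s := D) (t := range (Nat.log 2 N + 1))
    (f := fun s => Nat.log 2 (n s)) fun s hs => by
      simp only [coe_range, Set.mem_Iio]
      exact Nat.lt_succ_of_le (Nat.log_mono_right (hD s hs).2.2.2)
  rw [e]
  push_cast
  have h1 : ∀ e ∈ range (Nat.log 2 N + 1),
      ((D.filter fun s => Nat.log 2 (n s) = e).card : ℝ) ≤ θ * (4 * 2 ^ e) := by
    intro e _
    have := local2 (n := n) (t := t) gm hB e (p - 2 ^ (e + 1))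
      (p + 2 ^ (e + 1)) ((Nat.sub_le _ _).trans (Nat.le_add_right _ _))
      (D.filter fun s => Nat.log 2 (n s) = e) fun s hs => by
        obtain ⟨h1, h2⟩ := mem_filter.mp hs
        obtain ⟨h3, h4, h5, h6⟩ := hD s h1
        have h7 := Nat.lt_pow_succ_log_self (b := 2) (by norm_num) (n s)
        rw [h2, Nat.succ_eq_add_one] at h7
        exact ⟨h3, by omega, by omega, h2.le, h2 ▸ (h3.log_lt gm).le⟩
    refine this.trans (mul_le_mul_of_nonneg_left ?_ hθ0)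
    have h8 : p + 2 ^ (e + 1) ≤ 4 * 2 ^ e + (p - 2 ^ (e + 1)) := by rw [pow_succ]; omega
    have : ((p + 2 ^ (e + 1) : ℕ) : ℝ) ≤ ((4 * 2 ^ e + (p - 2 ^ (e + 1)) : ℕ) : ℝ) := by
      exact_mod_cast h8
    push_cast at this ⊢
    linarith
  refine (sum_le_sum h1).trans ?_
  rw [← mul_sum, ← mul_sum]
  refine mul_le_mul_of_nonneg_left ?_ hθ0
  have h2 : ∑ e ∈ range (Nat.log 2 N + 1), (2 : ℝ) ^ e ≤ 2 * 2 ^ Nat.log 2 N := by
    rw [geom_sum_eq (by norm_num), pow_succ]; norm_num; linarith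
  have h3 : (2 : ℝ) ^ Nat.log 2 N ≤ N := by
    exact_mod_cast Nat.pow_log_le_self 2 (by omega : N ≠ 0)
  linarith

theorem window2 (hG : ∀ T, SupAdd (G T)) (gm : ∀ s m, Monotone fun T => G T s m)
    (hB : ∀ T, Bd (G T) a (a + 1) j θ) (hθ0 : 0 ≤ θ) :
    ∀ (N : ℕ) (D : Finset ℕ) (Ψ : ℕ → ℕ → ℝ) (lo w : ℕ), D.card = N → SupAdd Ψ →
      (∀ s ∈ D, Caught2 G a j s (n s) (t s) ∧ lo ≤ s ∧ s + n s ≤ lo + w ∧
        (a + 2) * n s ≤ Ψ s (n s)) →
      (D.card : ℝ) ≤ 17 * θ * Ψ lo w := by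
  classical
  intro N
  induction N using Nat.strong_induction_on with
  | _ N ih =>
  intro D Ψ lo w hN hΨ hD
  rcases D.eq_empty_or_nonempty with rfl | hne
  · simp only [card_empty, Nat.cast_zero]
    exact mul_nonneg (by positivity) (hΨ.1 _ _)
  obtain ⟨s', hs', hmax⟩ := D.exists_max_image n hne
  obtain ⟨hc', hl', hh', hp'⟩ := hD s' hs'
  have hn' := hc'.1
  have hτt := hc'.log_lt gm
  set τ := Nat.log 2 (n s') with hτ
  set D1 := D.filter fun s => s + n s ≤ s'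
  set D2 := D.filter fun s => s' + n s' ≤ s
  set D3 := D.filter fun s => s ≤ s' ∧ s' < s + n s
  set D4 := D.filter fun s => s ≤ s' + n s' - 1 ∧ s' + n s' - 1 < s + n s
  set D5 := D.filter fun s => (s' ≤ s ∧ s + n s ≤ s' + n s') ∧ τ ≤ t s
  set D6 := D.filter fun s => (s' ≤ s ∧ s + n s ≤ s' + n s') ∧ t s ≤ τ
  have hsub : D ⊆ D1 ∪ (D2 ∪ (D3 ∪ (D4 ∪ (D5 ∪ D6)))) := by
    intro s hs
    simp only [D1, D2, D3, D4, D5, D6, mem_union, mem_filter, hs, true_and]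
    omega
  have hcard : D.card ≤ D1.card + (D2.card + (D3.card + (D4.card + (D5.card + D6.card)))) := by
    refine (card_le_card hsub).trans ((card_union_le _ _).trans ?_)
    gcongr
    refine (card_union_le _ _).trans ?_
    gcongr
    refine (card_union_le _ _).trans ?_
    gcongr
    refine (card_union_le _ _).trans ?_
    gcongr
    exact card_union_le _ _
  have hcard' : (D.card : ℝ)
      ≤ D1.card + (D2.card + (D3.card + (D4.card + (D5.card + D6.card)))) := by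
    exact_mod_cast hcard
  have b1 := ih D1.card (by
    rw [← hN]; exact card_lt_card (filter_ssubset.mpr ⟨s', hs', by omega⟩)) D1 Ψ lo (s' - lo) rfl
    hΨ fun s hs => by
      obtain ⟨h1, h2⟩ := mem_filter.mp hs
      exact ⟨(hD s h1).1, (hD s h1).2.1, by omega, (hD s h1).2.2.2⟩
  have b2 := ih D2.card (by
    rw [← hN]; exact card_lt_card (filter_ssubset.mpr ⟨s', hs', by omega⟩)) D2 Ψ (s' + n s')
    (lo + w - (s' + n s')) rfl hΨ fun s hs => by
      obtain ⟨h1, h2⟩ := mem_filter.mp hs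
      exact ⟨(hD s h1).1, h2, by have := (hD s h1).2.2.1; omega, (hD s h1).2.2.2⟩
  have b3 := point2 (n := n) (t := t) gm hB hθ0 s' (n s') hn' D3
    fun s hs => ⟨(hD s (mem_filter.mp hs).1).1, (mem_filter.mp hs).2.1, (mem_filter.mp hs).2.2,
      hmax s (mem_filter.mp hs).1⟩
  have b4 := point2 (n := n) (t := t) gm hB hθ0 (s' + n s' - 1) (n s') hn'
    D4 fun s hs => ⟨(hD s (mem_filter.mp hs).1).1, (mem_filter.mp hs).2.1,
      (mem_filter.mp hs).2.2, hmax s (mem_filter.mp hs).1⟩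
  have b5 := local2 (n := n) (t := t) gm hB τ s' (s' + n s') (by omega)
    D5 fun s hs => ⟨(hD s (mem_filter.mp hs).1).1, (mem_filter.mp hs).2.1.1,
      (mem_filter.mp hs).2.1.2, Nat.log_mono_right (hmax s (mem_filter.mp hs).1),
      (mem_filter.mp hs).2.2⟩
  have b6 := ih D6.card (by
    rw [← hN]; exact card_lt_card (filter_ssubset.mpr ⟨s', hs', by omega⟩)) D6 (G τ) s' (n s')
    rfl (hG τ) fun s hs => by
      obtain ⟨h1, ⟨h2, h3⟩, h4⟩ := mem_filter.mp hs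
      exact ⟨(hD s h1).1, h2, h3, (hD s h1).1.2.2.1.le.trans (gm _ _ h4)⟩
  have p1 := hΨ.2 lo (s' - lo) (lo + w - s')
  rw [Nat.add_sub_cancel' hl', show s' - lo + (lo + w - s') = w by omega] at p1
  have p2 := hΨ.2 s' (n s') (lo + w - (s' + n s'))
  rw [show n s' + (lo + w - (s' + n s')) = lo + w - s' by omega] at p2
  have b7 := mul_le_mul_of_nonneg_left hc'.2.1 (by positivity : 0 ≤ 17 * θ)
  have b8 := mul_le_mul_of_nonneg_left
    (show Ψ lo (s' - lo) + (a + 2) * n s' + Ψ (s' + n s') (lo + w - (s' + n s')) ≤ Ψ lo w by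
      linarith) (by positivity : 0 ≤ 17 * θ)
  push_cast at b5
  nlinarith

end

end Pool.Agent.P.MP_05754a_lc
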