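import Pool.Agent.P.MP_05754a_lc.Defs
import Pool.Agent.Lib.PrimrecProp.Basic

set_option autoImplicit false

namespace Pool.Agent.P.MP_05754a_lc

open Pool.Agent.Lib.PrimrecProp MeasureTheory

def pre (ω : ℕ → Bool) (M : ℕ) : List Bool := (List.range M).map ω

def sh (k : ℕ) (ω : ℕ → Bool) : ℕ → Bool := fun i => ω (i + k)

@[simp] lemma length_pre (ω : ℕ → Bool) (M : ℕ) : (pre ω M).length = M := by simp [pre]

lemma mem_cylOf {ω : ℕ → Bool} {x : List Bool} : ω ∈ cylOf x ↔ pre ω x.length = x := by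
  constructor
  · intro h
    refine List.ext_getElem (by simp) fun i h1 h2 => ?_
    simpa [pre] using h ⟨i, h2⟩
  · intro h i
    have : (pre ω x.length)[(i : ℕ)]'(by simp) = x[(i : ℕ)] := by simp only [h]
    simpa [pre] using this

lemma take_drop_pre (ω : ℕ → Bool) {M i t : ℕ} (h : i + t ≤ M) :
    ((pre ω M).drop i).take t = pre (sh i ω) t := by
  refine List.ext_getElem (by simp; omega) fun k h1 h2 => ?_
  simp [pre, sh, add_comm]

lemma take_pre (ω : ℕ → Bool) {M t : ℕ} (h : t ≤ M) : (pre ω M).take t = pre ω t := by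
  refine List.ext_getElem (by simp; omega) fun k h1 h2 => ?_
  simp [pre]

lemma sh_sh (i k : ℕ) (ω : ℕ → Bool) : sh i (sh k ω) = sh (k + i) ω := by
  funext n; simp only [sh]; congr 1; omega

lemma isOpen_cylOf (x : List Bool) : IsOpen (cylOf x) := by
  have : cylOf x = ⋂ i : Fin x.length, (fun ω : ℕ → Bool => ω i) ⁻¹' {x.get i} := by
    ext ω; simp [cylOf]
  rw [this]
  exact isOpen_iInter_of_finite fun i => (isOpen_discrete _).preimage (continuous_apply _)

lemma measurableSet_cylOf (x : List Bool) : MeasurableSet (cylOf x) := (isOpen_cylOf x).measurableSet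

lemma re_exists {α β : Type} [Primcodable α] [Primcodable β] [Inhabited β] (R : α × β → Bool)
    (hR : Primrec R) : REPred fun a => ∃ w, R (a, w) = true := by
  have h1 : Primrec fun p : α × ℕ => R (p.1, (Encodable.decode (α := β) p.2).getD default) :=
    hR.comp (Primrec.fst.pair (Primrec.option_getD_default.comp (Primrec.decode.comp Primrec.snd)))
  have h2 : Partrec fun a : α => Nat.rfind fun n =>
      (Part.some (R (a, (Encodable.decode (α := β) n).getD default)) : Part Bool) :=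
    Partrec.rfind h1.to_comp.partrec
  refine h2.dom_re.of_eq fun a => ?_
  rw [Nat.rfind_dom]
  constructor
  · rintro ⟨n, hn, -⟩
    exact ⟨_, by simpa using hn⟩
  · rintro ⟨w, hw⟩
    exact ⟨Encodable.encode w, by simpa using hw, fun _ => trivial⟩

lemma effOpen_of {ι β : Type} [Primcodable ι] [Primcodable β] [Inhabited β]
    (R : ι × β × List Bool → Bool) (hR : Primrec R) (len : ι × β → ℕ) (hlen : Primrec len) :
    EffOpenFam fun i => {ω | ∃ w, R (i, w, pre ω (len (i, w))) = true} := by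
  refine ⟨fun p => ∃ w, (eqb p.2.length (len (p.1, w)) && R (p.1, w, p.2)) = true,
    re_exists (fun q : (ι × List Bool) × β =>
      (eqb q.1.2.length (len (q.1.1, q.2)) && R (q.1.1, q.2, q.1.2))) (by fun_prop), fun i => ?_⟩
  ext ω
  simp only [Set.mem_ofPred_eq, Bool.and_eq_true, eqb_iff, Set.mem_iUnion, exists_prop, mem_cylOf]
  constructor
  · rintro ⟨w, hw⟩
    exact ⟨_, ⟨w, by simp, hw⟩, by simp⟩
  · rintro ⟨x, ⟨w, h1, h2⟩, h3⟩
    exact ⟨w, by rw [← h1, h3]; exact h2⟩

lemma stages {α : Type} [Primcodable α] {p : α → Prop} (hp : REPred p) :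
    ∃ E : ℕ × α → Bool, Primrec E ∧ (∀ t t' a, t ≤ t' → E (t, a) = true → E (t', a) = true) ∧
      ∀ a, p a ↔ ∃ t, E (t, a) = true := by
  obtain ⟨c, hc⟩ := Nat.Partrec.Code.exists_code.mp hp
  refine ⟨fun q => (Nat.Partrec.Code.evaln q.1 c (Encodable.encode q.2)).isSome, ?_, ?_, ?_⟩
  · exact Primrec.option_isSome.comp (Nat.Partrec.Code.primrec_evaln.comp
      ((Primrec.fst.pair (Primrec.const c)).pair (Primrec.encode.comp Primrec.snd)))
  · intro t t' a htt h
    obtain ⟨x, hx⟩ := Option.isSome_iff_exists.mp h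
    exact Option.isSome_iff_exists.mpr ⟨x, Nat.Partrec.Code.evaln_mono htt hx⟩
  · intro a
    have e : ∀ x, x ∈ c.eval (Encodable.encode a) ↔ p a ∧ Encodable.encode () = x := by
      intro x
      rw [hc]
      simp only [Encodable.encodek, Part.coe_some, Part.bind_some, Part.mem_map_iff,
        Part.mem_assert_iff, Part.mem_some_iff]
      constructor
      · rintro ⟨u, ⟨h, -⟩, h2⟩
        exact ⟨h, h2⟩
      · rintro ⟨h, h2⟩
        exact ⟨(), ⟨h, trivial⟩, h2⟩
    constructor
    · intro h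
      obtain ⟨k, hk⟩ := Nat.Partrec.Code.evaln_complete.mp ((e _).mpr ⟨h, rfl⟩)
      exact ⟨k, Option.isSome_iff_exists.mpr ⟨_, hk⟩⟩
    · rintro ⟨t, h⟩
      obtain ⟨x, hx⟩ := Option.isSome_iff_exists.mp h
      exact ((e x).mp (Nat.Partrec.Code.evaln_sound hx)).1

lemma primrec_int_sub (C : ℕ) : Primrec fun k : ℕ => (k : ℤ) - C := by
  rw [← Primrec.encode_iff]
  have h : Primrec fun k : ℕ => cond (leb C k) (2 * (k - C)) (2 * (C - k - 1) + 1) := by fun_prop
  refine h.of_eq fun k => ?_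
  by_cases hk : C ≤ k
  · have : (k : ℤ) - C = Int.ofNat (k - C) := by simp [Nat.cast_sub hk]
    rw [this, leb_iff C k |>.mpr hk]
    rfl
  · have : (k : ℤ) - C = Int.negSucc (C - k - 1) := by
      rw [Int.negSucc_eq]; push_cast [Nat.cast_sub (by omega : 1 ≤ C - k),
        Nat.cast_sub (by omega : k ≤ C)]; ring
    have h2 : leb C k = false := by simpa [leb] using hk
    rw [this, h2]
    rfl

@[fun_prop] lemma p_pow {α : Type} [Primcodable α] {f g : α → ℕ} (hf : Primrec f)
    (hg : Primrec g) : Primrec fun a => f a ^ g a :=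
  (Primrec₂.unpaired'.mp Nat.Primrec.pow).comp hf hg

/-- integer valued monotone approximation of a lower semicomputable function -/
lemma approx {f : (ℕ → Bool) → ℝ} (hf : LowerSemicomp f) (D c : ℕ) (hc : ∀ ω, -(c : ℝ) < f ω) :
    ∃ H : ℕ × List Bool → ℕ, Primrec H ∧ (∀ ω, Monotone fun t => H (t, pre ω t)) ∧
      (∀ ω t, (H (t, pre ω t) : ℝ) ≤ (D + 1) * (f ω + c)) ∧
      ∀ ω, ∃ t, (D + 1) * (f ω + c) - 1 ≤ (H (t, pre ω t) : ℝ) := by
  obtain ⟨W, hW, hU⟩ := hf
  have hW' : REPred fun p : ℕ × List Bool => W (((p.1 : ℤ) - (c * (D + 1) : ℕ), D), p.2) :=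
    Partrec.comp hW (Primrec.to_comp ((((primrec_int_sub _).comp Primrec.fst).pair
      (Primrec.const D)).pair Primrec.snd))
  obtain ⟨E, hE, Em, hEW⟩ := stages hW'
  have hD : (0 : ℝ) < D + 1 := by positivity
  have key : ∀ (ω : ℕ → Bool) (k : ℕ), (k : ℝ) < (D + 1) * (f ω + c) ↔
      ∃ t l, E (t, k, pre ω l) = true := by
    intro ω k
    have h1 := Set.ext_iff.mp (hU ((k : ℤ) - (c * (D + 1) : ℕ), D)) ω
    simp only [Set.mem_ofPred_eq, Set.mem_iUnion, exists_prop, mem_cylOf] at h1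
    rw [div_lt_iff₀ hD] at h1
    push_cast at h1
    constructor
    · intro h
      obtain ⟨x, h2, h3⟩ := h1.mp (by linarith)
      obtain ⟨t, ht⟩ := (hEW (k, x)).mp (by simpa using h2)
      exact ⟨t, x.length, by rw [h3]; exact ht⟩
    · rintro ⟨t, l, h⟩
      have h2 := (hEW (k, pre ω l)).mpr ⟨t, h⟩
      have := h1.mpr ⟨pre ω l, by simpa using h2, by simp⟩
      linarith
  set H : ℕ × List Bool → ℕ := fun p => ((List.range p.1).filter fun k =>
    (List.range (p.1 + 1)).any fun l => E (p.1, k + 1, p.2.take l)).length with hH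
  have Hc : ∀ ω t, H (t, pre ω t) = ((Finset.range t).filter fun k =>
      ∃ l ≤ t, E (t, k + 1, pre ω l) = true).card := by
    intro ω t
    simp only [hH]
    rw [← List.toFinset_card_of_nodup (List.nodup_range.filter _)]
    congr 1
    ext k
    simp only [List.mem_toFinset, List.mem_filter, List.mem_range, List.any_eq_true,
      Finset.mem_filter, Finset.mem_range, Nat.lt_succ_iff]
    refine and_congr_right fun _ => exists_congr fun l => and_congr_right fun hl => ?_
    rw [take_pre ω hl]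
  refine ⟨H, by simp only [hH]; fun_prop, fun ω t t' htt => ?_, fun ω t => ?_, fun ω => ?_⟩
  · simp only [Hc]
    refine Finset.card_le_card fun k hk => ?_
    simp only [Finset.mem_filter, Finset.mem_range] at hk ⊢
    obtain ⟨h1, l, h2, h3⟩ := hk
    exact ⟨by omega, l, by omega, Em _ _ _ htt h3⟩
  · rw [Hc]
    have h0 : 0 ≤ (D + 1) * (f ω + c) := mul_nonneg hD.le (by linarith [hc ω])
    refine le_trans ?_ (Nat.floor_le h0)
    rw [Nat.cast_le, ← Finset.card_range ⌊_⌋₊]
    refine Finset.card_le_card fun k hk => ?_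
    simp only [Finset.mem_filter, Finset.mem_range] at hk ⊢
    obtain ⟨-, l, -, h3⟩ := hk
    exact Nat.le_floor ((key ω (k + 1)).mpr ⟨t, l, h3⟩).le
  · set φ := (D + 1) * (f ω + c) with hφ
    have h1 : ∀ k : Fin (⌈φ⌉₊ - 1), ∃ t l, E (t, k + 1, pre ω l) = true := by
      intro k
      refine (key ω (k + 1)).mp (Nat.lt_ceil.mp ?_)
      have := k.2
      rw [← hφ]; omega
    choose T L hTL using h1
    obtain ⟨t, ht⟩ : ∃ t, ⌈φ⌉₊ ≤ t ∧ ∀ k, T k ≤ t ∧ L k ≤ t := by
      refine ⟨⌈φ⌉₊ + Finset.univ.sup T + Finset.univ.sup L, by omega, fun k => ?_⟩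
      have a := Finset.le_sup (f := T) (Finset.mem_univ k)
      have b := Finset.le_sup (f := L) (Finset.mem_univ k)
      omega
    refine ⟨t, ?_⟩
    rw [Hc]
    have h2 : ⌈φ⌉₊ - 1 ≤ ((Finset.range t).filter fun k =>
        ∃ l ≤ t, E (t, k + 1, pre ω l) = true).card := by
      rw [← Finset.card_range (⌈φ⌉₊ - 1)]
      refine Finset.card_le_card fun k hk => ?_
      simp only [Finset.mem_filter, Finset.mem_range] at hk ⊢
      exact ⟨by omega, L ⟨k, hk⟩, (ht.2 _).2, Em _ _ _ (ht.2 _).1 (hTL ⟨k, hk⟩)⟩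
    have h3 : ⌈φ⌉₊ ≤ ((Finset.range t).filter fun k =>
        ∃ l ≤ t, E (t, k + 1, pre ω l) = true).card + 1 := by omega
    have h4 : (⌈φ⌉₊ : ℝ) ≤ ((Finset.range t).filter fun k =>
        ∃ l ≤ t, E (t, k + 1, pre ω l) = true).card + 1 := by exact_mod_cast h3
    linarith [Nat.le_ceil φ]

end Pool.Agent.P.MP_05754a_lc
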