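import Pool.Agent.P.MP_05754a_lc.Down

/-! Boxes and cubes in `ℕ^d`, and the words of the cube argument. -/

set_option autoImplicit false

namespace Pool.Agent.P.MP_05754a_lc.Cu

open Finset

variable {d : ℕ}

/-- the box with corners `lo`, `hi` -/
def Bx (lo hi : Fin d → ℕ) : Finset (Fin d → ℕ) := Fintype.piFinset fun i => Ico (lo i) (hi i)

/-- the cube `s + [0, n)^d` -/
def Qb (s : Fin d → ℕ) (n : ℕ) : Finset (Fin d → ℕ) := Bx s fun i => s i + n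

lemma mem_Bx {lo hi k : Fin d → ℕ} : k ∈ Bx lo hi ↔ ∀ i, lo i ≤ k i ∧ k i < hi i := by
  simp [Bx]

lemma mem_Qb {s k : Fin d → ℕ} {n : ℕ} : k ∈ Qb s n ↔ ∀ i, s i ≤ k i ∧ k i < s i + n := mem_Bx

lemma card_Bx (lo hi : Fin d → ℕ) : (Bx lo hi).card = ∏ i, (hi i - lo i) := by
  simp [Bx]

lemma card_Qb (s : Fin d → ℕ) (n : ℕ) : (Qb s n).card = n ^ d := by
  simp [Qb, card_Bx]

lemma self_mem_Qb (s : Fin d → ℕ) {n : ℕ} (hn : 1 ≤ n) : s ∈ Qb s n :=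
  mem_Qb.2 fun _ => ⟨le_rfl, by omega⟩

lemma Qb_mono (s : Fin d → ℕ) {m n : ℕ} (h : m ≤ n) : Qb s m ⊆ Qb s n := fun _ hk =>
  mem_Qb.2 fun i => ⟨(mem_Qb.1 hk i).1, by have := (mem_Qb.1 hk i).2; omega⟩

lemma side_le (hd : 1 ≤ d) {s s' : Fin d → ℕ} {m n : ℕ} (h : Qb s m ⊆ Qb s' n) : m ≤ n := by
  have := card_le_card h
  rw [card_Qb, card_Qb] at this
  exact (Nat.pow_le_pow_iff_left (by omega)).1 this

lemma card_Bx_le {lo hi : Fin d → ℕ} {A : ℕ} (h : ∀ i, hi i ≤ lo i + A) :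
    (Bx lo hi).card ≤ A ^ d := by
  rw [card_Bx]
  refine (prod_le_pow_card _ _ A fun i _ => ?_).trans (by simp)
  have := h i
  omega

/-- a box minus an inner box -/
lemma shell {lo hi lo' hi' : Fin d → ℕ} {A B w M : ℕ} (h1 : ∀ i, lo i ≤ lo' i)
    (h2 : ∀ i, hi' i ≤ hi i) (hA : ∀ i, hi i ≤ lo i + A) (hB : ∀ i, hi' i - lo' i = B)
    (hBA : B ≤ A) (hw : A ≤ B + w) (hM : A ≤ M) :
    ((Bx lo hi \ Bx lo' hi').card : ℝ) ≤ w * d * (M : ℝ) ^ (d - 1) := by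
  have hsub : Bx lo' hi' ⊆ Bx lo hi := fun k hk => mem_Bx.2 fun i =>
    ⟨(h1 i).trans (mem_Bx.1 hk i).1, (mem_Bx.1 hk i).2.trans_le (h2 i)⟩
  have e1 := card_sdiff_add_card_eq_card hsub
  have e2 : (Bx lo' hi').card = B ^ d := by simp [card_Bx, hB]
  have e3 : ((Bx lo hi \ Bx lo' hi').card : ℝ) + (B : ℝ) ^ d ≤ (A : ℝ) ^ d := by
    rw [e2] at e1
    exact_mod_cast e1.le.trans (card_Bx_le hA)
  have e4 := (le_abs_self _).trans (abs_pow_sub_pow_le (a := (A : ℝ)) (b := B) (n := d))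
  have hBA' : (B : ℝ) ≤ A := by exact_mod_cast hBA
  have hw' : (A : ℝ) - B ≤ w := by
    have : (A : ℝ) ≤ B + w := by exact_mod_cast hw
    linarith
  have hM' : (A : ℝ) ≤ M := by exact_mod_cast hM
  rw [abs_of_nonneg (sub_nonneg.2 hBA'), Nat.abs_cast, Nat.abs_cast, max_eq_left hBA'] at e4
  have e5 : ((A : ℝ) - B) * d * (A : ℝ) ^ (d - 1) ≤ w * d * (M : ℝ) ^ (d - 1) := by gcongr
  linarith

/-- superadditive functions of cubes -/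
def SupA (G : (Fin d → ℕ) → ℕ → ℝ) : Prop :=
  ∀ (s : Fin d → ℕ) (n : ℕ) (P : Finset ((Fin d → ℕ) × ℕ)), (∀ p ∈ P, Qb p.1 p.2 ⊆ Qb s n) →
    (P : Set ((Fin d → ℕ) × ℕ)).PairwiseDisjoint (fun p => Qb p.1 p.2) →
    ∑ p ∈ P, G p.1 p.2 ≤ G s n

/-- `j` crossings at `s` inside the window `W` -/
def Cr (G : (Fin d → ℕ) → ℕ → ℝ) (a : ℝ) (j : ℕ) (s : Fin d → ℕ) (W : Finset (Fin d → ℕ)) : Prop :=
  CrossSeq (fun m => (a + 1) * (m : ℝ) ^ d < G s m)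
    (fun m => Qb s m ⊆ W ∧ G s m < a * (m : ℝ) ^ d) j

/-- points with `j` crossings have density at most `φ` -/
def Bd (G : (Fin d → ℕ) → ℕ → ℝ) (a : ℝ) (j : ℕ) (φ : ℝ) : Prop :=
  ∀ W D : Finset (Fin d → ℕ), (∀ s ∈ D, s ∈ W ∧ Cr G a j s W) → (D.card : ℝ) ≤ φ * W.card

/-- the number of crossings that forces density at most `1 / m` -/
def JJ (d a m : ℕ) : ℕ :=
  2 * a * m * (2 * (4 * (a + 1) * m * (d + 1) * 2 ^ d) *
    (a * (4 * (a + 1) * m * (d + 1) * 2 ^ d) ^ d))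

/-- the sum over a cube at time `t` -/
noncomputable def SS (g : (Fin d → ℕ) → ℕ → ℝ) (t : ℕ) (s : Fin d → ℕ) (n : ℕ) : ℝ :=
  ∑ k ∈ Qb s n, g k t

/-- the point `s` is caught by the side `n` and the time `t` -/
def Caught (g : (Fin d → ℕ) → ℕ → ℝ) (a : ℝ) (j : ℕ) (s : Fin d → ℕ) (n t : ℕ) : Prop :=
  1 ≤ n ∧ SS g (Nat.log 2 n) s n ≤ (a + 1) * (n : ℝ) ^ d ∧ (a + 2) * (n : ℝ) ^ d < SS g t s n ∧
    CrossSeq (fun m => (a + 1) * (m : ℝ) ^ d < SS g (Nat.log 2 n) s m)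
      (fun m => m ≤ n ∧ SS g t s m < a * (m : ℝ) ^ d) j

lemma SS_mono {g : (Fin d → ℕ) → ℕ → ℝ} (gm : ∀ k, Monotone (g k)) {t t' : ℕ} (h : t ≤ t')
    (s : Fin d → ℕ) (n : ℕ) : SS g t s n ≤ SS g t' s n :=
  sum_le_sum fun _ _ => gm _ h

lemma supA_of (hd : 1 ≤ d) {g : (Fin d → ℕ) → ℕ → ℝ} (g0 : ∀ k t, 0 ≤ g k t)
    (gm : ∀ k, Monotone (g k)) {τ : ℕ → ℕ} (hτ : Monotone τ) :
    SupA fun s n => SS g (τ n) s n := by
  classical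
  intro s n P h1 h2
  refine (sum_le_sum fun p hp => SS_mono gm (hτ (side_le hd (h1 p hp))) _ _).trans ?_
  unfold SS
  rw [← sum_biUnion h2]
  exact sum_le_sum_of_subset_of_nonneg (biUnion_subset.2 h1) fun _ _ _ => g0 _ _

end Pool.Agent.P.MP_05754a_lc.Cu
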