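import Pool.Agent.P.MP_05754a_lc.CuV

/-! A downcrossing bound for superadditive functions of cubes. -/

set_option autoImplicit false

namespace Pool.Agent.P.MP_05754a_lc.Cu

open Finset

variable {d : ℕ}

/-- the witnesses of `J` crossings -/
def Wit (G : (Fin d → ℕ) → ℕ → ℝ) (a : ℝ) (J : ℕ) (s : Fin d → ℕ) (W : Finset (Fin d → ℕ))
    (x y : ℕ → ℕ) : Prop :=
  ∀ q < J, x q < y q ∧ (q + 1 < J → y q ≤ x (q + 1)) ∧ (a + 1) * (x q : ℝ) ^ d < G s (x q) ∧
    Qb s (y q) ⊆ W ∧ G s (y q) < a * (y q : ℝ) ^ d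

section
variable {G : (Fin d → ℕ) → ℕ → ℝ} {J : ℕ} {s : Fin d → ℕ} {W : Finset (Fin d → ℕ)}
  {x y : ℕ → ℕ}

lemma SupA.mono (hG : SupA G) (s : Fin d → ℕ) {m n : ℕ} (h : m ≤ n) : G s m ≤ G s n := by
  simpa using hG s n {(s, m)} (by simpa using Qb_mono s h) (by simp)

lemma Wit.ymono {a : ℝ} (h : Wit G a J s W x y) {q q' : ℕ} (hq : q ≤ q') (hJ : q' < J) :
    y q ≤ y q' := by
  induction hq with
  | refl => exact le_rfl
  | @step m _ ih => exact (ih (by omega)).trans (((h m (by omega)).2.1 hJ).trans (h _ hJ).1.le)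

lemma Wit.yx {a : ℝ} (h : Wit G a J s W x y) {q q' : ℕ} (hq : q < q') (hJ : q' < J) :
    y q ≤ x q' := by
  obtain ⟨m, rfl⟩ : ∃ m, q' = m + 1 := ⟨q' - 1, by omega⟩
  exact (h.ymono (by omega) (by omega)).trans ((h m (by omega)).2.1 hJ)

lemma Wit.jump {a : ℝ} (hG : SupA G) (h : Wit G a J s W x y) {q : ℕ} (hq : q < J) :
    (a + 1) * (x q : ℝ) ^ d < a * (y q : ℝ) ^ d :=
  ((h q hq).2.2.1.trans_le (hG.mono s (h q hq).1.le)).trans (h q hq).2.2.2.2

lemma grow (hd : 1 ≤ d) {a E : ℕ} (ha : 0 < a) {u : ℕ → ℕ}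
    (h : ∀ q, q + 1 < J → ((a : ℝ) + 1) * (u q : ℝ) ^ d ≤ a * (u (q + 1) : ℝ) ^ d) (q : ℕ)
    (hq : q + a * E ^ d < J) : E * u q ≤ u (q + a * E ^ d) := by
  have ha' : (0 : ℝ) < a := by exact_mod_cast ha
  have key : ∀ r, q + r < J →
      ((a : ℝ) + 1) ^ r * (u q : ℝ) ^ d ≤ (a : ℝ) ^ r * (u (q + r) : ℝ) ^ d := by
    intro r
    induction r with
    | zero => simp
    | succ r ih =>
      intro hr
      have h1 := mul_le_mul_of_nonneg_left (ih (by omega)) (show (0 : ℝ) ≤ a + 1 by positivity)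
      have h2 := mul_le_mul_of_nonneg_left (h (q + r) hr) (show (0 : ℝ) ≤ (a : ℝ) ^ r by positivity)
      rw [pow_succ, pow_succ, ← add_assoc]
      linarith
  have h1 := bern a (a * E ^ d)
  have h2 : (E : ℝ) ^ d * (a : ℝ) ^ (a * E ^ d) ≤ ((a : ℝ) + 1) ^ (a * E ^ d) := by
    refine le_of_mul_le_mul_left ?_ ha'
    push_cast at h1
    linarith
  have h3 := (mul_le_mul_of_nonneg_right h2 (show (0 : ℝ) ≤ (u q : ℝ) ^ d by positivity)).trans
    (key _ hq)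
  have h4 : ((E : ℝ) * u q) ^ d ≤ (u (q + a * E ^ d) : ℝ) ^ d := by
    refine le_of_mul_le_mul_left ?_ (show (0 : ℝ) < (a : ℝ) ^ (a * E ^ d) by positivity)
    rw [mul_pow]
    linarith
  exact (Nat.pow_le_pow_iff_left (n := d) (by omega)).1 (by exact_mod_cast h4)

lemma Wit.growx (hd : 1 ≤ d) {a E : ℕ} (ha : 0 < a) (hG : SupA G) (h : Wit G a J s W x y) (q : ℕ)
    (hq : q + a * E ^ d < J) : E * x q ≤ x (q + a * E ^ d) :=
  grow hd ha (fun q hq => (h.jump hG (Nat.lt_of_succ_lt hq)).le.trans (by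
    have := (h q (by omega)).2.1 hq
    gcongr)) q hq

lemma Wit.growy (hd : 1 ≤ d) {a E : ℕ} (ha : 0 < a) (hG : SupA G) (h : Wit G a J s W x y) (q : ℕ)
    (hq : q + a * E ^ d < J) : E * y q ≤ y (q + a * E ^ d) :=
  grow hd ha (fun q hq => le_trans (by
    have := (h q (by omega)).2.1 hq
    gcongr) (h.jump hG hq).le) q hq

lemma pick {a : ℝ} (D : Finset (Fin d → ℕ)) (hD : ∀ s ∈ D, Cr G a J s W) :
    ∃ x y : (Fin d → ℕ) → ℕ → ℕ, ∀ s ∈ D, Wit G a J s W (x s) (y s) := by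
  have hex : ∀ s, ∃ x y, s ∈ D → Wit G a J s W x y := by
    intro s
    by_cases hs : s ∈ D
    · obtain ⟨x, y, h⟩ := hD s hs
      exact ⟨x, y, fun _ => h⟩
    · exact ⟨id, id, fun h => absurd h hs⟩
  choose x y hw using hex
  exact ⟨x, y, hw⟩

lemma idx {E r l : ℕ} (hr : 0 < r) (hl : l < E) : l * r < E * r := Nat.mul_lt_mul_of_pos_right hl hr

lemma stepLow (hd : 1 ≤ d) {a E j : ℕ} (ha : 0 < a) (hE : 1 ≤ E) (hG : SupA G)
    (hG0 : ∀ s, G s 0 ≤ 0) {φ : ℝ} (hφ : 0 ≤ φ) (hB : Bd G a j φ) (s0 : Fin d → ℕ) (n : ℕ)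
    (hlow : G s0 n < a * (n : ℝ) ^ d) (D : Finset (Fin d → ℕ))
    (hD : ∀ s ∈ D, Cr G a (j + E * (a * E ^ d)) s (Qb s0 n)) :
    (D.card : ℝ) ≤ (φ + (d + 1) * 2 ^ d / E) * (a / (a + 1)) * (n : ℝ) ^ d := by
  obtain ⟨x, y, hw⟩ := pick D hD
  have hr : 0 < a * E ^ d := by positivity
  have h1 : ∀ s ∈ D, 1 ≤ x s (j + 0 * (a * E ^ d)) := by
    intro s hs
    by_contra h
    have h2 := (hw s hs _ (Nat.add_lt_add_left (idx hr hE) j)).2.2.1
    rw [show x s (j + 0 * (a * E ^ d)) = 0 by omega, Nat.cast_zero, zero_pow (by omega),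
      mul_zero] at h2
    exact absurd (hG0 s) (not_le.2 h2)
  obtain ⟨P, p1, p2, p3⟩ := vitali hd D hE (fun s l => x s (j + l * (a * E ^ d))) h1
    (fun s hs l hl => by
      have := idx hr hl
      rw [Nat.succ_mul, ← add_assoc]
      rw [Nat.succ_mul] at this
      exact (hw s hs).growx hd ha hG _ (by omega)) (φ := φ)
    (fun s _ l _ D' hD' hsub => by
      have := hB _ D' fun s' hs' => ⟨hsub s' hs' (self_mem_Qb s' (h1 s' (hD' hs'))), x s', y s',
        fun q hq => by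
          have h3 := idx hr hE
          have h4 := hw s' (hD' hs') q (by omega)
          exact ⟨h4.1, fun h => h4.2.1 (by omega), h4.2.2.1, (Qb_mono s'
            ((hw s' (hD' hs')).yx (by omega) (by omega))).trans (hsub s' hs'), h4.2.2.2.2⟩⟩
      rwa [card_Qb, Nat.cast_pow] at this)
  have h5 : ∀ p ∈ P, ((a : ℝ) + 1) * (p.2 : ℝ) ^ d ≤ G p.1 p.2 ∧ Qb p.1 p.2 ⊆ Qb s0 n := by
    intro p hp
    obtain ⟨hs, l, hl, e⟩ := p1 p hp
    have h4 := hw _ hs _ (Nat.add_lt_add_left (idx hr hl) j)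
    rw [e]
    exact ⟨h4.2.2.1.le, (Qb_mono _ h4.1.le).trans h4.2.2.2.1⟩
  have h6 := ((sum_le_sum fun p hp => (h5 p hp).1).trans
    (hG s0 n P (fun p hp => (h5 p hp).2) p2)).trans hlow.le
  rw [← mul_sum, ← le_div_iff₀' (by positivity)] at h6
  refine p3.trans ((mul_le_mul_of_nonneg_left h6 (by positivity)).trans (le_of_eq ?_))
  ring

lemma stepBd (hd : 1 ≤ d) {a E j : ℕ} (ha : 0 < a) (hE : 1 ≤ E) (hG : SupA G)
    (hG0 : ∀ s, G s 0 ≤ 0) {φ : ℝ} (hφ : 0 ≤ φ) (hB : Bd G a j φ) :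
    Bd G a (j + 2 * E * (a * E ^ d))
      ((φ + (d + 1) * 2 ^ d / E) * (a / (a + 1)) + (d + 1) * 2 ^ d / E) := by
  classical
  intro W D hD
  obtain ⟨x, y, hw⟩ := pick D fun s hs => (hD s hs).2
  have hr : 0 < a * E ^ d := by positivity
  have hJ : ∀ l < E, j + E * (a * E ^ d) + l * (a * E ^ d) < j + 2 * E * (a * E ^ d) := by
    intro l hl
    have := idx hr hl
    rw [mul_assoc 2]
    omega
  obtain ⟨P, p1, p2, p3⟩ := vitali hd D hE
    (fun s l => y s (j + E * (a * E ^ d) + l * (a * E ^ d)))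
    (fun s hs => Nat.one_le_of_lt (hw s hs _ (hJ 0 hE)).1)
    (fun s hs l hl => by
      have := hJ _ hl
      rw [Nat.succ_mul, ← add_assoc] at this ⊢
      exact (hw s hs).growy hd ha hG _ this)
    (φ := (φ + (d + 1) * 2 ^ d / E) * (a / (a + 1)))
    (fun s hs l hl D' hD' hsub => stepLow hd ha hE hG hG0 hφ hB s _
      (hw s hs _ (hJ l hl)).2.2.2.2 D' fun s' hs' => ⟨x s', y s', fun q hq => by
        have h3 := hJ 0 hE
        have h4 := hw s' (hD' hs') q (by omega)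
        exact ⟨h4.1, fun h => h4.2.1 (by omega), h4.2.2.1, (Qb_mono s'
          ((hw s' (hD' hs')).ymono (by omega) h3)).trans (hsub s' hs'), h4.2.2.2.2⟩⟩)
  have h5 : P.biUnion (fun p => Qb p.1 p.2) ⊆ W := biUnion_subset.2 fun p hp => by
    obtain ⟨hs, l, hl, e⟩ := p1 p hp
    rw [e]
    exact (hw _ hs _ (hJ l hl)).2.2.2.1
  have h6 := card_le_card h5
  rw [card_biUnion p2] at h6
  simp only [card_Qb] at h6
  refine p3.trans (mul_le_mul_of_nonneg_left ?_ (by positivity))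
  exact_mod_cast h6

theorem down (hd : 1 ≤ d) (hG : SupA G) (hG0 : ∀ s, G s 0 ≤ 0) (a m : ℕ) (ha0 : 0 < a)
    (hm : 0 < m) : Bd G a (JJ d a m) (1 / m) := by
  have ha : (0 : ℝ) < a := by exact_mod_cast ha0
  have hm' : (0 : ℝ) < m := by exact_mod_cast hm
  obtain ⟨E, hE⟩ : ∃ E, E = 4 * (a + 1) * m * (d + 1) * 2 ^ d := ⟨_, rfl⟩
  have hE1 : 1 ≤ E := by rw [hE]; exact Nat.succ_le_of_lt (by positivity)
  obtain ⟨ε, hε⟩ : ∃ ε : ℝ, ε = (d + 1) * 2 ^ d / E := ⟨_, rfl⟩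
  have hε0 : 0 ≤ ε := by rw [hε]; positivity
  have hρ : (a : ℝ) / (a + 1) ≤ 1 := by rw [div_le_one (by positivity)]; linarith
  have iter : ∀ k, Bd G a (k * (2 * E * (a * E ^ d))) ((a / (a + 1)) ^ k + 2 * ε * (a + 1)) := by
    intro k
    induction k with
    | zero =>
      intro W D hD
      have h1 : (D.card : ℝ) ≤ W.card := by exact_mod_cast card_le_card fun s hs => (hD s hs).1
      have h4 : 0 ≤ 2 * ε * (a + 1) * W.card := by positivity
      rw [pow_zero]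
      linarith
    | succ k ih =>
      intro W D hD
      rw [Nat.succ_mul] at hD
      refine (stepBd hd ha0 hE1 hG hG0 (by positivity) ih W D hD).trans
        (mul_le_mul_of_nonneg_right ?_ (Nat.cast_nonneg _))
      have h1 : 2 * ε * (a + 1) * (a / (a + 1)) = 2 * ε * a := by field_simp
      have h2 := mul_le_mul_of_nonneg_left hρ hε0
      rw [← hε, pow_succ]
      nlinarith
  intro W D hD
  unfold JJ at hD
  rw [← hE] at hD
  refine (iter (2 * a * m) W D hD).trans (mul_le_mul_of_nonneg_right ?_ (Nat.cast_nonneg _))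
  have h1 : 2 * ε * (a + 1) = 1 / (2 * m) := by
    rw [hε, hE]
    push_cast
    field_simp
    norm_num
  have h2 : ((a : ℝ) / (a + 1)) ^ (2 * a * m) ≤ 1 / (2 * m) := by
    have h3 := bern a (2 * a * m)
    have h4 : (a : ℝ) * (2 * m * (a : ℝ) ^ (2 * a * m)) ≤ a * ((a : ℝ) + 1) ^ (2 * a * m) := by
      push_cast at h3; linarith
    have h5 := le_of_mul_le_mul_left h4 ha
    rw [div_pow, div_le_div_iff₀ (by positivity) (by positivity)]
    linarith
  have h3 : (1 : ℝ) / m = 1 / (2 * m) + 1 / (2 * m) := by field_simp; norm_num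
  linarith

end

end Pool.Agent.P.MP_05754a_lc.Cu
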