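import Pool.Agent.P.MP_05754a_lc.CuA

/-! Caught points have small density. -/

set_option autoImplicit false

namespace Pool.Agent.P.MP_05754a_lc.Cu

open Finset

variable {d : ℕ}

section
variable {g : (Fin d → ℕ) → ℕ → ℝ} {a θ : ℝ} {j : ℕ} {n t : (Fin d → ℕ) → ℕ}

lemma Caught.log_lt (gm : ∀ k, Monotone (g k)) {s : Fin d → ℕ} {n t : ℕ}
    (h : Caught g a j s n t) : Nat.log 2 n < t := by
  by_contra hc
  have h1 := SS_mono gm (not_lt.mp hc) s n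
  have h2 : (0 : ℝ) < n := by exact_mod_cast h.1
  have h3 := pow_pos h2 d
  nlinarith [h.2.1, h.2.2.1]

lemma localC (gm : ∀ k, Monotone (g k)) (hB : ∀ τ, Bd (SS g τ) a j θ) (T : ℕ)
    (W D : Finset (Fin d → ℕ))
    (hD : ∀ s ∈ D, Caught g a j s (n s) (t s) ∧ Qb s (n s) ⊆ W ∧ Nat.log 2 (n s) ≤ T ∧ T ≤ t s) :
    (D.card : ℝ) ≤ θ * W.card :=
  hB T W D fun s hs => by
    obtain ⟨⟨h1, -, -, h4⟩, h5, h7, h8⟩ := hD s hs
    exact ⟨h5 (self_mem_Qb s h1), h4.mono (fun m _ hm => hm.trans_le (SS_mono gm h7 s m))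
      fun m hm => ⟨(Qb_mono s hm.1).trans h5, (SS_mono gm h8 s m).trans_lt hm.2⟩⟩

lemma edge_sub {s p : Fin d → ℕ} {m N u : ℕ} (hu : m < u) (h1 : ¬ Disjoint (Qb s m) (Qb p N))
    (h2 : ¬ Qb s m ⊆ Qb p N) :
    Qb s m ⊆ Bx (fun i => p i - u) (fun i => p i + N + u) \
      Bx (fun i => p i + u) (fun i => p i + N - u) := by
  obtain ⟨x, x1, x2⟩ := not_disjoint_iff.1 h1
  obtain ⟨z, z1, z2⟩ := not_subset.1 h2
  intro k hk
  rw [mem_Qb] at x1 x2 z1 z2 hk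
  refine mem_sdiff.2 ⟨mem_Bx.2 fun i => ?_, fun h => z2 fun i => ?_⟩
  · have := x1 i
    have := x2 i
    have := hk i
    omega
  · have := mem_Bx.1 h i
    have := z1 i
    have := hk i
    omega

lemma edgeC (hd : 1 ≤ d) (gm : ∀ k, Monotone (g k)) (hB : ∀ τ, Bd (SS g τ) a j θ) (hθ : 0 ≤ θ)
    (p : Fin d → ℕ) (N : ℕ) (hN : 1 ≤ N) (D : Finset (Fin d → ℕ))
    (hD : ∀ s ∈ D, Caught g a j s (n s) (t s) ∧ ¬ Disjoint (Qb s (n s)) (Qb p N) ∧
      ¬ Qb s (n s) ⊆ Qb p N ∧ n s ≤ N) :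
    (D.card : ℝ) ≤ θ * (16 * d * 5 ^ (d - 1) * (N : ℝ) ^ d) := by
  have e := card_eq_sum_card_fiberwise (s := D) (t := range (Nat.log 2 N + 1))
    (f := fun s => Nat.log 2 (n s)) fun s hs => by
      simp only [coe_range, Set.mem_Iio]
      exact Nat.lt_succ_of_le (Nat.log_mono_right (hD s hs).2.2.2)
  rw [e]
  push_cast
  have hl := Nat.pow_log_le_self 2 (by omega : N ≠ 0)
  have h1 : ∀ e ∈ range (Nat.log 2 N + 1),
      ((D.filter fun s => Nat.log 2 (n s) = e).card : ℝ) ≤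
        θ * (8 * d * (5 * (N : ℝ)) ^ (d - 1)) * 2 ^ e := by
    intro e he
    have he' : 2 ^ e ≤ 2 ^ Nat.log 2 N :=
      Nat.pow_le_pow_right (by norm_num) (by have := mem_range.1 he; omega)
    have k1 := localC (n := n) (t := t) gm hB e
      (Bx (fun i => p i - 2 * 2 ^ e) (fun i => p i + N + 2 * 2 ^ e) \
        Bx (fun i => p i + 2 * 2 ^ e) (fun i => p i + N - 2 * 2 ^ e))
      (D.filter fun s => Nat.log 2 (n s) = e) fun s hs => by
        obtain ⟨h1, h2⟩ := mem_filter.mp hs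
        obtain ⟨h3, h4, h5, h6⟩ := hD s h1
        have h7 := Nat.lt_pow_succ_log_self (b := 2) (by norm_num) (n s)
        rw [h2, Nat.succ_eq_add_one, pow_succ'] at h7
        exact ⟨h3, edge_sub h7 h4 h5, h2.le, h2 ▸ (h3.log_lt gm).le⟩
    have k2 := shell (lo := fun i => p i - 2 * 2 ^ e) (hi := fun i => p i + N + 2 * 2 ^ e)
      (lo' := fun i => p i + 2 * 2 ^ e) (hi' := fun i => p i + N - 2 * 2 ^ e)
      (A := N + 4 * 2 ^ e) (B := N - 4 * 2 ^ e) (w := 8 * 2 ^ e) (M := 5 * N)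
      (fun i => by omega) (fun i => by omega) (fun i => by omega) (fun i => by omega)
      (by omega) (by omega) (by omega)
    refine k1.trans ((mul_le_mul_of_nonneg_left k2 hθ).trans (le_of_eq ?_))
    push_cast
    ring
  refine (sum_le_sum h1).trans ?_
  rw [← mul_sum]
  have h2 : ∑ e ∈ range (Nat.log 2 N + 1), (2 : ℝ) ^ e ≤ 2 * 2 ^ Nat.log 2 N := by
    rw [geom_sum_eq (by norm_num), pow_succ]; norm_num; linarith
  have h3 : (2 : ℝ) ^ Nat.log 2 N ≤ N := by exact_mod_cast hl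
  refine (mul_le_mul_of_nonneg_left (show _ ≤ 2 * (N : ℝ) by linarith) (by positivity)).trans
    (le_of_eq ?_)
  obtain ⟨c, rfl⟩ : ∃ c, d = c + 1 := ⟨d - 1, by omega⟩
  rw [Nat.add_sub_cancel, mul_pow, pow_succ]
  ring

end

theorem window (hd : 1 ≤ d) {g : (Fin d → ℕ) → ℕ → ℝ} (g0 : ∀ k t, 0 ≤ g k t)
    (gm : ∀ k, Monotone (g k)) {a θ : ℝ} {j : ℕ} (hθ : 0 ≤ θ) (hB : ∀ τ, Bd (SS g τ) a j θ)
    (n t : (Fin d → ℕ) → ℕ) (D W : Finset (Fin d → ℕ)) (ψ : (Fin d → ℕ) → ℝ) (ψ0 : ∀ k, 0 ≤ ψ k)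
    (hD : ∀ s ∈ D, Caught g a j s (n s) (t s) ∧ Qb s (n s) ⊆ W ∧
      (a + 2) * (n s : ℝ) ^ d ≤ ∑ k ∈ Qb s (n s), ψ k) :
    (D.card : ℝ) ≤ (1 + 16 * d * 5 ^ (d - 1)) * θ * ∑ k ∈ W, ψ k := by
  classical
  induction hN : D.card using Nat.strong_induction_on generalizing D W ψ with
  | _ N ih =>
  subst hN
  have hC : (0 : ℝ) ≤ (1 + 16 * d * 5 ^ (d - 1)) * θ := by positivity
  rcases D.eq_empty_or_nonempty with rfl | hne
  · simp only [card_empty, Nat.cast_zero]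
    exact mul_nonneg hC (sum_nonneg fun k _ => ψ0 k)
  obtain ⟨s', hs', hmax⟩ := D.exists_max_image n hne
  obtain ⟨hc', hl', hp'⟩ := hD s' hs'
  have hn' := hc'.1
  have hτt := hc'.log_lt gm
  set τ := Nat.log 2 (n s') with hτ
  set D1 := D.filter fun s => Disjoint (Qb s (n s)) (Qb s' (n s'))
  set D3 := D.filter fun s => ¬ Disjoint (Qb s (n s)) (Qb s' (n s')) ∧ ¬ Qb s (n s) ⊆ Qb s' (n s')
  set D5 := D.filter fun s => Qb s (n s) ⊆ Qb s' (n s') ∧ τ ≤ t s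
  set D6 := D.filter fun s => Qb s (n s) ⊆ Qb s' (n s') ∧ t s ≤ τ
  have hsub : D ⊆ D1 ∪ (D3 ∪ (D5 ∪ D6)) := by
    intro s hs
    simp only [D1, D3, D5, D6, mem_union, mem_filter, hs, true_and]
    have := le_total τ (t s)
    tauto
  have hcard : D.card ≤ D1.card + (D3.card + (D5.card + D6.card)) := by
    refine (card_le_card hsub).trans ((card_union_le _ _).trans ?_)
    gcongr
    refine (card_union_le _ _).trans ?_
    gcongr
    exact card_union_le _ _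
  have hcard' : (D.card : ℝ) ≤ D1.card + (D3.card + (D5.card + D6.card)) := by
    exact_mod_cast hcard
  have b1 := ih D1.card (card_lt_card (filter_ssubset.mpr ⟨s', hs', fun h =>
    disjoint_left.1 h (self_mem_Qb s' hn') (self_mem_Qb s' hn')⟩)) D1 (W \ Qb s' (n s')) ψ ψ0
    (fun s hs => by
      obtain ⟨h1, h2⟩ := mem_filter.mp hs
      exact ⟨(hD s h1).1, subset_sdiff.2 ⟨(hD s h1).2.1, h2⟩, (hD s h1).2.2⟩) rfl
  have b3 := edgeC (n := n) (t := t) hd gm hB hθ s' (n s') hn' D3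
    fun s hs => ⟨(hD s (mem_filter.mp hs).1).1, (mem_filter.mp hs).2.1, (mem_filter.mp hs).2.2,
      hmax s (mem_filter.mp hs).1⟩
  have b5 := localC (n := n) (t := t) gm hB τ (Qb s' (n s'))
    D5 fun s hs => ⟨(hD s (mem_filter.mp hs).1).1, (mem_filter.mp hs).2.1,
      Nat.log_mono_right (hmax s (mem_filter.mp hs).1), (mem_filter.mp hs).2.2⟩
  have b6 := ih D6.card (card_lt_card (filter_ssubset.mpr ⟨s', hs', fun h => by omega⟩)) D6
    (Qb s' (n s')) (fun k => g k τ) (fun k => g0 k τ) (fun s hs => by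
      obtain ⟨h1, h2, h4⟩ := mem_filter.mp hs
      exact ⟨(hD s h1).1, h2, (hD s h1).1.2.2.1.le.trans (SS_mono gm h4 _ _)⟩) rfl
  have p1 := sum_sdiff (f := ψ) hl'
  have b7 := mul_le_mul_of_nonneg_left hc'.2.1 hC
  have b8 := mul_le_mul_of_nonneg_left
    (show ∑ k ∈ W \ Qb s' (n s'), ψ k + (a + 2) * (n s' : ℝ) ^ d ≤ ∑ k ∈ W, ψ k by linarith) hC
  rw [card_Qb] at b5
  push_cast at b5
  unfold SS at b7
  linarith

end Pool.Agent.P.MP_05754a_lc.Cu
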