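import Pool.Agent.P.MP_05754a_lc.Tests

set_option autoImplicit false

namespace Pool.Agent.P.MP_05754a_lc

open MeasureTheory Finset Filter Topology

lemma cross_of_freq {Hi Lo : ℕ → Prop} (h1 : ∀ N, ∃ n, N ≤ n ∧ Hi n) (h2 : ∀ N, ∃ n, N ≤ n ∧ Lo n)
    (j : ℕ) : ∃ N, CrossSeq (fun n => n ≤ N ∧ Hi n) (fun n => n ≤ N ∧ Lo n) j := by
  choose u hu using h1
  choose v hv using h2
  let x : ℕ → ℕ := fun q => Nat.rec (u 0) (fun _ p => u (v (p + 1))) q
  have xs : ∀ q, x (q + 1) = u (v (x q + 1)) := fun _ => rfl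
  have hx : ∀ q, Hi (x q) := fun q => by
    cases q with
    | zero => exact (hu 0).2
    | succ q => rw [xs]; exact (hu _).2
  refine ⟨(range j).sup fun q => v (x q + 1), x, fun q => v (x q + 1), fun q hq => ?_⟩
  have := Finset.le_sup (f := fun q => v (x q + 1)) (mem_range.mpr hq)
  have h3 := (hv (x q + 1)).1
  exact ⟨h3, fun _ => by rw [xs]; exact (hu _).1, ⟨le_trans (by omega) this, hx q⟩, this, (hv _).2⟩

lemma sq_le_pow (e : ℕ) (he : 4 ≤ e) : e * e ≤ 2 ^ e := by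
  induction he with
  | refl => norm_num
  | @step m hm ih =>
    rw [Nat.succ_eq_add_one, pow_succ]
    have : 4 ≤ m := hm
    nlinarith

lemma log_small (A : ℕ) : ∃ N, ∀ n, N ≤ n → A * Nat.log 2 n ≤ n := by
  refine ⟨2 ^ (A + 4), fun n hn => ?_⟩
  have h0 : n ≠ 0 := by have := Nat.one_le_two_pow (n := A + 4); omega
  have h1 : A + 4 ≤ Nat.log 2 n := Nat.le_log_of_pow_le (by norm_num) hn
  have h2 := sq_le_pow _ (show 4 ≤ Nat.log 2 n by omega)
  have h3 := Nat.pow_log_le_self 2 h0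
  nlinarith

lemma exists_lower {f : (ℕ → Bool) → ℝ} (hf : LowerSemicomp f) :
    ∃ c : ℕ, ∀ ω, -(c : ℝ) < f ω := by
  obtain ⟨W, -, hU⟩ := hf
  have ho : ∀ c : ℕ, IsOpen {ω | -(c : ℝ) < f ω} := by
    intro c
    have := hU (-(c : ℤ), 0)
    simp only [Int.cast_neg, Int.cast_natCast, Nat.cast_zero, zero_add, div_one] at this
    rw [this]
    exact isOpen_biUnion fun x _ => isOpen_cylOf x
  obtain ⟨c, hc⟩ := isCompact_univ.elim_directed_cover _ ho (fun ω _ => by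
      obtain ⟨c, hc⟩ := exists_nat_gt (-f ω)
      exact Set.mem_iUnion.mpr ⟨c, by simp only [Set.mem_ofPred_eq]; linarith⟩)
    (Monotone.directed_le fun c c' h ω h' => by
      have : (c : ℝ) ≤ c' := by exact_mod_cast h
      simp only [Set.mem_ofPred_eq] at h' ⊢
      linarith)
  exact ⟨c, fun ω => hc (Set.mem_univ ω)⟩

theorem no_osc {P : Measure (ℕ → Bool)} [IsProbabilityMeasure P]
    (hstat : ∀ x, P (cylOf x) = P (cylOf (false :: x)) + P (cylOf (true :: x)))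
    {f : (ℕ → Bool) → ℝ} (hf : LowerSemicomp f) {ω : ℕ → Bool} (hω : MLRand P ω) {α β : ℝ}
    (hαβ : α < β) (hlo : ∃ᶠ n : ℕ in atTop, (∑ k ∈ range n, f (sh k ω)) / n < α)
    (hhi : ∃ᶠ n : ℕ in atTop, β < (∑ k ∈ range n, f (sh k ω)) / n) : False := by
  obtain ⟨c, hc⟩ := exists_lower hf
  obtain ⟨D, hD⟩ := exists_nat_ge (5 / (β - α))
  have hD0 : (0 : ℝ) < D + 1 := by positivity
  have hD5 : 5 ≤ (D + 1) * (β - α) := by
    rw [div_le_iff₀ (by linarith)] at hD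
    nlinarith
  obtain ⟨H, hH, Hm, Hle, Hge⟩ := approx hf D c hc
  rw [frequently_atTop] at hlo hhi
  set φ : ℕ → ℝ := fun k => (D + 1) * (f (sh k ω) + c) with hφ
  have sφ : ∀ n : ℕ, ∑ k ∈ range n, φ k = (D + 1) * (∑ k ∈ range n, f (sh k ω) + c * n) := by
    intro n
    simp only [hφ]
    rw [← mul_sum, sum_add_distrib, sum_const, card_range, nsmul_eq_mul, mul_comm (n : ℝ)]
  have hαc : 0 ≤ α + c := by
    obtain ⟨n, hn, h⟩ := hlo 1
    have hn' : (0 : ℝ) < n := by exact_mod_cast hn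
    rw [div_lt_iff₀ hn'] at h
    have : ∑ _k ∈ range n, -(c : ℝ) ≤ ∑ k ∈ range n, f (sh k ω) :=
      sum_le_sum fun k _ => (hc _).le
    rw [sum_const, card_range, nsmul_eq_mul] at this
    nlinarith
  set a : ℕ := ⌈(D + 1) * (α + c)⌉₊ with ha
  have a1 : (D + 1) * (α + c) ≤ a := Nat.le_ceil _
  have a2 : (a : ℝ) < (D + 1) * (α + c) + 1 := Nat.ceil_lt_add_one (by positivity)
  have Lo : ∀ N, ∃ n : ℕ, N ≤ n ∧ ∑ k ∈ range n, φ k < a * n := by
    intro N
    obtain ⟨n, hn, h⟩ := hlo (N + 1)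
    have hn' : (0 : ℝ) < n := by exact_mod_cast (by omega : 0 < n)
    rw [div_lt_iff₀ hn'] at h
    refine ⟨n, by omega, ?_⟩
    rw [sφ]
    nlinarith
  have Hi : ∀ N, ∃ n : ℕ, N ≤ n ∧ ((a : ℝ) + 3) * n < ∑ k ∈ range n, (φ k - 1) := by
    intro N
    obtain ⟨n, hn, h⟩ := hhi (N + 1)
    have hn' : (0 : ℝ) < n := by exact_mod_cast (by omega : 0 < n)
    rw [lt_div_iff₀ hn'] at h
    refine ⟨n, by omega, ?_⟩
    rw [sum_sub_distrib, sφ, sum_const, card_range, nsmul_eq_mul]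
    nlinarith
  have g0 : ∀ k t, 0 ≤ arr H ω k t := fun _ _ => Nat.cast_nonneg _
  have gm : ∀ k, Monotone (arr H ω k) := fun k t t' h => Nat.cast_le.mpr (Hm _ h)
  have gle : ∀ k t, arr H ω k t ≤ φ k := fun k t => Hle _ _
  have gge : ∀ N, ∃ t0, ∀ t, t0 ≤ t → ∀ n ≤ N,
      ∑ k ∈ range n, (φ k - 1) ≤ SS (arr H ω) t 0 n := by
    intro N
    choose T hT using fun k => Hge (sh k ω)
    refine ⟨(range N).sup T, fun t ht n hn => sum_le_sum fun k hk => ?_⟩
    have h1 := Finset.le_sup (f := T) (mem_range.mpr ((mem_range.mp hk).trans_le hn))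
    rw [zero_add]
    exact (hT k).trans (gm k (h1.trans ht))
  have diag : ∃ N, ∀ n, N ≤ n → ∑ k ∈ range n, arr H ω k (n - k) ≤ ((a : ℝ) + 1) * n := by
    by_contra hcon
    push Not at hcon
    refine test_diag hstat hH Hm a ω (fun j => ?_) hω
    obtain ⟨N, hN⟩ := cross_of_freq hcon
      (Lo := fun n => ∑ k ∈ range n, arr H ω k (n - k) < a * n) (fun N => by
        obtain ⟨n, h1, h2⟩ := Lo N
        exact ⟨n, h1, (sum_le_sum fun k _ => gle k _).trans_lt h2⟩) j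
    exact ⟨N, hN.mono (fun _ _ h => h.2) fun _ h => h⟩
  obtain ⟨N1, hN1⟩ := diag
  obtain ⟨N2, hN2⟩ := log_small (a + 1)
  have low : ∀ n, N1 ≤ n → N2 ≤ n → SS (arr H ω) (Nat.log 2 n) 0 n ≤ ((a : ℝ) + 2) * n := by
    intro n h1 h2
    have b1 := hN1 (n + Nat.log 2 n) (by omega)
    have b2 : ((a : ℝ) + 1) * Nat.log 2 n ≤ n := by exact_mod_cast hN2 n h2
    have b3 : SS (arr H ω) (Nat.log 2 n) 0 n
        ≤ ∑ k ∈ range n, arr H ω k (n + Nat.log 2 n - k) :=
      sum_le_sum fun k hk => by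
        rw [zero_add]; exact gm k (by have := mem_range.mp hk; omega)
    have b4 : ∑ k ∈ range n, arr H ω k (n + Nat.log 2 n - k)
        ≤ ∑ k ∈ range (n + Nat.log 2 n), arr H ω k (n + Nat.log 2 n - k) :=
      sum_le_sum_of_subset_of_nonneg (range_mono (by omega)) fun _ _ _ => g0 _ _
    push_cast at b1
    linarith
  refine test_catch hstat hH Hm a ω (fun j => ?_) hω
  obtain ⟨N, hN⟩ := cross_of_freq Hi Lo j
  obtain ⟨t0, ht0⟩ := gge N
  obtain ⟨n, hn, hhn⟩ := Hi (N + N1 + N2 + 2 ^ t0)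
  have hpos := Nat.one_le_two_pow (n := t0)
  have hlog : t0 ≤ Nat.log 2 n := Nat.le_log_of_pow_le (by norm_num) (by omega)
  obtain ⟨t, ht⟩ := gge n
  refine ⟨n, t, by omega, low n (by omega) (by omega), hhn.trans_le (ht t le_rfl n le_rfl), ?_⟩
  refine hN.mono (fun m _ h => h.2.trans_le (ht0 _ hlog m h.1)) fun m h => ⟨by omega, ?_⟩
  refine lt_of_le_of_lt (sum_le_sum fun k _ => ?_) h.2
  rw [zero_add]; exact gle _ _

theorem main (P : Measure (ℕ → Bool)) [IsProbabilityMeasure P]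
    (hstat : ∀ x, P (cylOf x) = P (cylOf (false :: x)) + P (cylOf (true :: x)))
    (f : (ℕ → Bool) → ℝ) (hf : LowerSemicomp f) (ω : ℕ → Bool) (hω : MLRand P ω) :
    (∃ L : ℝ, Tendsto (fun n : ℕ => (∑ k ∈ range n, f fun i => ω (i + k)) / n) atTop (𝓝 L)) ∨
      Tendsto (fun n : ℕ => (∑ k ∈ range n, f fun i => ω (i + k)) / n) atTop atTop := by
  set u : ℕ → ℝ := fun n => (∑ k ∈ range n, f fun i => ω (i + k)) / n with hu
  obtain ⟨c, hc⟩ := exists_lower hf
  have hlow : ∀ n, -(c : ℝ) ≤ u n := by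
    intro n
    rcases Nat.eq_zero_or_pos n with rfl | hn
    · simp [hu]
    · have hn' : (0 : ℝ) < n := by exact_mod_cast hn
      simp only [hu]
      rw [le_div_iff₀ hn']
      have : ∑ _k ∈ range n, -(c : ℝ) ≤ ∑ k ∈ range n, f fun i => ω (i + k) :=
        sum_le_sum fun k _ => (hc _).le
      rw [sum_const, card_range, nsmul_eq_mul] at this
      linarith
  by_cases htop : Tendsto u atTop atTop
  · exact Or.inr htop
  left
  rw [tendsto_atTop] at htop
  push Not at htop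
  obtain ⟨M, hM⟩ := htop
  have hup : ∀ᶠ n in atTop, u n ≤ M + 1 := by
    by_contra h
    rw [not_eventually] at h
    exact no_osc hstat hf hω (lt_add_one M) hM (h.mono fun n hn => not_le.mp hn)
  refine tendsto_of_no_upcrossings (s := Set.univ) dense_univ
    (fun α _ β _ hαβ h => no_osc hstat hf hω hαβ h.1 h.2) ⟨M + 1, hup⟩
    ⟨-c, eventually_map.mpr (Eventually.of_forall hlow)⟩

end Pool.Agent.P.MP_05754a_lc
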