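import Pool.Agent.P.MP_05754a_lc.Defs2
import Pool.Agent.P.MP_05754a_lc.Main

set_option autoImplicit false

namespace Pool.Agent.P.MP_05754a_lc

open MeasureTheory Pool.Agent.Lib.PrimrecProp Set

/-- the table of prefixes along the orbit -/
def orb (T : (ℕ → Bool) → ℕ → Bool) (ω : ℕ → Bool) (M : ℕ) : List (List Bool) :=
  (List.range M).map fun k => pre (T^[k] ω) M

lemma getD_map_range {γ : Type} (u : ℕ → γ) (d : γ) {M k : ℕ} (h : k < M) :
    ((List.range M).map u).getD k d = u k := by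
  simp [List.getD_eq_getElem?_getD, h]

lemma orb_get (T : (ℕ → Bool) → ℕ → Bool) (ω : ℕ → Bool) {M k t : ℕ} (hk : k < M) (ht : t ≤ M) :
    ((orb T ω M).getD k []).take t = pre (T^[k] ω) t := by
  rw [orb, getD_map_range _ _ hk, take_pre _ ht]

lemma measurableSet_orb {T : (ℕ → Bool) → ℕ → Bool} (hT : Measurable T)
    (Q : List (List Bool) → Prop) (M : ℕ) : MeasurableSet {ω | Q (orb T ω M)} := by
  set g : (ℕ → Bool) → Fin M → Fin M → Bool := fun ω k i => T^[k] ω i with hg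
  have hm : Measurable g := measurable_pi_lambda _ fun k => measurable_pi_lambda _ fun i =>
    (measurable_pi_apply _).comp (hT.iterate k)
  have e : {ω | Q (orb T ω M)} = g ⁻¹' (g '' {ω | Q (orb T ω M)}) := by
    refine (subset_preimage_image _ _).antisymm ?_
    rintro ω ⟨ω', h1, h2⟩
    have : orb T ω M = orb T ω' M := by
      refine List.map_congr_left fun k hk => List.map_congr_left fun i hi => ?_
      exact (congrFun (congrFun h2 ⟨k, List.mem_range.mp hk⟩) ⟨i, List.mem_range.mp hi⟩).symm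
    show Q (orb T ω M)
    rw [this]; exact h1
  rw [e]
  exact hm (Set.toFinite _).measurableSet

open Classical in
lemma transferT {T : (ℕ → Bool) → ℕ → Bool} {P : Measure (ℕ → Bool)} [IsProbabilityMeasure P]
    (hP : MeasurePreserving T P P) {S : Set (ℕ → Bool)} (hS : MeasurableSet S) (N : ℕ) (θ : ℝ)
    (h : ∀ z L, (((Finset.range L).filter fun s => T^[s] z ∈ S).card : ℝ) ≤ θ * (L + N)) :
    P.real S ≤ θ := by
  set p := P.real S with hp
  have key : ∀ L : ℕ, L * p ≤ θ * (L + N) := by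
    intro L
    have hm : ∀ s, MeasurableSet (T^[s] ⁻¹' S) := fun s => (hP.iterate s).measurable hS
    have hi : ∀ s ∈ Finset.range L,
        Integrable ((T^[s] ⁻¹' S).indicator (1 : (ℕ → Bool) → ℝ)) P := fun s _ =>
      (integrable_const (1 : ℝ)).indicator (hm s)
    have e : ∫ z, ∑ s ∈ Finset.range L,
        (T^[s] ⁻¹' S).indicator (1 : (ℕ → Bool) → ℝ) z ∂P = L * p := by
      rw [integral_finsetSum _ hi]
      have : ∀ s ∈ Finset.range L,
          ∫ z, (T^[s] ⁻¹' S).indicator (1 : (ℕ → Bool) → ℝ) z ∂P = p := by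
        intro s _
        rw [integral_indicator_one (hm s), hp, Measure.real, Measure.real,
          (hP.iterate s).measure_preimage hS.nullMeasurableSet]
      rw [Finset.sum_congr rfl this]; simp
    rw [← e]
    have h2 : ∫ z, ∑ s ∈ Finset.range L,
        (T^[s] ⁻¹' S).indicator (1 : (ℕ → Bool) → ℝ) z ∂P ≤ ∫ _z, θ * (L + N) ∂P := by
      refine integral_mono (integrable_finsetSum _ hi) (integrable_const _) fun z => ?_
      refine le_trans (le_of_eq ?_) (h z L)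
      rw [Finset.card_filter]
      push_cast
      refine Finset.sum_congr rfl fun s _ => ?_
      simp [Set.indicator_apply]
    simpa using h2
  by_contra hc
  have hd : 0 < p - θ := by linarith [not_le.mp hc]
  obtain ⟨L, hL⟩ := exists_nat_gt (θ * N / (p - θ))
  rw [div_lt_iff₀ hd] at hL
  have := key L
  nlinarith

/-- certificate that the strings `ys` are prefixes of consecutive orbit points -/
def cert (E : ℕ × List Bool × List Bool → Bool) (M s : ℕ) (ys : List (List Bool)) : Bool :=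
  (List.range M).all fun k => leb M (ys.getD k []).length &&
    (List.range ((ys.getD k []).length + 1)).any fun l =>
      E (s, ys.getD (k + 1) [], (ys.getD k []).take l)

def arrOf (M : ℕ) (ys : List (List Bool)) : List (List Bool) :=
  (List.range M).map fun k => (ys.getD k []).take M

section
variable {T : (ℕ → Bool) → ℕ → Bool} {D : Set (ℕ → Bool)} {E : ℕ × List Bool × List Bool → Bool}

lemma cert_sound (hE : ∀ ω ∈ D, ∀ x s l, E (s, x, pre ω l) = true → T ω ∈ cylOf x)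
    {ω : ℕ → Bool} (hω : ∀ k, T^[k] ω ∈ D) {M s L : ℕ} {ys : List (List Bool)}
    (h : cert E M s (pre ω L :: ys) = true) : arrOf M (pre ω L :: ys) = orb T ω M := by
  simp only [cert, List.all_eq_true, List.mem_range, Bool.and_eq_true, leb_iff,
    List.any_eq_true] at h
  have key : ∀ k ≤ M, T^[k] ω ∈ cylOf ((pre ω L :: ys).getD k []) := by
    intro k hk
    induction k with
    | zero => simp [mem_cylOf]
    | succ k ih =>
      obtain ⟨-, l, hl, h2⟩ := h k (by omega)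
      have h3 := mem_cylOf.mp (ih (by omega))
      rw [← h3, take_pre _ (by omega)] at h2
      rw [Function.iterate_succ_apply']
      exact hE _ (hω k) _ _ _ h2
  refine List.map_congr_left fun k hk => ?_
  have hk' := List.mem_range.mp hk
  rw [← mem_cylOf.mp (key k hk'.le), take_pre _ (h k hk').1]

lemma cert_complete (Em : ∀ t t' a, t ≤ t' → E (t, a) = true → E (t', a) = true)
    (hE : ∀ ω ∈ D, ∀ x, T ω ∈ cylOf x → ∃ s l, E (s, x, pre ω l) = true)
    {ω : ℕ → Bool} (hω : ∀ k, T^[k] ω ∈ D) (M : ℕ) :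
    ∃ s L ys, cert E M s (pre ω L :: ys) = true := by
  have key : ∀ m (ω : ℕ → Bool), (∀ k, T^[k] ω ∈ D) → ∃ (s : ℕ) (L : ℕ → ℕ), ∀ k < m, M ≤ L k ∧
      ∃ l ≤ L k, E (s, pre (T^[k + 1] ω) (L (k + 1)), pre (T^[k] ω) l) = true := by
    intro m
    induction m with
    | zero => exact fun _ _ => ⟨0, fun _ => 0, fun k hk => absurd hk (by omega)⟩
    | succ m ih =>
      intro ω hω
      obtain ⟨s, L, hL⟩ := ih (T ω) fun k => hω (k + 1)
      obtain ⟨s', l, hl⟩ := hE ω (hω 0) (pre (T ω) (L 0)) (by simp [mem_cylOf])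
      refine ⟨max s s', fun k => Nat.casesOn k (max M l) L, fun k hk => ?_⟩
      cases k with
      | zero => exact ⟨le_max_left _ _, l, le_max_right _ _, Em _ _ _ (le_max_right _ _) hl⟩
      | succ k =>
        obtain ⟨h1, l', h2, h3⟩ := hL k (by omega)
        exact ⟨h1, l', h2, Em _ _ _ (le_max_left _ _) h3⟩
  obtain ⟨s, L, hL⟩ := key M ω hω
  refine ⟨s, L 0, (List.range M).map fun k => pre (T^[k + 1] ω) (L (k + 1)), ?_⟩
  have e : ∀ k ≤ M, (pre ω (L 0) :: (List.range M).map fun k =>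
      pre (T^[k + 1] ω) (L (k + 1))).getD k [] = pre (T^[k] ω) (L k) := by
    intro k hk
    cases k with
    | zero => rfl
    | succ k => rw [List.getD_cons_succ, getD_map_range _ _ (by omega)]
  simp only [cert, List.all_eq_true, List.mem_range, Bool.and_eq_true, leb_iff,
    List.any_eq_true]
  intro k hk
  obtain ⟨h1, l, h2, h3⟩ := hL k hk
  rw [e k hk.le, e (k + 1) hk, length_pre]
  exact ⟨h1, l, by omega, by rw [take_pre _ h2]; exact h3⟩

end

@[fun_prop] lemma p_unpair {α : Type} [Primcodable α] {f : α → ℕ} (hf : Primrec f) :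
    Primrec fun a => Nat.unpair (f a) := Primrec.unpair.comp hf

theorem class_test {β : Type} [Primcodable β] [Inhabited β] {T : (ℕ → Bool) → ℕ → Bool}
    {D : Set (ℕ → Bool)} (hT : EffOpenOn D fun x : List Bool => T ⁻¹' cylOf x)
    (R : ℕ × ℕ × (ℕ × β) × List (List Bool) → Bool) (hR : Primrec R) (K : ℕ → ℕ) (hK : Primrec K)
    (Y : ℕ → ℕ → ℕ → (ℕ → Bool) → Prop)
    (hY : ∀ i j N ω, Y i j N ω ↔ ∃ w, R (i, j, (N, w), orb T ω (2 * N)) = true)
    (hN : ∀ i j N N' ω, N ≤ N' → Y i j N ω → Y i j N' ω) :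
    ∃ U : ℕ → Set (ℕ → Bool), EffOpenFam U ∧ Antitone U ∧
      (∀ (P : Measure (ℕ → Bool)) [IsProbabilityMeasure P], (∀ᵐ ω ∂P, ∀ k, T^[k] ω ∈ D) →
        (∀ i j N, 0 < j → P.real {ω | Y i j N ω} ≤ K i / j) → ∀ m, P (U m) ≤ 2⁻¹ ^ m) ∧
      ∀ ω, (∀ k, T^[k] ω ∈ D) → (∃ i, ∀ j, ∃ N, Y i j N ω) → ω ∈ ⋂ m, U m := by
  obtain ⟨V, ⟨W, hW, hV⟩, hTV⟩ := hT
  obtain ⟨E, hE, Em, hEW⟩ := stages hW
  have key : ∀ ω ∈ D, ∀ x, T ω ∈ cylOf x ↔ ∃ s l, E (s, x, pre ω l) = true := by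
    intro ω hω x
    have h1 := Set.ext_iff.mp (hTV x) ω
    simp only [mem_inter_iff, hω, true_and, mem_preimage, hV, mem_iUnion, mem_ofPred_eq,
      exists_prop] at h1
    rw [h1]
    constructor
    · rintro ⟨y, h2, h3⟩
      obtain ⟨s, hs⟩ := (hEW _).mp h2
      exact ⟨s, y.length, by rw [mem_cylOf.mp h3]; exact hs⟩
    · rintro ⟨s, l, h⟩
      exact ⟨_, (hEW _).mpr ⟨s, h⟩, by simp [mem_cylOf]⟩
  set R' : ℕ × (ℕ × (ℕ × β) × ℕ × List (List Bool) × ℕ) × List Bool → Bool := fun p =>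
    leb p.1 p.2.1.1 && cert E (2 * p.2.1.2.1.1) p.2.1.2.2.1 (p.2.2 :: p.2.1.2.2.2.1) &&
      R (p.2.1.1.unpair.1, (K p.2.1.1.unpair.1 + 1) * 2 ^ (p.2.1.1 + 1), p.2.1.2.1,
        arrOf (2 * p.2.1.2.1.1) (p.2.2 :: p.2.1.2.2.2.1)) with hR'
  refine ⟨fun m => {ω | ∃ w, R' (m, w, pre ω w.2.2.2.2) = true},
    effOpen_of R' (by simp only [hR']; unfold cert arrOf; fun_prop) (fun p => p.2.2.2.2.2)
      (by fun_prop), ?_, ?_, ?_⟩
  · rintro m m' hm ω ⟨w, h⟩
    refine ⟨w, ?_⟩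
    simp only [hR', Bool.and_eq_true, leb_iff] at h ⊢
    exact ⟨⟨hm.trans h.1.1, h.1.2⟩, h.2⟩
  · intro P _ hD hP m
    set Z : ℕ → Set (ℕ → Bool) := fun n =>
      ⋃ N, {ω | Y n.unpair.1 ((K n.unpair.1 + 1) * 2 ^ (n + 1)) N ω} with hZ
    have hZm : ∀ n, P (Z n) ≤ 2⁻¹ ^ (n + 1) := by
      intro n
      have hmono : Monotone fun N => {ω | Y n.unpair.1 ((K n.unpair.1 + 1) * 2 ^ (n + 1)) N ω} :=
        fun N N' h ω h' => hN _ _ _ _ _ h h'
      simp only [hZ]
      rw [hmono.measure_iUnion]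
      refine iSup_le fun N => ?_
      have h1 := hP n.unpair.1 ((K n.unpair.1 + 1) * 2 ^ (n + 1)) N (by positivity)
      have h2 : (K n.unpair.1 : ℝ) / (((K n.unpair.1 + 1) * 2 ^ (n + 1) : ℕ) : ℝ)
          ≤ 2⁻¹ ^ (n + 1) := by
        rw [div_le_iff₀ (by positivity)]
        push_cast
        rw [mul_left_comm, ← mul_pow]
        norm_num
      rw [← ofReal_measureReal (measure_ne_top P _)]
      refine (ENNReal.ofReal_le_ofReal (h1.trans h2)).trans (le_of_eq ?_)
      rw [ENNReal.ofReal_pow (by norm_num), ENNReal.ofReal_inv_of_pos (by norm_num)]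
      simp
    have hsub : {ω | ∃ w, R' (m, w, pre ω w.2.2.2.2) = true} ≤ᵐ[P] ⋃ e, Z (m + e) := by
      filter_upwards [hD] with ω hω
      rintro ⟨⟨n, ⟨N, w⟩, s, ys, L⟩, h⟩
      simp only [hR', Bool.and_eq_true, leb_iff] at h
      obtain ⟨⟨h1, h2⟩, h3⟩ := h
      rw [cert_sound (fun ω hω x s l h => (key ω hω x).mpr ⟨s, l, h⟩) hω h2] at h3
      obtain ⟨e, rfl⟩ := Nat.exists_eq_add_of_le h1
      exact mem_iUnion.mpr ⟨e, mem_iUnion.mpr ⟨N, (hY _ _ _ _).mpr ⟨w, h3⟩⟩⟩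
    refine (measure_mono_ae hsub).trans ((measure_iUnion_le _).trans
      ((ENNReal.tsum_le_tsum fun e => hZm (m + e)).trans (le_of_eq ?_)))
    have : ∀ e, (2⁻¹ : ENNReal) ^ (m + e + 1) = 2⁻¹ ^ m * 2⁻¹ * 2⁻¹ ^ e := fun e => by ring
    simp only [this]
    rw [ENNReal.tsum_mul_left, ENNReal.tsum_geometric, ENNReal.one_sub_inv_two, inv_inv,
      mul_assoc, ENNReal.inv_mul_cancel (by norm_num) (by norm_num), mul_one]
  · rintro ω hω ⟨i, hi⟩
    refine mem_iInter.mpr fun m => ?_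
    obtain ⟨N, h⟩ := hi ((K i + 1) * 2 ^ (Nat.pair i m + 1))
    obtain ⟨w, hw⟩ := (hY _ _ _ _).mp h
    obtain ⟨s, L, ys, hc⟩ := cert_complete Em (fun ω hω x h => (key ω hω x).mp h) hω (2 * N)
    refine ⟨(Nat.pair i m, (N, w), s, ys, L), ?_⟩
    simp only [hR', Bool.and_eq_true, leb_iff, Nat.unpair_pair]
    rw [cert_sound (fun ω hω x s l h => (key ω hω x).mpr ⟨s, l, h⟩) hω hc]
    exact ⟨⟨Nat.right_le_pair _ _, hc⟩, hw⟩

end Pool.Agent.P.MP_05754a_lc
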