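import Pool.Agent.P.MP_05754a_lc.CuA
import Pool.Agent.P.MP_05754a_lc.Orb

/-! Tables of prefixes along an orbit of `ℕ^d`, and the transfer to invariant measures. -/

set_option autoImplicit false

namespace Pool.Agent.P.MP_05754a_lc.Cu

open MeasureTheory Pool.Agent.Lib.PrimrecProp Finset

variable {d : ℕ}

/-- the digits of `e` in base `M` -/
def dig (d M e : ℕ) : Fin d → ℕ := fun i => e / M ^ (i : ℕ) % M

/-- the table of prefixes over the cube of side `M` -/
def tab (T : (Fin d → ℕ) → (ℕ → Bool) → ℕ → Bool) (ω : ℕ → Bool) (M : ℕ) : List (List Bool) :=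
  (List.range (M ^ d)).map fun e => pre (T (dig d M e) ω) M

/-- the array of approximations along the orbit -/
noncomputable def arr (H : ℕ × List Bool → ℕ) (T : (Fin d → ℕ) → (ℕ → Bool) → ℕ → Bool)
    (ω : ℕ → Bool) (k : Fin d → ℕ) (t : ℕ) : ℝ := H (t, pre (T k ω) t)

/-- the cube sum read off a table -/
def cS (d : ℕ) (H : ℕ × List Bool → ℕ) (A : List (List Bool)) (M t n : ℕ) : ℕ :=
  lsum ((List.range (M ^ d)).map fun e =>
    cond ((List.range d).all fun i => leb (e / M ^ i % M + 1) n) (H (t, (A.getD e []).take t)) 0)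

variable {T : (Fin d → ℕ) → (ℕ → Bool) → ℕ → Bool} {H : ℕ × List Bool → ℕ}

lemma cud_val {M : ℕ} (e : Fin (M ^ d)) (i : Fin d) :
    (finFunctionFinEquiv.symm e i : ℕ) = dig d M e i := rfl

lemma cud_inj {M e e' : ℕ} (he : e < M ^ d) (he' : e' < M ^ d) (h : dig d M e = dig d M e') :
    e = e' :=
  congrArg Fin.val (finFunctionFinEquiv.symm.injective (a₁ := ⟨e, he⟩) (a₂ := ⟨e', he'⟩)
    (funext fun i => Fin.ext (congrFun h i)))

lemma cud_surj {M : ℕ} {k : Fin d → ℕ} (h : ∀ i, k i < M) : ∃ e < M ^ d, dig d M e = k :=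
  ⟨_, (finFunctionFinEquiv fun i => (⟨k i, h i⟩ : Fin M)).2, funext fun i => by
    rw [← cud_val, Equiv.symm_apply_apply]⟩

lemma cud_all {M e n : ℕ} :
    ((List.range d).all fun i => leb (e / M ^ i % M + 1) n) = true ↔ dig d M e ∈ Qb 0 n := by
  simp only [List.all_eq_true, List.mem_range, leb_iff, mem_Qb, Pi.zero_apply, zero_add,
    Nat.zero_le, true_and]
  exact ⟨fun h i => h i i.2, fun h i hi => h ⟨i, hi⟩⟩

lemma cS_eq (ω : ℕ → Bool) {M t n : ℕ} (hn : n ≤ M) (ht : t ≤ M) :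
    (cS d H (tab T ω M) M t n : ℝ) = SS (arr H T ω) t 0 n := by
  have e1 : ∀ e ∈ range (M ^ d), (cond ((List.range d).all fun i => leb (e / M ^ i % M + 1) n)
      (H (t, ((tab T ω M).getD e []).take t)) 0) =
      if dig d M e ∈ Qb 0 n then H (t, pre (T (dig d M e) ω) t) else 0 := fun e he => by
    rw [tab, getD_map_range _ _ (mem_range.1 he), take_pre _ ht]
    by_cases h : dig d M e ∈ Qb 0 n
    · rw [cud_all.2 h, if_pos h, cond_true]
    · rw [Bool.eq_false_iff.2 (mt cud_all.1 h), if_neg h, cond_false]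
  rw [cS, lsum_range, sum_congr rfl e1, ← sum_filter, Nat.cast_sum, SS]
  refine sum_bij (fun e _ => dig d M e) (fun e he => (mem_filter.1 he).2)
    (fun e he e' he' =>
      cud_inj (mem_range.1 (mem_filter.1 he).1) (mem_range.1 (mem_filter.1 he').1))
    (fun k hk => ?_) fun _ _ => rfl
  obtain ⟨e, he, rfl⟩ := cud_surj (M := M) (k := k) fun i => by
    have := (mem_Qb.1 hk i).2
    rw [Pi.zero_apply] at this
    omega
  exact ⟨e, mem_filter.2 ⟨mem_range.2 he, hk⟩, rfl⟩

@[fun_prop] lemma cud_div {α : Type} [Primcodable α] {f g : α → ℕ} (hf : Primrec f)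
    (hg : Primrec g) : Primrec fun a => f a / g a := Primrec.nat_div.comp hf hg

@[fun_prop] lemma cud_mod {α : Type} [Primcodable α] {f g : α → ℕ} (hf : Primrec f)
    (hg : Primrec g) : Primrec fun a => f a % g a := Primrec.nat_mod.comp hf hg

@[fun_prop] lemma cud_dig {α : Type} [Primcodable α] {f g : α → ℕ} (hf : Primrec f)
    (hg : Primrec g) : Primrec fun a => dig d (f a) (g a) :=
  Primrec.fin_curry.2 (Primrec.fin_curry₁.2 fun i => by
    show Primrec fun a => g a / f a ^ (i : ℕ) % f a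
    fun_prop).swap

@[fun_prop] lemma p_cS {α : Type} [Primcodable α] (hH : Primrec H) {f1 : α → List (List Bool)}
    {f2 f3 f4 : α → ℕ} (h1 : Primrec f1) (h2 : Primrec f2) (h3 : Primrec f3) (h4 : Primrec f4) :
    Primrec fun a => cS d H (f1 a) (f2 a) (f3 a) (f4 a) := by
  unfold cS
  fun_prop

theorem table_open {ι β : Type} [Primcodable ι] [Primcodable β] [Inhabited β]
    (hT : EffOpenFam fun p : (Fin d → ℕ) × List Bool => T p.1 ⁻¹' cylOf p.2)
    (R : ι × β × List (List Bool) → Bool) (hR : Primrec R) (M : ι × β → ℕ) (hM : Primrec M) :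
    EffOpenFam fun i => {ω | ∃ w, R (i, w, tab T ω (M (i, w))) = true} := by
  obtain ⟨W, hW, hV⟩ := hT
  obtain ⟨E, hE, Em, hEW⟩ := stages hW
  have key : ∀ ω k x, T k ω ∈ cylOf x ↔ ∃ s l, E (s, (k, x), pre ω l) = true := by
    intro ω k x
    have h1 := Set.ext_iff.mp (hV (k, x)) ω
    simp only [Set.mem_preimage, Set.mem_iUnion, Set.mem_ofPred_eq, exists_prop] at h1
    rw [h1]
    constructor
    · rintro ⟨y, h2, h3⟩
      obtain ⟨s, hs⟩ := (hEW _).mp h2
      exact ⟨s, y.length, by rw [mem_cylOf.mp h3]; exact hs⟩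
    · rintro ⟨s, l, h⟩
      exact ⟨_, (hEW _).mpr ⟨s, h⟩, by simp [mem_cylOf]⟩
  set R' : ι × (β × List (List Bool) × ℕ) × List Bool → Bool := fun p =>
    ((List.range (M (p.1, p.2.1.1) ^ d)).all fun e =>
      eqb (p.2.1.2.1.getD e []).length (M (p.1, p.2.1.1)) &&
        (List.range (p.2.1.2.2 + 1)).any fun l => E (p.2.1.2.2,
          (dig d (M (p.1, p.2.1.1)) e, p.2.1.2.1.getD e []), p.2.2.take l)) &&
      R (p.1, p.2.1.1, (List.range (M (p.1, p.2.1.1) ^ d)).map fun e => p.2.1.2.1.getD e [])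
    with hR'
  obtain ⟨W', h1, h2⟩ := effOpen_of R' (by simp only [hR']; fun_prop) (fun p => p.2.2.2)
    (by fun_prop)
  refine ⟨W', h1, fun i => Eq.trans (Set.ext fun ω => ?_) (h2 i)⟩
  simp only [hR', Set.mem_ofPred_eq, Bool.and_eq_true, List.all_eq_true, List.mem_range, eqb_iff,
    List.any_eq_true]
  constructor
  · rintro ⟨w, hw⟩
    choose s l hsl using fun e => (key ω (dig d (M (i, w)) e)
      (pre (T (dig d (M (i, w)) e) ω) (M (i, w)))).1 (by simp [mem_cylOf])
    have h3 : ∀ e < M (i, w) ^ d, max (s e) (l e) ≤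
        (range (M (i, w) ^ d)).sup fun e => max (s e) (l e) := fun e he =>
      le_sup (f := fun e => max (s e) (l e)) (mem_range.2 he)
    have h4 : ∀ e < M (i, w) ^ d, (tab T ω (M (i, w))).getD e [] =
        pre (T (dig d (M (i, w)) e) ω) (M (i, w)) := fun e he => getD_map_range _ _ he
    refine ⟨(w, tab T ω (M (i, w)), (range (M (i, w) ^ d)).sup fun e => max (s e) (l e)),
      fun e he => ?_, ?_⟩
    · have h5 := max_le_iff.1 (h3 e he)
      rw [h4 e he, length_pre]
      exact ⟨rfl, l e, Nat.lt_succ_of_le h5.2, by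
        rw [take_pre _ h5.2]; exact Em _ _ _ h5.1 (hsl e)⟩
    · rw [List.map_congr_left fun e he => h4 e (List.mem_range.1 he)]
      exact hw
  · rintro ⟨⟨w, A, s⟩, h3, h4⟩
    refine ⟨w, ?_⟩
    rw [List.map_congr_left (g := fun e => pre (T (dig d (M (i, w)) e) ω) (M (i, w)))] at h4
    · exact h4
    · intro e he
      obtain ⟨h5, l, hl, h6⟩ := h3 e (List.mem_range.1 he)
      rw [take_pre _ (Nat.le_of_lt_succ hl)] at h6
      have h7 := mem_cylOf.1 ((key ω _ _).2 ⟨s, l, h6⟩)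
      rw [h5] at h7
      exact h7.symm

lemma measurable_of_eff {ι : Type} [Primcodable ι] {U : ι → Set (ℕ → Bool)} (h : EffOpenFam U)
    (i : ι) : MeasurableSet (U i) := by
  obtain ⟨W, -, h⟩ := h
  rw [h i]
  exact MeasurableSet.biUnion (Set.to_countable _) fun x _ => measurableSet_cylOf x

open Classical in
theorem transfer {P : Measure (ℕ → Bool)} [IsProbabilityMeasure P]
    (hP : ∀ k, MeasurePreserving (T k) P P) {S : Set (ℕ → Bool)} (hS : MeasurableSet S) (N : ℕ)
    (θ : ℝ) (h : ∀ z L, (((Qb (0 : Fin d → ℕ) L).filter fun s => T s z ∈ S).card : ℝ) ≤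
      θ * ((L : ℝ) + N) ^ d) : P.real S ≤ θ := by
  have key : ∀ L : ℕ, (L : ℝ) ^ d * P.real S ≤ θ * ((L : ℝ) + N) ^ d := by
    intro L
    have hm : ∀ s, MeasurableSet (T s ⁻¹' S) := fun s => (hP s).measurable hS
    have hi : ∀ s ∈ Qb (0 : Fin d → ℕ) L,
        Integrable ((T s ⁻¹' S).indicator (1 : (ℕ → Bool) → ℝ)) P := fun s _ =>
      (integrable_const (1 : ℝ)).indicator (hm s)
    have e : ∫ z, ∑ s ∈ Qb (0 : Fin d → ℕ) L,
        (T s ⁻¹' S).indicator (1 : (ℕ → Bool) → ℝ) z ∂P = (L : ℝ) ^ d * P.real S := by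
      rw [integral_finsetSum _ hi]
      have : ∀ s ∈ Qb (0 : Fin d → ℕ) L,
          ∫ z, (T s ⁻¹' S).indicator (1 : (ℕ → Bool) → ℝ) z ∂P = P.real S := by
        intro s _
        rw [integral_indicator_one (hm s), Measure.real, Measure.real,
          (hP s).measure_preimage hS.nullMeasurableSet]
      rw [sum_congr rfl this, sum_const, card_Qb, nsmul_eq_mul, Nat.cast_pow]
    rw [← e]
    have h2 : ∫ z, ∑ s ∈ Qb (0 : Fin d → ℕ) L,
        (T s ⁻¹' S).indicator (1 : (ℕ → Bool) → ℝ) z ∂P ≤ ∫ _z, θ * ((L : ℝ) + N) ^ d ∂P := by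
      refine integral_mono (integrable_finsetSum _ hi) (integrable_const _) fun z => ?_
      refine le_trans (le_of_eq ?_) (h z L)
      rw [card_filter]
      push_cast
      refine sum_congr rfl fun s _ => ?_
      simp [Set.indicator_apply]
    simpa using h2
  have h1 : Filter.Tendsto (fun L : ℕ => θ * (1 + (N : ℝ) / L) ^ d) Filter.atTop
      (nhds (θ * (1 + 0) ^ d)) :=
    (((tendsto_const_div_atTop_nhds_zero_nat (N : ℝ)).const_add 1).pow d).const_mul θ
  rw [add_zero, one_pow, mul_one] at h1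
  refine ge_of_tendsto h1 ((Filter.eventually_gt_atTop 0).mono fun L hL => ?_)
  have h2 : (0 : ℝ) < L := by exact_mod_cast hL
  have h3 : 1 + (N : ℝ) / L = (L + N) / L := by field_simp
  rw [h3, div_pow, ← mul_div_assoc, le_div_iff₀ (pow_pos h2 d), mul_comm]
  exact key L

end Pool.Agent.P.MP_05754a_lc.Cu
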