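import Pool.Agent.P.MP_05754a_lc.CuB
import Pool.Agent.P.MP_05754a_lc.CuC
import Pool.Agent.P.MP_05754a_lc.CuD

/-! The two tests for cube averages. -/

set_option autoImplicit false

namespace Pool.Agent.P.MP_05754a_lc.Cu

open MeasureTheory Pool.Agent.Lib.PrimrecProp Finset

variable {d : ℕ}

/-- many crossings of the diagonal sums -/
def Y1 (g : (Fin d → ℕ) → ℕ → ℝ) (a : ℝ) (j N : ℕ) (s : Fin d → ℕ) : Prop :=
  CrossSeq (fun n => (a + 1) * (n : ℝ) ^ d < SS g n s n)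
    (fun n => n ≤ N ∧ SS g n s n < a * (n : ℝ) ^ d) j

/-- the point is caught -/
def Y2 (g : (Fin d → ℕ) → ℕ → ℝ) (a : ℝ) (j N : ℕ) (s : Fin d → ℕ) : Prop :=
  ∃ n t, n ≤ N ∧ t ≤ N ∧ Caught g a j s n t

/-- the check of `Y1` on a table -/
def R1 (d : ℕ) (H : ℕ × List Bool → ℕ) (a j N : ℕ) (w : ℕ × ℕ × ℕ × List ℕ × List ℕ)
    (A : List (List Bool)) : Bool :=
  chk (fun n => leb ((a + 1) * n ^ d + 1) (cS d H A N n n))
    (fun n => leb n N && leb (cS d H A N n n + 1) (a * n ^ d)) j w.2.2.2.1 w.2.2.2.2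

/-- the check of `Y2` on a table -/
def R2 (d : ℕ) (H : ℕ × List Bool → ℕ) (a j N : ℕ) (w : ℕ × ℕ × ℕ × List ℕ × List ℕ)
    (A : List (List Bool)) : Bool :=
  leb w.1 N && leb w.2.1 N && leb (2 ^ w.2.2.1) w.1 && leb (w.1 + 1) (2 ^ (w.2.2.1 + 1)) &&
    leb (cS d H A N w.2.2.1 w.1) ((a + 1) * w.1 ^ d) &&
    leb ((a + 2) * w.1 ^ d + 1) (cS d H A N w.2.1 w.1) &&
    chk (fun m => leb ((a + 1) * m ^ d + 1) (cS d H A N w.2.2.1 m))
      (fun m => leb m w.1 && leb (cS d H A N w.2.1 m + 1) (a * m ^ d)) j w.2.2.2.1 w.2.2.2.2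

variable {T : (Fin d → ℕ) → (ℕ → Bool) → ℕ → Bool} {H : ℕ × List Bool → ℕ}

lemma Y1_iff (a j N : ℕ) (ω : ℕ → Bool) :
    Y1 (arr H T ω) a j N 0 ↔ ∃ w, R1 d H a j N w (tab T ω N) = true := by
  simp only [R1, Prod.exists, exists_const, chk_iff, Y1, leb_iff, Bool.and_eq_true]
  constructor
  · intro h
    refine h.mono (fun n ⟨m, h1, h2, _⟩ h3 => ?_) fun n ⟨h1, h2⟩ => ⟨h1, ?_⟩
    · rw [← cS_eq ω (show n ≤ N by omega) (show n ≤ N by omega)] at h3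
      exact_mod_cast h3
    · rw [← cS_eq ω h1 h1] at h2
      exact_mod_cast h2
  · intro h
    refine h.mono (fun n ⟨m, h1, h2, _⟩ h3 => ?_) fun n ⟨h1, h2⟩ => ⟨h1, ?_⟩
    · rw [← cS_eq ω (show n ≤ N by omega) (show n ≤ N by omega)]
      exact_mod_cast h3
    · rw [← cS_eq ω h1 h1]
      exact_mod_cast h2

lemma Y2_iff (a j N : ℕ) (ω : ℕ → Bool) :
    Y2 (arr H T ω) a j N 0 ↔ ∃ w, R2 d H a j N w (tab T ω N) = true := by
  simp only [R2, Prod.exists, Y2, leb_iff, Bool.and_eq_true, exists_and_left, chk_iff]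
  constructor
  · rintro ⟨n, hn, t, ht, h1, h2, h3, h4⟩
    have hl := Nat.log_le_self 2 n
    refine ⟨n, t, Nat.log 2 n, ⟨⟨⟨⟨⟨hn, ht⟩, Nat.pow_log_le_self 2 (by omega)⟩,
      Nat.lt_pow_succ_log_self (by norm_num) n⟩, ?_⟩, ?_⟩, ?_⟩
    · rw [← cS_eq ω hn (show Nat.log 2 n ≤ N by omega)] at h2
      exact_mod_cast h2
    · rw [← cS_eq ω hn ht] at h3
      exact_mod_cast h3
    · refine h4.mono (fun m ⟨m', h5, h6, _⟩ h7 => ?_) fun m ⟨h5, h6⟩ => ⟨h5, ?_⟩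
      · rw [← cS_eq ω (show m ≤ N by omega) (show Nat.log 2 n ≤ N by omega)] at h7
        exact_mod_cast h7
      · rw [← cS_eq ω (show m ≤ N by omega) ht] at h6
        exact_mod_cast h6
  · rintro ⟨n, t, e, ⟨⟨⟨⟨⟨hn, ht⟩, h1⟩, h2⟩, h3⟩, h4⟩, h5⟩
    obtain rfl : Nat.log 2 n = e := Nat.log_eq_of_pow_le_of_lt_pow h1 h2
    have hl := Nat.log_le_self 2 n
    refine ⟨n, hn, t, ht, le_trans Nat.one_le_two_pow h1, ?_, ?_, ?_⟩
    · rw [← cS_eq ω hn (show Nat.log 2 n ≤ N by omega)]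
      exact_mod_cast h3
    · rw [← cS_eq ω hn ht]
      exact_mod_cast h4
    · refine h5.mono (fun m ⟨m', h5, h6, _⟩ h7 => ?_) fun m ⟨h5, h6⟩ => ⟨h5, ?_⟩
      · rw [← cS_eq ω (show m ≤ N by omega) (show Nat.log 2 n ≤ N by omega)]
        exact_mod_cast h7
      · rw [← cS_eq ω (show m ≤ N by omega) ht]
        exact_mod_cast h6

lemma SS_act (hadd : ∀ k l ω, T (k + l) ω = T k (T l ω)) (z : ℕ → Bool) (s : Fin d → ℕ)
    (t n : ℕ) : SS (arr H T (T s z)) t 0 n = SS (arr H T z) t s n := by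
  refine sum_nbij' (fun k => k + s) (fun k => k - s) (fun k hk => ?_) (fun k hk => ?_)
    (fun k _ => ?_) (fun k hk => ?_) fun k _ => ?_
  · refine mem_Qb.2 fun i => ?_
    have := mem_Qb.1 hk i
    simp only [Pi.add_apply, Pi.zero_apply] at this ⊢
    omega
  · refine mem_Qb.2 fun i => ?_
    have := mem_Qb.1 hk i
    simp only [Pi.sub_apply, Pi.zero_apply] at this ⊢
    omega
  · funext i
    simp
  · funext i
    have := mem_Qb.1 hk i
    simp only [Pi.sub_apply, Pi.add_apply]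
    omega
  · simp only [arr, hadd]

lemma SS_zero (hd : 1 ≤ d) (g : (Fin d → ℕ) → ℕ → ℝ) (t : ℕ) (s : Fin d → ℕ) : SS g t s 0 ≤ 0 := by
  have : Qb s 0 = ∅ := card_eq_zero.1 (by rw [card_Qb, zero_pow (by omega)])
  simp [SS, this]

lemma Qb_sub {s : Fin d → ℕ} {L N n : ℕ} (hs : s ∈ Qb 0 L) (hn : n ≤ N) :
    Qb s n ⊆ Qb 0 (L + N) := fun k hk => mem_Qb.2 fun i => by
  have h1 := mem_Qb.1 hs i
  have h2 := mem_Qb.1 hk i
  simp only [Pi.zero_apply] at h1 ⊢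
  omega

lemma Y1.mono {g : (Fin d → ℕ) → ℕ → ℝ} {a : ℝ} {j j' N N' : ℕ} {s : Fin d → ℕ}
    (h : Y1 g a j N s) (hj : j' ≤ j) (hN : N ≤ N') : Y1 g a j' N' s :=
  (CrossSeq.anti h hj).mono (fun _ _ h => h) fun _ h2 => ⟨h2.1.trans hN, h2.2⟩

lemma Y2.mono {g : (Fin d → ℕ) → ℕ → ℝ} {a : ℝ} {j j' N N' : ℕ} {s : Fin d → ℕ}
    (h : Y2 g a j N s) (hj : j' ≤ j) (hN : N ≤ N') : Y2 g a j' N' s := by
  obtain ⟨n, t, h1, h2, h3, h4, h5, h6⟩ := h
  exact ⟨n, t, h1.trans hN, h2.trans hN, h3, h4, h5, h6.anti hj⟩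

lemma p_R1 (hH : Primrec H) (a : ℕ) :
    Primrec fun p : (ℕ × ℕ) × (ℕ × ℕ × ℕ × List ℕ × List ℕ) × List (List Bool) =>
      R1 d H a p.1.1 p.1.2 p.2.1 p.2.2 := by
  unfold R1 chk
  fun_prop

lemma p_R2 (hH : Primrec H) (a : ℕ) :
    Primrec fun p : (ℕ × ℕ) × (ℕ × ℕ × ℕ × List ℕ × List ℕ) × List (List Bool) =>
      R2 d H a p.1.1 p.1.2 p.2.1 p.2.2 := by
  unfold R2 chk
  fun_prop

variable {P : Measure (ℕ → Bool)}

open Classical in
lemma bound_Y1 [IsProbabilityMeasure P] (hd : 1 ≤ d) (hadd : ∀ k l ω, T (k + l) ω = T k (T l ω))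
    (hP : ∀ k, MeasurePreserving (T k) P P) (Hm : ∀ ω, Monotone fun t => H (t, pre ω t))
    (a m N : ℕ) (ha : 0 < a) (hm : 0 < m)
    (hS : MeasurableSet {ω | Y1 (arr H T ω) a (JJ d a m) N 0}) :
    P.real {ω | Y1 (arr H T ω) a (JJ d a m) N 0} ≤ 1 / m := by
  refine transfer hP hS N _ fun z L => ?_
  have hs : SupA fun s n => SS (arr H T z) n s n :=
    supA_of (g := arr H T z) (τ := id) hd (fun _ _ => Nat.cast_nonneg _)
      (fun _ _ _ h => Nat.cast_le.2 (Hm _ h)) monotone_id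
  have := down hd hs (fun s => SS_zero hd _ _ s) a m ha hm (Qb 0 (L + N))
    ((Qb 0 L).filter fun s => T s z ∈ {ω | Y1 (arr H T ω) a (JJ d a m) N 0}) fun s hs => by
      obtain ⟨h1, h2⟩ := mem_filter.mp hs
      simp only [Set.mem_ofPred_eq, Y1, SS_act hadd] at h2
      exact ⟨Qb_mono _ (Nat.le_add_right _ _) h1,
        h2.mono (fun _ _ h => h) fun n h => ⟨Qb_sub h1 h.1, h.2⟩⟩
  rwa [card_Qb, Nat.cast_pow, Nat.cast_add] at this

open Classical in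
lemma bound_Y2 [IsProbabilityMeasure P] (hd : 1 ≤ d) (hadd : ∀ k l ω, T (k + l) ω = T k (T l ω))
    (hP : ∀ k, MeasurePreserving (T k) P P) (Hm : ∀ ω, Monotone fun t => H (t, pre ω t))
    (a m N : ℕ) (ha : 0 < a) (hm : 0 < m)
    (hS : MeasurableSet {ω | Y2 (arr H T ω) a (JJ d a m) N 0}) :
    P.real {ω | Y2 (arr H T ω) a (JJ d a m) N 0} ≤ (1 + 16 * d * 5 ^ (d - 1)) * (a + 2) / m := by
  refine transfer hP hS N _ fun z L => ?_
  have g0 : ∀ k t, 0 ≤ arr H T z k t := fun _ _ => Nat.cast_nonneg _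
  have gm : ∀ k, Monotone (arr H T z k) := fun _ _ _ h => Nat.cast_le.2 (Hm _ h)
  have hex : ∀ s, ∃ n t, T s z ∈ {ω | Y2 (arr H T ω) a (JJ d a m) N 0} →
      n ≤ N ∧ Caught (arr H T z) a (JJ d a m) s n t := by
    intro s
    by_cases h : T s z ∈ {ω | Y2 (arr H T ω) a (JJ d a m) N 0}
    · obtain ⟨n, t, h1, -, h3⟩ := h
      refine ⟨n, t, fun _ => ⟨h1, ?_⟩⟩
      simpa only [Caught, SS_act hadd] using h3
    · exact ⟨0, 0, fun h' => absurd h' h⟩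
  choose n t hnt using hex
  have := window hd g0 gm (θ := 1 / m) (by positivity)
    (fun τ => down hd (supA_of (τ := fun _ => τ) hd g0 gm monotone_const)
      (fun s => SS_zero hd _ _ s) a m ha hm) n t
    ((Qb 0 L).filter fun s => T s z ∈ {ω | Y2 (arr H T ω) a (JJ d a m) N 0}) (Qb 0 (L + N))
    (fun _ => (a : ℝ) + 2) (fun _ => by positivity) fun s hs => by
      obtain ⟨h1, h2⟩ := mem_filter.mp hs
      refine ⟨(hnt s h2).2, Qb_sub h1 (hnt s h2).1, le_of_eq ?_⟩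
      rw [sum_const, card_Qb, nsmul_eq_mul, Nat.cast_pow, mul_comm]
  refine this.trans (le_of_eq ?_)
  rw [sum_const, card_Qb, nsmul_eq_mul]
  push_cast
  ring

theorem tests [IsProbabilityMeasure P] (hd : 1 ≤ d) (hadd : ∀ k l ω, T (k + l) ω = T k (T l ω))
    (hT : EffOpenFam fun p : (Fin d → ℕ) × List Bool => T p.1 ⁻¹' cylOf p.2)
    (hP : ∀ k, MeasurePreserving (T k) P P) (hH : Primrec H)
    (Hm : ∀ ω, Monotone fun t => H (t, pre ω t)) (a : ℕ) (ha : 0 < a) {ω : ℕ → Bool}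
    (hω : MLRand P ω) :
    ¬ ∀ j, ∃ N, Y1 (arr H T ω) a j N 0 ∨ Y2 (arr H T ω) a j N 0 := by
  intro h
  obtain ⟨K, hK⟩ : ∃ K, K = 1 + (1 + 16 * d * 5 ^ (d - 1)) * (a + 2) := ⟨_, rfl⟩
  have hK0 : 0 < K := by omega
  have m1 : ∀ j N, MeasurableSet {ω | Y1 (arr H T ω) a j N 0} := fun j N => by
    simp only [Y1_iff]
    exact measurable_of_eff (table_open hT _ (p_R1 hH a) (fun p => p.1.2) (by fun_prop)) (j, N)
  have m2 : ∀ j N, MeasurableSet {ω | Y2 (arr H T ω) a j N 0} := fun j N => by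
    simp only [Y2_iff]
    exact measurable_of_eff (table_open hT _ (p_R2 hH a) (fun p => p.1.2) (by fun_prop)) (j, N)
  let V : ℕ → ℕ → Set (ℕ → Bool) := fun m N =>
    {ω | Y1 (arr H T ω) a (JJ d a (K * 2 ^ m)) N 0} ∪
      {ω | Y2 (arr H T ω) a (JJ d a (K * 2 ^ m)) N 0}
  refine hω ⟨fun m => ⋃ N, V m N, ?_, ?_, fun m => ?_, Set.mem_iInter.2 fun m => ?_⟩
  · have hc : Primrec fun p : ℕ × (ℕ × (ℕ × ℕ × ℕ × List ℕ × List ℕ)) × List (List Bool) =>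
        ((JJ d a (K * 2 ^ p.1), p.2.1.1), p.2.1.2, p.2.2) := by
      unfold JJ
      fun_prop
    have e1 := (p_R1 (d := d) hH a).comp hc
    have e2 := (p_R2 (d := d) hH a).comp hc
    have := table_open hT _ (p_or e1 e2) (fun p => p.2.1) (by fun_prop)
    refine (congrArg EffOpenFam (funext fun m => Set.ext fun ω => ?_)).mp this
    simp only [V, Set.mem_iUnion, Set.mem_union, Set.mem_ofPred_eq, Y1_iff, Y2_iff,
      Bool.or_eq_true]
    rw [Prod.exists]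
    simp only [exists_or]
  · intro m m' hm ω hω
    obtain ⟨N, hN⟩ := Set.mem_iUnion.1 hω
    have hj : JJ d a (K * 2 ^ m) ≤ JJ d a (K * 2 ^ m') := by
      have : K * 2 ^ m ≤ K * 2 ^ m' := Nat.mul_le_mul_left _ (Nat.pow_le_pow_right two_pos hm)
      unfold JJ
      gcongr
    refine Set.mem_iUnion.2 ⟨N, ?_⟩
    rcases hN with h | h
    · exact Or.inl (Y1.mono h hj le_rfl)
    · exact Or.inr (Y2.mono h hj le_rfl)
  · have hmono : Monotone (V m) := by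
      rintro N N' hN ω (h | h)
      · exact Or.inl (Y1.mono h le_rfl hN)
      · exact Or.inr (Y2.mono h le_rfl hN)
    rw [hmono.measure_iUnion]
    refine iSup_le fun N => ?_
    have hpos : 0 < K * 2 ^ m := by positivity
    have h1 : P.real (V m N) ≤ 2⁻¹ ^ m := by
      refine (measureReal_union_le _ _).trans ((add_le_add
        (bound_Y1 hd hadd hP Hm a _ N ha hpos (m1 _ _))
        (bound_Y2 hd hadd hP Hm a _ N ha hpos (m2 _ _))).trans (le_of_eq ?_))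
      have h2 : (K : ℝ) = 1 + (1 + 16 * d * 5 ^ (d - 1)) * (a + 2) := by
        rw [hK]; push_cast; ring
      have h3 : (K : ℝ) ≠ 0 := by exact_mod_cast hK0.ne'
      rw [← add_div, ← h2]
      push_cast
      rw [inv_pow]
      field_simp
    rw [← ofReal_measureReal (measure_ne_top P _)]
    refine (ENNReal.ofReal_le_ofReal h1).trans (le_of_eq ?_)
    rw [ENNReal.ofReal_pow (by norm_num), ENNReal.ofReal_inv_of_pos (by norm_num)]
    simp
  · obtain ⟨N, hN⟩ := h (JJ d a (K * 2 ^ m))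
    exact Set.mem_iUnion.2 ⟨N, hN⟩

end Pool.Agent.P.MP_05754a_lc.Cu
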