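import Pool.Agent.P.MP_05754a_lc.KMain

set_option autoImplicit false

namespace Pool.Agent.P.MP_05754a_lc

open MeasureTheory Finset Pool.Agent.Lib.PrimrecProp

lemma effOpenOn_univ {ι : Type} [Primcodable ι] {S : ι → Set (ℕ → Bool)} (h : EffOpenFam S) :
    EffOpenOn Set.univ S := ⟨S, h, fun _ => rfl⟩

lemma iterate_sh (k : ℕ) (ω : ℕ → Bool) : (sh 1)^[k] ω = fun i => ω (i + k) := by
  induction k with
  | zero => rfl
  | succ k ih => rw [Function.iterate_succ_apply', ih]; funext i; simp only [sh]; congr 1; omega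

/-- the shift is computable -/
lemma shift_effOpen : EffOpenOn Set.univ fun x : List Bool => sh 1 ⁻¹' cylOf x := by
  refine effOpenOn_univ ?_
  have := effOpen_of (ι := List Bool) (β := ℕ) (fun p => eqb (p.2.2.drop 1) p.1) (by fun_prop)
    (fun p => p.1.length + 1) (by fun_prop)
  simp only [eqb_iff, pre_succ, List.drop_succ_cons, List.drop_zero, exists_const] at this
  simp only [← mem_cylOf] at this
  exact this

/-- stationary measures are invariant under the shift -/
lemma shift_preserving {P : Measure (ℕ → Bool)} [IsProbabilityMeasure P]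
    (hstat : ∀ x, P (cylOf x) = P (cylOf (false :: x)) + P (cylOf (true :: x))) :
    MeasurePreserving (sh 1) P P := by
  refine ⟨measurable_sh 1, ?_⟩
  have : IsProbabilityMeasure (P.map (sh 1)) :=
    Measure.isProbabilityMeasure_map (measurable_sh 1).aemeasurable
  refine ext_of_generate_finite (measurableCylinders fun _ : ℕ => Bool)
    generateFrom_measurableCylinders.symm isPiSystem_measurableCylinders (fun t ht => ?_) (by simp)
  obtain ⟨s, S, hS, rfl⟩ := (mem_measurableCylinders t).mp ht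
  rw [Measure.map_apply (measurable_sh 1) (hS.cylinder s)]
  have e : ∀ ω : ℕ → Bool, ω ∈ cylinder s S ↔
      (fun i : s => (pre ω (s.sup id + 1)).getD i false) ∈ S := by
    intro ω
    rw [mem_cylinder]
    refine iff_of_eq (congrArg (· ∈ S) (funext fun i => ?_))
    have : (i : ℕ) < s.sup id + 1 := Nat.lt_succ_of_le (Finset.le_sup (f := id) i.2)
    rw [pre, getD_map_range _ _ this]
    rfl
  have := inv_one hstat (fun x => (fun i : s => x.getD i false) ∈ S) (s.sup id + 1)
  simp only [← e] at this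
  exact this

/-- comparison of an integer multiple with a difference of naturals -/
def zlt (z : ℤ) (a b c : ℕ) : Bool :=
  cond (eqb (Encodable.encode z % 2) 0) (leb (a * (Encodable.encode z / 2) + b + 1) c)
    (leb (b + 1) (c + a * (Encodable.encode z / 2 + 1)))

lemma zlt_iff (z : ℤ) (a b c : ℕ) : zlt z a b c = true ↔ (a : ℝ) * z + b < c := by
  cases z with
  | ofNat k =>
    have e : Encodable.encode (Int.ofNat k) = 2 * k := rfl
    simp only [zlt, e, Nat.mul_mod_right, eqb, decide_true, cond_true, leb_iff,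
      Nat.mul_div_cancel_left _ (show 0 < 2 by norm_num)]
    rw [Int.ofNat_eq_natCast, Int.cast_natCast]
    exact_mod_cast Iff.rfl
  | negSucc k =>
    have e : Encodable.encode (Int.negSucc k) = 2 * k + 1 := rfl
    have e1 : (2 * k + 1) % 2 = 1 := by omega
    have e2 : (2 * k + 1) / 2 = k := by omega
    simp only [zlt, e, e1, e2, eqb, one_ne_zero, decide_false, cond_false, leb_iff,
      Int.cast_negSucc]
    rw [Nat.add_one_le_iff, ← Nat.cast_lt (α := ℝ)]
    push_cast
    constructor <;> intro h <;> linarith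

@[fun_prop] lemma p_zlt {α : Type} [Primcodable α] {z : α → ℤ} {f g h : α → ℕ} (hz : Primrec z)
    (hf : Primrec f) (hg : Primrec g) (hh : Primrec h) :
    Primrec fun a => zlt (z a) (f a) (g a) (h a) := by
  have h1 : Primrec fun a => Encodable.encode (z a) % 2 :=
    Primrec.nat_mod.comp (Primrec.encode.comp hz) (Primrec.const 2)
  have h2 : Primrec fun a => Encodable.encode (z a) / 2 :=
    Primrec.nat_div.comp (Primrec.encode.comp hz) (Primrec.const 2)
  exact p_cond (p_eqb h1 (p_const 0))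
    (p_leb (p_add (p_add (p_mul hf h2) hg) (p_const 1)) hh)
    (p_leb (p_add hg (p_const 1)) (p_add hh (p_mul hf (p_add h2 (p_const 1)))))

@[fun_prop] lemma p_natPair {α : Type} [Primcodable α] {f g : α → ℕ} (hf : Primrec f)
    (hg : Primrec g) : Primrec fun a => Nat.pair (f a) (g a) := Primrec₂.natPair.comp hf hg

/-- Birkhoff sums of a lower semicomputable function are uniformly lower semicomputable -/
lemma sums_effOpen {f : (ℕ → Bool) → ℝ} (hf : LowerSemicomp f) :
    EffOpenOn Set.univ fun q : ℕ × ℤ × ℕ =>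
      {z | (q.2.1 : ℝ) / ((q.2.2 : ℝ) + 1) < ∑ k ∈ range q.1, f fun i => z (i + k)} := by
  refine effOpenOn_univ ?_
  obtain ⟨c, hc⟩ := exists_lower hf
  obtain ⟨H, hH, Hm, Happ⟩ := approx_univ
  obtain ⟨e, he⟩ := Happ Set.univ (fun _ => f) (effOpenOn_univ (by
    obtain ⟨W, hW, hV⟩ := hf
    exact ⟨fun p => W (p.1.2, p.2), Partrec.comp hW
      (Primrec.to_comp ((Primrec.snd.comp Primrec.fst).pair Primrec.snd)), fun q => hV q.2⟩))
  have hi := fun d ω => he d c ω trivial 1 (by simpa using (hc ω).le)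
  simp only [Nat.cast_one, mul_one] at hi
  have := effOpen_of (ι := ℕ × ℤ × ℕ) (β := ℕ × ℕ) (fun p =>
    zlt p.1.2.1 (p.2.1.1 + 1) (c * p.1.1 * (p.2.1.1 + 1) * (p.1.2.2 + 1)) ((p.1.2.2 + 1) *
      lsum ((List.range p.1.1).map fun k => H (Nat.pair e (Nat.pair c p.2.1.1), 1, p.2.1.2,
        (p.2.2.drop k).take p.2.1.2)))) (by fun_prop) (fun p => p.1.1 + p.2.2) (by fun_prop)
  refine (congrArg EffOpenFam (funext fun q => Set.ext fun ω => ?_)).mp this
  obtain ⟨n, z, m⟩ := q
  have hm : (0 : ℝ) < m + 1 := by positivity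
  have e1 : ∀ d t, lsum ((List.range n).map fun k => H (Nat.pair e (Nat.pair c d), 1, t,
      ((pre ω (n + t)).drop k).take t))
      = ∑ k ∈ range n, H (Nat.pair e (Nat.pair c d), 1, t, pre (sh k ω) t) := by
    intro d t
    rw [lsum_range]
    exact sum_congr rfl fun k hk => by
      rw [take_drop_pre ω (by have := mem_range.mp hk; omega)]
  have e2 : ∀ d : ℕ, ∑ k ∈ range n, ((d : ℝ) + 1) * (f (sh k ω) + c)
      = (d + 1) * (∑ k ∈ range n, f (sh k ω) + c * n) := by
    intro d
    rw [← mul_sum, sum_add_distrib, sum_const, card_range, nsmul_eq_mul, mul_comm (n : ℝ)]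
  simp only [Set.mem_ofPred_eq, zlt_iff, e1, Prod.exists]
  change _ ↔ (z : ℝ) / (m + 1) < ∑ k ∈ range n, f (sh k ω)
  set S := ∑ k ∈ range n, f (sh k ω) with hS
  push_cast
  constructor
  · rintro ⟨d, t, h⟩
    have h1 := (sum_le_sum (s := range n) fun k _ => (hi d (sh k ω)).1 t).trans (e2 d).le
    have h2 := mul_le_mul_of_nonneg_left h1 hm.le
    have hd : (0 : ℝ) < d + 1 := by positivity
    rw [div_lt_iff₀ hm]
    refine lt_of_mul_lt_mul_left (a := (d : ℝ) + 1) ?_ hd.le
    nlinarith
  · intro h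
    obtain ⟨d, hd⟩ := exists_nat_gt (n / (S - z / (m + 1)))
    rw [div_lt_iff₀ (by linarith)] at hd
    choose τ hτ using fun k => (hi d (sh k ω)).2
    refine ⟨d, (range n).sup τ, ?_⟩
    have h1 : ∑ k ∈ range n, (((d : ℝ) + 1) * (f (sh k ω) + c) - 1) ≤ ∑ k ∈ range n,
        (H (Nat.pair e (Nat.pair c d), 1, (range n).sup τ, pre (sh k ω) ((range n).sup τ)) : ℝ) :=
      sum_le_sum fun k hk =>
        (hτ k).trans (Nat.cast_le.mpr (Hm _ _ _ (Finset.le_sup (f := τ) hk)))
    rw [sum_sub_distrib, e2, sum_const, card_range, nsmul_eq_mul, mul_one] at h1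
    have h2 := mul_le_mul_of_nonneg_left h1 hm.le
    have h3 : ((d : ℝ) + 1) * (z / (m + 1)) + n < (d + 1) * S := by nlinarith
    have h4 := mul_lt_mul_of_pos_left h3 hm
    have h5 : ((m : ℝ) + 1) * ((d + 1) * (z / (m + 1))) = (d + 1) * z := by field_simp
    nlinarith

end Pool.Agent.P.MP_05754a_lc
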