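import Pool.Agent.P.MP_05754a_lc.CuE
import Pool.Agent.P.MP_05754a_lc.Inst

/-! Convergence of cube averages at random points. -/

set_option autoImplicit false

namespace Pool.Agent.P.MP_05754a_lc.Cu

open MeasureTheory Finset Filter Topology Pool.Agent.Lib.PrimrecProp

variable {d : ℕ}

theorem no_osc {S : ℕ → ℝ} {c : ℕ} (hc : ∀ n : ℕ, -(c * (n : ℝ) ^ d) ≤ S n)
    (hg : ∀ D : ℕ, ∃ g : (Fin d → ℕ) → ℕ → ℝ, (∀ k, Monotone (g k)) ∧
      (∀ t n, SS g t 0 n ≤ (D + 1) * (S n + c * (n : ℝ) ^ d)) ∧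
      (∀ n, ∃ t, (D + 1) * (S n + c * (n : ℝ) ^ d) - (n : ℝ) ^ d ≤ SS g t 0 n) ∧
      ∀ a : ℕ, 0 < a → ¬ ∀ j, ∃ N, Y1 g a j N 0 ∨ Y2 g a j N 0) {α β : ℝ}
    (hαβ : α < β) (hlo : ∃ᶠ n : ℕ in atTop, S n / (n : ℝ) ^ d < α)
    (hhi : ∃ᶠ n : ℕ in atTop, β < S n / (n : ℝ) ^ d) : False := by
  obtain ⟨D, hD⟩ := exists_nat_ge (5 / (β - α))
  have hD0 : (0 : ℝ) < D + 1 := by positivity
  have hD5 : 5 ≤ (D + 1) * (β - α) := by
    rw [div_le_iff₀ (by linarith)] at hD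
    nlinarith
  obtain ⟨g, gm, gle, Hge, hY⟩ := hg D
  rw [frequently_atTop] at hlo hhi
  have hv : ∀ n : ℕ, 1 ≤ n → (0 : ℝ) < (n : ℝ) ^ d := fun n hn =>
    pow_pos (by exact_mod_cast hn) _
  have hαc : 0 ≤ α + c := by
    obtain ⟨n, hn, h⟩ := hlo 1
    have hn' := hv n hn
    rw [div_lt_iff₀ hn'] at h
    have := hc n
    nlinarith
  obtain ⟨a, ha⟩ : ∃ a : ℕ, a = ⌈(D + 1) * (α + c)⌉₊ + 1 := ⟨_, rfl⟩
  have a0 : 0 < a := by omega
  have a1 : (D + 1) * (α + c) ≤ a := by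
    rw [ha]; push_cast; linarith [Nat.le_ceil ((D + 1) * (α + c))]
  have a2 : (a : ℝ) < (D + 1) * (α + c) + 2 := by
    rw [ha]; push_cast
    linarith [Nat.ceil_lt_add_one (show 0 ≤ (D + 1) * (α + c) by positivity)]
  have Lo : ∀ N, ∃ n : ℕ, N ≤ n ∧ (D + 1) * (S n + c * (n : ℝ) ^ d) < a * (n : ℝ) ^ d := by
    intro N
    obtain ⟨n, hn, h⟩ := hlo (N + 1)
    have hn' := hv n (by omega)
    rw [div_lt_iff₀ hn'] at h
    refine ⟨n, by omega, ?_⟩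
    nlinarith
  have Hi : ∀ N, ∃ n : ℕ, N ≤ n ∧
      ((a : ℝ) + 2) * (n : ℝ) ^ d < (D + 1) * (S n + c * (n : ℝ) ^ d) - (n : ℝ) ^ d := by
    intro N
    obtain ⟨n, hn, h⟩ := hhi (N + 1)
    have hn' := hv n (by omega)
    rw [lt_div_iff₀ hn'] at h
    refine ⟨n, by omega, ?_⟩
    nlinarith
  have gge : ∀ N, ∃ t0, ∀ t, t0 ≤ t → ∀ n ≤ N,
      (D + 1) * (S n + c * (n : ℝ) ^ d) - (n : ℝ) ^ d ≤ SS g t 0 n := by
    intro N
    choose τ hτ using Hge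
    refine ⟨(range (N + 1)).sup τ, fun t ht n hn => ?_⟩
    have h2 := Finset.le_sup (f := τ) (mem_range.mpr (Nat.lt_succ_of_le hn))
    exact (hτ n).trans (SS_mono gm (h2.trans ht) _ _)
  have diag : ∃ N, ∀ n, N ≤ n → SS g n 0 n ≤ ((a : ℝ) + 1) * (n : ℝ) ^ d := by
    by_contra hcon
    push Not at hcon
    refine hY a a0 fun j => ?_
    obtain ⟨N, hN⟩ := cross_of_freq hcon (Lo := fun n => SS g n 0 n < a * (n : ℝ) ^ d)
      (fun N => by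
        obtain ⟨n, h1, h3⟩ := Lo N
        exact ⟨n, h1, (gle n n).trans_lt h3⟩) j
    exact ⟨N, Or.inl (hN.mono (fun _ _ h => h.2) fun _ h => h)⟩
  obtain ⟨N1, hN1⟩ := diag
  refine hY a a0 fun j => ?_
  obtain ⟨N, hN⟩ := cross_of_freq Hi Lo j
  obtain ⟨t0, ht0⟩ := gge N
  obtain ⟨n, hn, hhn⟩ := Hi (N + N1 + 2 ^ t0)
  have hpos := Nat.one_le_two_pow (n := t0)
  have hlog : t0 ≤ Nat.log 2 n := Nat.le_log_of_pow_le (by norm_num) (by omega)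
  obtain ⟨t, ht⟩ := gge n
  refine ⟨max n t, Or.inr ⟨n, t, le_max_left _ _, le_max_right _ _, by omega,
    (SS_mono gm (Nat.log_le_self 2 n) _ _).trans (hN1 n (by omega)),
    hhn.trans_le (ht t le_rfl n le_rfl), ?_⟩⟩
  refine hN.mono (fun m _ h => ?_) fun m h => ⟨by omega, (gle t m).trans_lt h.2⟩
  have h1 := h.2.trans_le (ht0 _ hlog m h.1)
  have h2 : (0 : ℝ) ≤ (m : ℝ) ^ d := by positivity
  linarith

theorem conv_of {u : ℕ → ℝ} {c : ℝ} (hlow : ∀ n, c ≤ u n)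
    (h : ∀ α β : ℝ, α < β → (∃ᶠ n : ℕ in atTop, u n < α) → (∃ᶠ n : ℕ in atTop, β < u n) → False) :
    (∃ L : ℝ, Tendsto u atTop (𝓝 L)) ∨ Tendsto u atTop atTop := by
  by_cases htop : Tendsto u atTop atTop
  · exact Or.inr htop
  left
  rw [tendsto_atTop] at htop
  push Not at htop
  obtain ⟨M, hM⟩ := htop
  have hup : ∀ᶠ n in atTop, u n ≤ M + 1 := by
    by_contra h'
    rw [not_eventually] at h'
    exact h _ _ (lt_add_one M) hM (h'.mono fun n hn => not_le.mp hn)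
  exact tendsto_of_no_upcrossings (s := Set.univ) dense_univ
    (fun α _ β _ hαβ h' => h _ _ hαβ h'.1 h'.2) ⟨M + 1, hup⟩
    ⟨c, eventually_map.mpr (Eventually.of_forall hlow)⟩

theorem cubes (d : ℕ) (hd : 1 ≤ d) (T : (Fin d → ℕ) → (ℕ → Bool) → ℕ → Bool)
    (hadd : ∀ k l ω, T (k + l) ω = T k (T l ω))
    (hT : EffOpenFam fun p : (Fin d → ℕ) × List Bool => T p.1 ⁻¹' cylOf p.2)
    (P : Measure (ℕ → Bool)) [IsProbabilityMeasure P] (hP : ∀ k, MeasurePreserving (T k) P P)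
    (f : (ℕ → Bool) → ℝ) (hf : LowerSemicomp f) (ω : ℕ → Bool) (hω : MLRand P ω) :
    (∃ L : ℝ, Tendsto (fun n : ℕ => (∑ k ∈ Fintype.piFinset fun _ : Fin d => range n,
        f (T k ω)) / (n : ℝ) ^ d) atTop (𝓝 L)) ∨
      Tendsto (fun n : ℕ => (∑ k ∈ Fintype.piFinset fun _ : Fin d => range n,
        f (T k ω)) / (n : ℝ) ^ d) atTop atTop := by
  have eQ : ∀ n, (Fintype.piFinset fun _ : Fin d => range n) = Qb 0 n := fun n => by
    ext k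
    simp [mem_Qb]
  simp only [eQ]
  obtain ⟨c, hc⟩ := exists_lower hf
  have e2 : ∀ (n : ℕ) (x : ℝ), ∑ _k ∈ Qb (0 : Fin d → ℕ) n, x = x * (n : ℝ) ^ d := fun n x => by
    rw [sum_const, card_Qb, nsmul_eq_mul, Nat.cast_pow, mul_comm]
  have hc' : ∀ n : ℕ, -(c * (n : ℝ) ^ d) ≤ ∑ k ∈ Qb 0 n, f (T k ω) := fun n => by
    rw [← neg_mul, ← e2]
    exact sum_le_sum fun k _ => (hc _).le
  refine conv_of (c := -c) (fun n => ?_) fun α β hαβ hlo hhi =>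
    no_osc (S := fun n => ∑ k ∈ Qb 0 n, f (T k ω)) hc' (fun D => ?_) hαβ hlo hhi
  · rcases (show (0 : ℝ) ≤ (n : ℝ) ^ d by positivity).eq_or_lt with h | h
    · rw [← h, div_zero]
      exact neg_nonpos.2 (Nat.cast_nonneg _)
    · rw [le_div_iff₀ h, neg_mul]
      exact hc' n
  obtain ⟨H, hH, Hm, Hle, Hge⟩ := approx hf D c hc
  have gm : ∀ k, Monotone (arr H T ω k) := fun _ _ _ h => Nat.cast_le.2 (Hm _ h)
  have e3 : ∀ n : ℕ, ∑ k ∈ Qb 0 n, ((D : ℝ) + 1) * (f (T k ω) + c) =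
      (D + 1) * (∑ k ∈ Qb 0 n, f (T k ω) + c * (n : ℝ) ^ d) := fun n => by
    rw [← mul_sum, sum_add_distrib, e2]
  refine ⟨arr H T ω, gm, fun t n => ?_, fun n => ?_,
    fun a ha => tests hd hadd hT hP hH Hm a ha hω⟩
  · rw [← e3]
    exact sum_le_sum fun k _ => Hle _ _
  · choose τ hτ using fun k => Hge (T k ω)
    refine ⟨(Qb 0 n).sup τ, ?_⟩
    rw [← e3, ← one_mul ((n : ℝ) ^ d), ← e2, ← sum_sub_distrib]
    exact sum_le_sum fun k hk => (hτ k).trans (gm k (Finset.le_sup (f := τ) hk))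

end Pool.Agent.P.MP_05754a_lc.Cu
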