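import Pool.Agent.P.MP_05754a_lc.Inst

/-! Two actions by shifts: the line and the plane. -/

set_option autoImplicit false

namespace Pool.Agent.P.MP_05754a_lc.Cu

open MeasureTheory Finset Pool.Agent.Lib.PrimrecProp

/-- a primitive recursive change of coordinates is computable -/
lemma reindex_eff {ι : Type} [Primcodable ι] {σ : ι × ℕ → ℕ} (hσ : Primrec σ) :
    EffOpenFam fun p : ι × List Bool =>
      (fun (ω : ℕ → Bool) (n : ℕ) => ω (σ (p.1, n))) ⁻¹' cylOf p.2 := by
  have := effOpen_of (ι := ι × List Bool) (β := ℕ) (fun p =>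
    ((List.range p.1.2.length).all fun n => leb (σ (p.1.1, n) + 1) p.2.1) &&
      eqb ((List.range p.1.2.length).map fun n => p.2.2.getD (σ (p.1.1, n)) false) p.1.2)
    (by fun_prop) (fun p => p.2) (by fun_prop)
  refine (congrArg EffOpenFam (funext fun p => Set.ext fun ω => ?_)).mp this
  simp only [Set.mem_ofPred_eq, Bool.and_eq_true, List.all_eq_true, List.mem_range, leb_iff,
    eqb_iff, Set.mem_preimage, mem_cylOf]
  have key : ∀ w, (∀ n < p.2.length, σ (p.1, n) + 1 ≤ w) →
      ((List.range p.2.length).map fun n => (pre ω w).getD (σ (p.1, n)) false) =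
        pre (fun n => ω (σ (p.1, n))) p.2.length := fun w hw =>
    List.map_congr_left fun n hn => getD_map_range _ _ (hw n (List.mem_range.1 hn))
  constructor
  · rintro ⟨w, h1, h2⟩
    rwa [key w h1] at h2
  · intro h
    have h1 : ∀ n < p.2.length, σ (p.1, n) + 1 ≤ (range p.2.length).sup fun n => σ (p.1, n) + 1 :=
      fun n hn => Finset.le_sup (f := fun n => σ (p.1, n) + 1) (mem_range.2 hn)
    exact ⟨_, h1, by rwa [key _ h1]⟩

lemma p_app {α : Type} [Primcodable α] {d : ℕ} {k : α → Fin d → ℕ} (hk : Primrec k)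
    (i : Fin d) : Primrec fun a => k a i := Primrec.fin_app.comp hk (Primrec.const i)

lemma line_eff : EffOpenFam fun p : (Fin 1 → ℕ) × List Bool =>
    (fun (ω : ℕ → Bool) (n : ℕ) => ω (n + p.1 0)) ⁻¹' cylOf p.2 :=
  reindex_eff (σ := fun q : (Fin 1 → ℕ) × ℕ => q.2 + q.1 0)
    (p_add Primrec.snd (p_app Primrec.fst 0))

lemma line_pres {P : Measure (ℕ → Bool)} [IsProbabilityMeasure P]
    (hstat : ∀ x, P (cylOf x) = P (cylOf (false :: x)) + P (cylOf (true :: x))) (k : ℕ) :
    MeasurePreserving (fun (ω : ℕ → Bool) (n : ℕ) => ω (n + k)) P P := by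
  have := (shift_preserving hstat).iterate k
  rwa [funext (iterate_sh k)] at this

lemma line_sum (F : ℕ → ℝ) (n : ℕ) :
    ∑ k ∈ Fintype.piFinset fun _ : Fin 1 => range n, F (k 0) = ∑ k ∈ range n, F k := by
  refine sum_bij' (fun k _ => k 0) (fun m _ _ => m) (fun k hk => Fintype.mem_piFinset.1 hk 0)
    (fun m hm => Fintype.mem_piFinset.2 fun _ => hm) (fun k _ => ?_) (fun _ _ => rfl)
    fun _ _ => rfl
  funext i
  rw [Subsingleton.elim i 0]

lemma plane_eff : EffOpenFam fun p : (Fin 2 → ℕ) × List Bool =>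
    (fun (ω : ℕ → Bool) (n : ℕ) =>
      ω (Nat.pair (n.unpair.1 + p.1 0) (n.unpair.2 + p.1 1))) ⁻¹' cylOf p.2 :=
  reindex_eff
    (σ := fun q : (Fin 2 → ℕ) × ℕ => Nat.pair (q.2.unpair.1 + q.1 0) (q.2.unpair.2 + q.1 1))
    (p_natPair (p_add (p_fst (p_unpair Primrec.snd)) (p_app Primrec.fst 0))
      (p_add (p_snd (p_unpair Primrec.snd)) (p_app Primrec.fst 1)))

lemma plane_pres (μ : Measure Bool) [IsProbabilityMeasure μ] (a b : ℕ) :
    MeasurePreserving
      (fun (ω : ℕ → Bool) (n : ℕ) => ω (Nat.pair (n.unpair.1 + a) (n.unpair.2 + b)))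
      (Measure.infinitePi fun _ => μ) (Measure.infinitePi fun _ => μ) := by
  refine ⟨measurable_pi_lambda _ fun _ => measurable_pi_apply _,
    Measure.map_infinitePi_infinitePi_of_inj (P := fun _ : ℕ => μ)
      (f := fun n : ℕ => Nat.pair (n.unpair.1 + a) (n.unpair.2 + b)) fun m n h => ?_⟩
  obtain ⟨h1, h2⟩ := Nat.pair_eq_pair.1 h
  rw [← Nat.pair_unpair m, ← Nat.pair_unpair n]
  congr 1 <;> omega

/-- the shifts of the plane form a computable action preserving every Bernoulli measure -/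
theorem plane (μ : Measure Bool) [IsProbabilityMeasure μ]
    (T : (Fin 2 → ℕ) → (ℕ → Bool) → ℕ → Bool)
    (hT : ∀ k ω i j, T k ω (Nat.pair i j) = ω (Nat.pair (i + k 0) (j + k 1))) :
    (∀ k l ω, T (k + l) ω = T k (T l ω)) ∧
      (EffOpenFam fun p : (Fin 2 → ℕ) × List Bool => T p.1 ⁻¹' cylOf p.2) ∧
      ∀ k, MeasurePreserving (T k) (Measure.infinitePi fun _ => μ)
        (Measure.infinitePi fun _ => μ) := by
  obtain rfl : T = fun k ω n => ω (Nat.pair (n.unpair.1 + k 0) (n.unpair.2 + k 1)) := by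
    funext k ω n
    rw [← hT k ω, Nat.pair_unpair]
  refine ⟨fun k l ω => ?_, plane_eff, fun k => plane_pres μ _ _⟩
  funext n
  simp only [Nat.unpair_pair, Pi.add_apply, add_assoc]

end Pool.Agent.P.MP_05754a_lc.Cu
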