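import Pool.Agent.P.MP_05754a_lc.CuA

/-! A multi-scale covering lemma for cubes. -/

set_option autoImplicit false

namespace Pool.Agent.P.MP_05754a_lc.Cu

open Finset

variable {d : ℕ}

lemma cuV_greedy {ι α : Type} [DecidableEq ι] [DecidableEq α] (B : ι → Finset α) (δ : ι → ℕ)
    (F : Finset ι) : (∀ c ∈ F, (B c).Nonempty) →
      ∃ P, P ⊆ F ∧ (P : Set ι).PairwiseDisjoint B ∧
        ∀ c ∈ F, ∃ p ∈ P, δ c ≤ δ p ∧ ¬ Disjoint (B c) (B p) := by
  induction F using Finset.strongInductionOn with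
  | _ F ih =>
    intro hne
    rcases F.eq_empty_or_nonempty with rfl | hF
    · exact ⟨∅, Finset.Subset.refl _, by simp, by simp⟩
    obtain ⟨p, hp, hmax⟩ := F.exists_max_image δ hF
    have hpp : ¬ Disjoint (B p) (B p) := by
      rw [disjoint_self]
      exact (hne p hp).ne_empty
    obtain ⟨P, hPF, hPd, hPc⟩ := ih (F.filter fun c => Disjoint (B c) (B p))
      (Finset.filter_ssubset.2 ⟨p, hp, hpp⟩) fun c hc => hne c (Finset.mem_filter.1 hc).1
    refine ⟨insert p P, ?_, ?_, ?_⟩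
    · exact Finset.insert_subset hp (hPF.trans (Finset.filter_subset _ _))
    · rw [Finset.coe_insert]
      refine hPd.insert fun q hq _ => ?_
      exact (Finset.mem_filter.1 (hPF hq)).2.symm
    · intro c hc
      by_cases h : Disjoint (B c) (B p)
      · obtain ⟨q, hq, h1, h2⟩ := hPc c (Finset.mem_filter.2 ⟨hc, h⟩)
        exact ⟨q, Finset.mem_insert_of_mem hq, h1, h2⟩
      · exact ⟨p, Finset.mem_insert_self _ _, hmax c hc, h⟩

lemma cuV_markov {ι α : Type} [DecidableEq α] (P : Finset ι) (D : Finset α) (B : ι → Finset α)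
    (E : ℕ) (h : ∀ s ∈ D, E ≤ (P.filter fun p => s ∈ B p).card) :
    E * D.card ≤ ∑ p ∈ P, (B p).card := by
  calc E * D.card = ∑ _s ∈ D, E := by simp [mul_comm]
    _ ≤ ∑ s ∈ D, (P.filter fun p => s ∈ B p).card := Finset.sum_le_sum h
    _ = ∑ s ∈ D, ∑ p ∈ P, if s ∈ B p then 1 else 0 := by simp only [Finset.card_filter]
    _ = ∑ p ∈ P, ∑ s ∈ D, if s ∈ B p then 1 else 0 := Finset.sum_comm
    _ = ∑ p ∈ P, (D.filter fun s => s ∈ B p).card := by simp only [Finset.card_filter]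
    _ ≤ ∑ p ∈ P, (B p).card :=
      Finset.sum_le_sum fun p _ => Finset.card_le_card fun s hs => (Finset.mem_filter.1 hs).2

theorem vitali (hd : 1 ≤ d) (D : Finset (Fin d → ℕ)) {E : ℕ} (hE : 1 ≤ E)
    (r : (Fin d → ℕ) → ℕ → ℕ) (h1 : ∀ s ∈ D, 1 ≤ r s 0)
    (hr : ∀ s ∈ D, ∀ l, l + 1 < E → E * r s l ≤ r s (l + 1)) {φ : ℝ}
    (hφ : ∀ s ∈ D, ∀ l < E, ∀ D' ⊆ D, (∀ s' ∈ D', Qb s' (r s' 0) ⊆ Qb s (r s l)) →
      (D'.card : ℝ) ≤ φ * (r s l : ℝ) ^ d) :
    ∃ P : Finset ((Fin d → ℕ) × ℕ), (∀ p ∈ P, p.1 ∈ D ∧ ∃ l < E, p.2 = r p.1 l) ∧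
      (P : Set ((Fin d → ℕ) × ℕ)).PairwiseDisjoint (fun p => Qb p.1 p.2) ∧
      (D.card : ℝ) ≤ (φ + (d + 1) * 2 ^ d / E) * ∑ p ∈ P, (p.2 : ℝ) ^ d := by
  classical
  have hmono : ∀ s ∈ D, ∀ l k, l + k < E → r s l ≤ r s (l + k) := by
    intro s hs l k
    induction k with
    | zero => exact fun _ => le_rfl
    | succ k ih =>
      intro h
      have e1 := ih (by omega)
      have e2 := hr s hs (l + k) (by omega)
      have e3 : r s (l + k) ≤ E * r s (l + k) := Nat.le_mul_of_pos_left _ hE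
      exact e1.trans (e3.trans e2)
  have hmono' : ∀ s ∈ D, ∀ l l', l ≤ l' → l' < E → r s l ≤ r s l' := by
    intro s hs l l' h h'
    obtain ⟨k, rfl⟩ := Nat.exists_eq_add_of_le h
    exact hmono s hs l k h'
  obtain ⟨P, hPF, hPd, hPc⟩ := cuV_greedy (fun p : (Fin d → ℕ) × ℕ => Qb p.1 p.2) (fun p => p.2)
    ((D ×ˢ range E).image fun q => (q.1, r q.1 q.2)) (by
      intro c hc
      obtain ⟨q, hq, rfl⟩ := mem_image.1 hc
      obtain ⟨e1, e2⟩ := mem_product.1 hq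
      exact ⟨q.1, self_mem_Qb _
        ((h1 _ e1).trans (hmono' _ e1 0 _ (Nat.zero_le _) (mem_range.1 e2)))⟩)
  have hP : ∀ p ∈ P, p.1 ∈ D ∧ ∃ l < E, p.2 = r p.1 l := by
    intro p hp
    obtain ⟨q, hq, rfl⟩ := mem_image.1 (hPF hp)
    obtain ⟨e1, e2⟩ := mem_product.1 hq
    exact ⟨e1, q.2, mem_range.1 e2, rfl⟩
  refine ⟨P, hP, hPd, ?_⟩
  have hc : ∀ s ∈ D, ∀ l, l < E → ∃ p ∈ P, r s l ≤ p.2 ∧
      ∀ i, s i < p.1 i + p.2 ∧ p.1 i < s i + r s l := by
    intro s hs l hl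
    obtain ⟨p, hp, e1, e2⟩ := hPc (s, r s l)
      (mem_image.2 ⟨(s, l), mem_product.2 ⟨hs, mem_range.2 hl⟩, rfl⟩)
    obtain ⟨z, hz1, hz2⟩ := not_disjoint_iff.1 e2
    refine ⟨p, hp, e1, fun i => ?_⟩
    have e3 := mem_Qb.1 hz1 i
    have e4 := mem_Qb.1 hz2 i
    simp only at e3 e4
    omega
  choose! c hcP hc1 hc2 using hc
  obtain ⟨Big, hBig⟩ : ∃ Big : (Fin d → ℕ) × ℕ → Finset (Fin d → ℕ),
      ∀ p, Big p = Bx (fun i => p.1 i - p.2) fun i => p.1 i + p.2 := ⟨_, fun _ => rfl⟩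
  obtain ⟨Sh, hSh⟩ : ∃ Sh : (Fin d → ℕ) × ℕ → Finset (Fin d → ℕ),
      ∀ p, Sh p = (Bx (fun i => p.1 i - p.2 / E) fun i => p.1 i + p.2) \
        Bx p.1 fun i => p.1 i + (p.2 - p.2 / E) := ⟨_, fun _ => rfl⟩
  obtain ⟨In, hIn⟩ : ∃ In : (Fin d → ℕ) × ℕ → Finset (Fin d → ℕ),
      ∀ p, In p = D.filter fun s' => Qb s' (r s' 0) ⊆ Qb p.1 p.2 := ⟨_, fun _ => rfl⟩
  obtain ⟨D1, hD1⟩ : ∃ D1 : Finset (Fin d → ℕ),
      D1 = D.filter fun s => E ≤ (P.filter fun p => s ∈ Big p).card := ⟨_, rfl⟩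
  have hcover : D ⊆ D1 ∪ P.biUnion fun p => In p ∪ Sh p := by
    intro s hs
    by_cases hinj : Set.InjOn (c s) (range E : Finset ℕ)
    · rw [hD1]
      refine mem_union_left _ (mem_filter.2 ⟨hs, ?_⟩)
      have := card_le_card_of_injOn (c s) (t := P.filter fun p => s ∈ Big p) (fun l hl => ?_) hinj
      · simpa using this
      · have hl' : l < E := by simpa using hl
        refine mem_coe.2 (mem_filter.2 ⟨hcP s hs l hl', ?_⟩)
        rw [hBig]
        refine mem_Bx.2 fun i => ?_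
        have e1 := hc1 s hs l hl'
        have e2 := hc2 s hs l hl' i
        omega
    · have key : ∃ l l', l < l' ∧ l' < E ∧ c s l = c s l' := by
        by_contra hno
        apply hinj
        intro l hl l' hl' h
        have e1 : l < E := by simpa using hl
        have e2 : l' < E := by simpa using hl'
        rcases lt_trichotomy l l' with e3 | e3 | e3
        · exact absurd ⟨l, l', e3, e2, h⟩ hno
        · exact e3
        · exact absurd ⟨l', l, e3, e1, h.symm⟩ hno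
      obtain ⟨l, l', hl, hl', h⟩ := key
      have hlE : l < E := hl.trans hl'
      have e1 : E * r s l ≤ (c s l).2 := by
        have e2 := hr s hs l (by omega)
        have e3 := hmono' s hs (l + 1) l' hl hl'
        have e4 := hc1 s hs l' hl'
        rw [← h] at e4
        omega
      have e2 : r s l ≤ (c s l).2 / E := (Nat.le_div_iff_mul_le hE).2 (by rwa [mul_comm])
      have e3 : r s 0 ≤ r s l := hmono' s hs 0 l (Nat.zero_le _) hlE
      have e4 : (c s l).2 / E ≤ (c s l).2 := Nat.div_le_self _ _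
      refine mem_union_right _ (mem_biUnion.2 ⟨c s l, hcP s hs l hlE, ?_⟩)
      rw [hIn, hSh]
      generalize (c s l).2 / E = u at e2 e4
      by_cases hin : s ∈ Bx (c s l).1 fun i => (c s l).1 i + ((c s l).2 - u)
      · refine mem_union_left _ (mem_filter.2 ⟨hs, fun z hz => mem_Qb.2 fun i => ?_⟩)
        have e5 := mem_Bx.1 hin i
        have e6 := mem_Qb.1 hz i
        omega
      · refine mem_union_right _ (mem_sdiff.2 ⟨mem_Bx.2 fun i => ?_, hin⟩)
        have e5 := hc2 s hs l hlE i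
        omega
  have hE' : (0 : ℝ) < E := by exact_mod_cast hE
  have hA : (D1.card : ℝ) ≤ ∑ p ∈ P, 2 ^ d / E * (p.2 : ℝ) ^ d := by
    have e1 := cuV_markov P D1 Big E fun s hs => by
      rw [hD1] at hs
      exact (mem_filter.1 hs).2
    have e2 : ∑ p ∈ P, (Big p).card ≤ ∑ p ∈ P, (2 * p.2) ^ d :=
      sum_le_sum fun p _ => by
        rw [hBig]
        exact card_Bx_le fun i => by omega
    have e3 : (E : ℝ) * D1.card ≤ ∑ p ∈ P, (2 * (p.2 : ℝ)) ^ d := by exact_mod_cast e1.trans e2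
    rw [← mul_sum, div_mul_eq_mul_div, le_div_iff₀ hE', mul_comm, mul_sum]
    simpa only [mul_pow] using e3
  have hB : ∀ p ∈ P, ((In p ∪ Sh p).card : ℝ) ≤ (φ + (d : ℝ) * 2 ^ d / E) * (p.2 : ℝ) ^ d := by
    intro p hp
    obtain ⟨e1, l, hl, e2⟩ := hP p hp
    have e3 : ((In p).card : ℝ) ≤ φ * (p.2 : ℝ) ^ d := by
      rw [hIn, e2]
      exact hφ p.1 e1 l hl _ (filter_subset _ _) fun s' hs' => (mem_filter.1 hs').2
    have e4 : p.2 / E ≤ p.2 := Nat.div_le_self _ _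
    have e9 : ((p.2 / E : ℕ) : ℝ) ≤ p.2 / E := Nat.cast_div_le
    have e5 : ((Sh p).card : ℝ) ≤
        ((2 * (p.2 / E) : ℕ) : ℝ) * d * ((2 * p.2 : ℕ) : ℝ) ^ (d - 1) := by
      rw [hSh]
      generalize p.2 / E = u at e4
      exact shell (A := p.2 + u) (B := p.2 - u) (fun i => by omega) (fun i => by omega)
        (fun i => by omega) (fun i => by omega) (by omega) (by omega) (by omega)
    have e10 : (2 * (p.2 : ℝ)) ^ d = (2 * p.2) * (2 * p.2) ^ (d - 1) := by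
      rw [← pow_succ']
      congr 1
      omega
    have e7 : ((Sh p).card : ℝ) ≤ (d : ℝ) * 2 ^ d / E * (p.2 : ℝ) ^ d := by
      rw [Nat.cast_mul, Nat.cast_mul, Nat.cast_ofNat] at e5
      calc ((Sh p).card : ℝ) ≤ 2 * ((p.2 : ℝ) / E) * d * (2 * p.2) ^ (d - 1) :=
            e5.trans (by gcongr)
        _ = d * ((2 * p.2) * (2 * (p.2 : ℝ)) ^ (d - 1)) / E := by ring
        _ = (d : ℝ) * 2 ^ d / E * (p.2 : ℝ) ^ d := by
            rw [← e10, mul_pow]
            ring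
    have e8 : ((In p ∪ Sh p).card : ℝ) ≤ (In p).card + (Sh p).card := by
      exact_mod_cast card_union_le _ _
    rw [add_mul]
    linarith
  have hC : (D.card : ℝ) ≤ D1.card + ∑ p ∈ P, ((In p ∪ Sh p).card : ℝ) := by
    have e1 := (card_le_card hcover).trans (card_union_le _ _)
    have e2 : (P.biUnion fun p => In p ∪ Sh p).card ≤ ∑ p ∈ P, (In p ∪ Sh p).card :=
      card_biUnion_le
    exact_mod_cast e1.trans (Nat.add_le_add_left e2 _)
  have hD := sum_le_sum hB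
  calc (D.card : ℝ) ≤ ∑ p ∈ P, 2 ^ d / E * (p.2 : ℝ) ^ d +
        ∑ p ∈ P, (φ + (d : ℝ) * 2 ^ d / E) * (p.2 : ℝ) ^ d := by linarith
    _ = (φ + (d + 1) * 2 ^ d / E) * ∑ p ∈ P, (p.2 : ℝ) ^ d := by
        rw [← mul_sum, ← mul_sum]
        ring

end Pool.Agent.P.MP_05754a_lc.Cu
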