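import Mathlib

set_option autoImplicit false

namespace Pool.Agent.P.MP_05754a_lc

/-- the set of infinite binary sequences that start with the string `x` -/
def cylOf (x : List Bool) : Set (ℕ → Bool) := {ω | ∀ i : Fin x.length, ω i = x.get i}

/-- a uniformly effectively open family of subsets of Cantor space -/
def EffOpenFam {ι : Type} [Primcodable ι] (U : ι → Set (ℕ → Bool)) : Prop :=
  ∃ W : ι × List Bool → Prop, REPred W ∧ ∀ i, U i = ⋃ x ∈ {x | W (i, x)}, cylOf x

/-- lower semicomputable real function; the pair `(z, n)` codes the rational `z / (n + 1)` -/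
def LowerSemicomp (f : (ℕ → Bool) → ℝ) : Prop :=
  EffOpenFam fun q : ℤ × ℕ => {ω | (q.1 : ℝ) / ((q.2 : ℝ) + 1) < f ω}

/-- Martin-Loef randomness with respect to the measure `P` -/
def MLRand (P : MeasureTheory.Measure (ℕ → Bool)) (ω : ℕ → Bool) : Prop :=
  ¬ ∃ U : ℕ → Set (ℕ → Bool), EffOpenFam U ∧ Antitone U ∧ (∀ m, P (U m) ≤ 2⁻¹ ^ m) ∧
    ω ∈ ⋂ m, U m

end Pool.Agent.P.MP_05754a_lc
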