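import Pool.Agent.P.MP_05754a_lc.Defs

set_option autoImplicit false

namespace Pool.Agent.P.MP_05754a_lc

/-- a family of sets that is uniformly effectively open relative to the domain `D` -/
def EffOpenOn {ι : Type} [Primcodable ι] (D : Set (ℕ → Bool)) (S : ι → Set (ℕ → Bool)) : Prop :=
  ∃ V : ι → Set (ℕ → Bool), EffOpenFam V ∧ ∀ i, D ∩ S i = D ∩ V i

end Pool.Agent.P.MP_05754a_lc
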