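import Pool.Agent.P.MP_05754a_lc.Greedy

set_option autoImplicit false

namespace Pool.Agent.P.MP_05754a_lc

open Finset

/-- nonnegative superadditive interval functions; `G s n` is the value of `[s, s + n)` -/
def SupAdd (G : ℕ → ℕ → ℝ) : Prop :=
  (∀ s n, 0 ≤ G s n) ∧ ∀ s m n, G s m + G (s + m) n ≤ G s (m + n)

def Cr (G : ℕ → ℕ → ℝ) (a b : ℝ) (j s hi : ℕ) : Prop :=
  CrossSeq (fun m => b * m < G s m) (fun m => s + m ≤ hi ∧ G s m < a * m) j

def Wit (G : ℕ → ℕ → ℝ) (a b : ℝ) (J s hi : ℕ) (x y : ℕ → ℕ) : Prop :=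
  ∀ q < J, x q < y q ∧ (q + 1 < J → y q ≤ x (q + 1)) ∧ b * x q < G s (x q) ∧
    s + y q ≤ hi ∧ G s (y q) < a * y q

def Bd (G : ℕ → ℕ → ℝ) (a b : ℝ) (j : ℕ) (φ : ℝ) : Prop :=
  ∀ (lo hi : ℕ) (D : Finset ℕ), lo ≤ hi → (∀ s ∈ D, lo ≤ s ∧ s < hi ∧ Cr G a b j s hi) →
    (D.card : ℝ) ≤ φ * ((hi : ℝ) - lo)

section
variable {G : ℕ → ℕ → ℝ} {a b : ℝ} {J s hi : ℕ} {x y : ℕ → ℕ}

lemma SupAdd.mono (hG : SupAdd G) (s : ℕ) {m n : ℕ} (h : m ≤ n) : G s m ≤ G s n := by
  obtain ⟨k, rfl⟩ := Nat.exists_eq_add_of_le h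
  linarith [hG.2 s m k, hG.1 (s + m) k]

lemma Wit.xmono (h : Wit G a b J s hi x y) {q q' : ℕ} (hq : q ≤ q') (hJ : q' < J) :
    x q ≤ x q' := by
  induction hq with
  | refl => exact le_rfl
  | @step m _ ih =>
    have := h m (by omega)
    have h2 := this.2.1 hJ
    have := ih (by omega)
    rw [Nat.succ_eq_add_one]
    omega

lemma Wit.pos (hG : SupAdd G) (h : Wit G a b J s hi x y) {q : ℕ} (hq : q < J) : 1 ≤ x q := by
  by_contra hc
  have h0 : x q = 0 := by omega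
  have h1 := (h q hq).2.2.1
  have h2 := hG.2 s 0 0
  simp only [h0, Nat.cast_zero, mul_zero, add_zero] at h1 h2
  linarith

lemma Wit.grow (hG : SupAdd G) (ha : 0 ≤ a) (hb : 0 ≤ b) (h : Wit G a b J s hi x y) (q r : ℕ)
    (hJ : q + r < J) : b ^ r * x q ≤ a ^ r * x (q + r) := by
  induction r with
  | zero => simp
  | succ r ih =>
    obtain ⟨h1, h2, h3, -, h5⟩ := h (q + r) (by omega)
    have h6 : (y (q + r) : ℝ) ≤ x (q + r + 1) := by exact_mod_cast h2 (by omega)
    have h7 := hG.mono s h1.le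
    have h8 : b * x (q + r) ≤ a * x (q + r + 1) := by nlinarith
    have h9 := mul_le_mul_of_nonneg_left (ih (by omega)) hb
    have h10 := mul_le_mul_of_nonneg_left h8 (pow_nonneg ha r)
    rw [← add_assoc, pow_succ, pow_succ]
    nlinarith

lemma Wit.restrict (h : Wit G a b J s hi x y) {j hi' : ℕ} (hj : j < J) (hx : s + x j ≤ hi') :
    Cr G a b j s hi' := by
  refine ⟨x, y, fun q hq => ?_⟩
  obtain ⟨h1, h2, h3, -, h5⟩ := h q (by omega)
  have := h.xmono (show q + 1 ≤ j by omega) hj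
  have := h2 (by omega)
  exact ⟨h1, fun _ => this, h3, by omega, h5⟩

lemma small_of {η : ℝ} {r : ℕ} (hb : 0 < b) (hr : 2 * a ^ r ≤ η ^ 2 * b ^ r) {u l : ℝ}
    (hl : 0 ≤ l) (h : b ^ r * u ≤ a ^ r * l) : 2 * u ≤ η ^ 2 * l := by
  have hp := pow_pos hb r
  have h1 := mul_le_mul_of_nonneg_right hr hl
  refine le_of_mul_le_mul_left ?_ hp
  nlinarith

lemma stepLow (hG : SupAdd G) (ha : 0 ≤ a) (hb : 0 < b) {η φ : ℝ} {r j : ℕ} (hη : 0 < η)
    (hη1 : η ≤ 1) (hφ : 0 ≤ φ) (hr : 2 * a ^ r ≤ η ^ 2 * b ^ r) (hB : Bd G a b j φ) (lo n : ℕ)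
    (hlow : G lo n < a * n) (D : Finset ℕ)
    (hD : ∀ s ∈ D, lo ≤ s ∧ Cr G a b (j + r + 1) s (lo + n)) :
    (D.card : ℝ) ≤ (φ + 2 * η) * (a / b) * n := by
  have hex : ∀ s, ∃ x y, s ∈ D → Wit G a b (j + r + 1) s (lo + n) x y := by
    intro s
    by_cases hs : s ∈ D
    · obtain ⟨x, y, h⟩ := (hD s hs).2
      exact ⟨x, y, fun _ => h⟩
    · exact ⟨id, id, fun h => absurd h hs⟩
  choose x y hw using hex
  have key := greedy D (fun s => x s j) (fun s => x s (j + r))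
    (fun p => G p (lo + n - p) / b) φ η (lo + n) hη hη1 hφ
    (fun p _ => div_nonneg (hG.1 _ _) hb.le)
    (fun p q hpq hq => by
      refine div_le_div_of_nonneg_right ?_ hb.le
      have h1 := hG.2 p (q - p) (lo + n - q)
      rw [Nat.add_sub_cancel' hpq, show q - p + (lo + n - q) = lo + n - p by omega] at h1
      linarith [hG.1 p (q - p)])
    (fun s hs => by
      obtain ⟨h1, -, h3, h4, -⟩ := hw s hs (j + r) (by omega)
      refine ⟨by omega, (hw s hs).pos hG (by omega), ?_,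
        small_of hb hr (Nat.cast_nonneg _) ((hw s hs).grow hG ha hb.le j r (by omega)), ?_⟩
      · have h5 := hG.2 s (x s (j + r)) (lo + n - (s + x s (j + r)))
        rw [show x s (j + r) + (lo + n - (s + x s (j + r))) = lo + n - s by omega] at h5
        rw [le_div_iff₀ hb, add_mul, div_mul_cancel₀ _ hb.ne']
        linarith
      · have := hB s (s + x s (j + r))
          (D.filter fun s' => s ≤ s' ∧ s' + x s' j ≤ s + x s (j + r)) (by omega) fun s' hs' => by
            obtain ⟨e1, e2, e3⟩ := mem_filter.mp hs'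
            have := (hw s' e1).pos hG (show j < j + r + 1 by omega)
            exact ⟨e2, by omega, (hw s' e1).restrict (by omega) e3⟩
        simpa using this) lo (by omega)
  rw [filter_true_of_mem fun s hs => (hD s hs).1, Nat.add_sub_cancel_left] at key
  refine key.trans ?_
  rw [mul_assoc]
  refine mul_le_mul_of_nonneg_left ?_ (by linarith)
  rw [div_mul_eq_mul_div]
  exact div_le_div_of_nonneg_right hlow.le hb.le

lemma stepBd (hG : SupAdd G) (ha : 0 ≤ a) (hb : 0 < b) {η φ : ℝ} {r j : ℕ} (hη : 0 < η)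
    (hη1 : η ≤ 1) (hφ : 0 ≤ φ) (hr : 2 * a ^ r ≤ η ^ 2 * b ^ r) (hB : Bd G a b j φ) :
    Bd G a b (j + (2 * r + 2)) ((φ + 2 * η) * (a / b) + 2 * η) := by
  intro lo hi D hlo hD
  have hex : ∀ s, ∃ x y, s ∈ D → Wit G a b (j + (2 * r + 2)) s hi x y := by
    intro s
    by_cases hs : s ∈ D
    · obtain ⟨x, y, h⟩ := (hD s hs).2.2
      exact ⟨x, y, fun _ => h⟩
    · exact ⟨id, id, fun h => absurd h hs⟩
  choose x y hw using hex
  have key := greedy D (fun s => x s (j + r + 1)) (fun s => y s (j + r + 1 + r))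
    (fun p => (hi : ℝ) - p) ((φ + 2 * η) * (a / b)) η hi hη hη1 (by positivity)
    (fun p hp => sub_nonneg.mpr (by exact_mod_cast hp))
    (fun p q hpq _ => sub_le_sub_left (by exact_mod_cast hpq) _)
    (fun s hs => by
      obtain ⟨h1, -, -, h4, h5⟩ := hw s hs (j + r + 1 + r) (by omega)
      refine ⟨h4, by omega, by push_cast; linarith, small_of hb hr (Nat.cast_nonneg _)
        (((hw s hs).grow hG ha hb.le (j + r + 1) r (by omega)).trans
          (mul_le_mul_of_nonneg_left (by exact_mod_cast h1.le) (pow_nonneg ha r))), ?_⟩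
      exact stepLow hG ha hb hη hη1 hφ hr hB s _ h5 _ fun s' hs' => by
        obtain ⟨e1, e2, e3⟩ := mem_filter.mp hs'
        exact ⟨e2, (hw s' e1).restrict (by omega) e3⟩) lo hlo
  rwa [filter_true_of_mem fun s hs => (hD s hs).1] at key

end

/-- the number of crossings that forces density at most `1 / m` -/
def JJ (a m : ℕ) : ℕ := (2 * a * m) * (2 * (2 * a * (8 * (a + 1) * m) ^ 2 + 1) + 2)

lemma bern (a k : ℕ) : (k : ℝ) * (a : ℝ) ^ k ≤ a * ((a : ℝ) + 1) ^ k := by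
  have ha : (0 : ℝ) ≤ a := Nat.cast_nonneg _
  have : ∀ k : ℕ, ((a : ℝ) + k) * (a : ℝ) ^ k ≤ a * ((a : ℝ) + 1) ^ k := by
    intro k
    induction k with
    | zero => simp
    | succ k ih =>
      have h1 := mul_le_mul_of_nonneg_right ih (by linarith : (0 : ℝ) ≤ a + 1)
      have h2 : (0 : ℝ) ≤ (a : ℝ) ^ k := pow_nonneg ha k
      have h3 : (0 : ℝ) ≤ k * (a : ℝ) ^ k := by positivity
      push_cast
      rw [pow_succ, pow_succ]
      nlinarith
  have h2 : (0 : ℝ) ≤ a * (a : ℝ) ^ k := by positivity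
  nlinarith [this k]

theorem down {G : ℕ → ℕ → ℝ} (hG : SupAdd G) (a m : ℕ) (ha0 : 0 < a) (hm : 0 < m) :
    Bd G a (a + 1) (JJ a m) (1 / m) := by
  have ha : (0 : ℝ) ≤ a := Nat.cast_nonneg _
  have hm' : (1 : ℝ) ≤ m := by exact_mod_cast hm
  have hb : (0 : ℝ) < a + 1 := by linarith
  set E : ℕ := 8 * (a + 1) * m with hE
  have hE' : (E : ℝ) = 8 * (a + 1) * m := by simp [hE]
  have hE1 : (1 : ℝ) ≤ E := by rw [hE']; nlinarith
  set η : ℝ := 1 / E with hη
  have η0 : 0 < η := by positivity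
  have η1 : η ≤ 1 := by rw [hη, div_le_one (by linarith)]; exact hE1
  set r := 2 * a * E ^ 2 + 1 with hr
  have hrr : 2 * (a : ℝ) ^ r ≤ η ^ 2 * ((a : ℝ) + 1) ^ r := by
    have ha1 : (0 : ℝ) < a := by exact_mod_cast ha0
    have h1 := bern a r
    have h2 : (r : ℝ) = 2 * a * E ^ 2 + 1 := by simp [hr]
    have h3 : (0 : ℝ) ≤ (a : ℝ) ^ r := by positivity
    have h4 : (a : ℝ) * (2 * E ^ 2 * (a : ℝ) ^ r) ≤ a * ((a : ℝ) + 1) ^ r := by
      rw [h2] at h1; nlinarith
    have h5 := le_of_mul_le_mul_left h4 ha1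
    rw [hη, div_pow, one_pow, div_mul_eq_mul_div, one_mul, le_div_iff₀ (by positivity)]
    linarith
  have hρ : (a : ℝ) / (a + 1) ≤ 1 := by rw [div_le_one hb]; linarith
  have hρ0 : (0 : ℝ) ≤ a / (a + 1) := by positivity
  have iter : ∀ k, Bd G a (a + 1) (k * (2 * r + 2)) ((a / (a + 1)) ^ k + 4 * η * (a + 1)) := by
    intro k
    induction k with
    | zero =>
      intro lo hi D hlo hD
      have h1 : D.card ≤ hi - lo := by
        rw [← Nat.card_Ico]
        exact card_le_card fun s hs => mem_Ico.mpr ⟨(hD s hs).1, (hD s hs).2.1⟩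
      have h2 : (D.card : ℝ) ≤ (hi : ℝ) - lo := by
        rw [← Nat.cast_sub hlo]; exact_mod_cast h1
      have h3 : (0 : ℝ) ≤ (hi : ℝ) - lo := (Nat.cast_nonneg _).trans h2
      have h4 : 0 ≤ 4 * η * (a + 1) * ((hi : ℝ) - lo) := by positivity
      rw [pow_zero]
      linarith
    | succ k ih =>
      intro lo hi D hlo hD
      rw [Nat.succ_mul] at hD
      refine (stepBd hG ha hb η0 η1 (by positivity) hrr ih lo hi D hlo hD).trans
        (mul_le_mul_of_nonneg_right ?_ (sub_nonneg.mpr (by exact_mod_cast hlo)))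
      have h1 : 4 * η * (a + 1) * (a / (a + 1)) = 4 * η * a := by field_simp
      have h2 := mul_le_mul_of_nonneg_left hρ η0.le
      rw [pow_succ]
      nlinarith
  intro lo hi D hlo hD
  refine (iter (2 * a * m) lo hi D hlo hD).trans
    (mul_le_mul_of_nonneg_right ?_ (sub_nonneg.mpr (by exact_mod_cast hlo)))
  have ha1 : (0 : ℝ) < a := by exact_mod_cast ha0
  have h1 : 4 * η * (a + 1) = 1 / (2 * m) := by rw [hη, hE']; field_simp; norm_num
  have h2 : ((a : ℝ) / (a + 1)) ^ (2 * a * m) ≤ 1 / (2 * m) := by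
    have h3 := bern a (2 * a * m)
    have h4 : (a : ℝ) * (2 * m * (a : ℝ) ^ (2 * a * m)) ≤ a * ((a : ℝ) + 1) ^ (2 * a * m) := by
      push_cast at h3; linarith
    have h5 := le_of_mul_le_mul_left h4 ha1
    rw [div_pow, div_le_div_iff₀ (by positivity) (by positivity)]
    linarith
  have h3 : (1 : ℝ) / m = 1 / (2 * m) + 1 / (2 * m) := by field_simp; norm_num
  linarith

end Pool.Agent.P.MP_05754a_lc
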