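import Pool.Agent.P.MP_05754a_lc.Bishop

set_option autoImplicit false

namespace Pool.Agent.P.MP_05754a_lc

open Finset

/-- one pass greedy covering by long intervals, short intervals being negligible -/
lemma greedy (D : Finset ℕ) (u l : ℕ → ℕ) (Ψ : ℕ → ℝ) (φ η : ℝ) (hi : ℕ) (hη : 0 < η)
    (hη1 : η ≤ 1) (hφ : 0 ≤ φ) (Ψ0 : ∀ p ≤ hi, 0 ≤ Ψ p)
    (Ψa : ∀ p q, p ≤ q → q ≤ hi → Ψ q ≤ Ψ p)
    (hD : ∀ s ∈ D, s + l s ≤ hi ∧ 1 ≤ l s ∧ l s + Ψ (s + l s) ≤ Ψ s ∧
      2 * (u s : ℝ) ≤ η ^ 2 * l s ∧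
      ((D.filter fun s' => s ≤ s' ∧ s' + u s' ≤ s + l s).card : ℝ) ≤ φ * l s) :
    ∀ p ≤ hi, ((D.filter fun s => p ≤ s).card : ℝ) ≤ (φ + 2 * η) * Ψ p := by
  have hK : 0 ≤ φ + 2 * η := by linarith
  have gen : ∀ p ≤ hi, (∀ s ∈ D, p ≤ s →
      ((D.filter fun s' => s ≤ s').card : ℝ) + η * l s ≤ (φ + 2 * η) * Ψ s) →
      ((D.filter fun s => p ≤ s).card : ℝ) ≤ (φ + 2 * η) * Ψ p := by
    intro p hp h
    rcases (D.filter fun s => p ≤ s).eq_empty_or_nonempty with he | hne
    · rw [he]; simpa using mul_nonneg hK (Ψ0 p hp)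
    obtain ⟨s, hs, hmin⟩ := exists_min_image _ id hne
    obtain ⟨h1, h2⟩ := mem_filter.mp hs
    have e : (D.filter fun s => p ≤ s) = D.filter fun s' => s ≤ s' := by
      ext x
      simp only [mem_filter]
      exact ⟨fun hx => ⟨hx.1, hmin x (mem_filter.mpr hx)⟩, fun hx => ⟨hx.1, h2.trans hx.2⟩⟩
    have h3 := h s h1 h2
    have h4 := mul_le_mul_of_nonneg_left (Ψa p s h2 (by have := (hD s h1).1; omega)) hK
    have h5 : 0 ≤ η * l s := by positivity
    rw [e]; linarith
  have main : ∀ n s, s ∈ D → hi - s = n →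
      ((D.filter fun s' => s ≤ s').card : ℝ) + η * l s ≤ (φ + 2 * η) * Ψ s := by
    intro n
    induction n using Nat.strong_induction_on with
    | _ n ih =>
    intro s hs hn
    obtain ⟨d1, d2, d3, d4, d5⟩ := hD s hs
    have hl : (1 : ℝ) ≤ l s := by exact_mod_cast d2
    by_cases hc : ∃ x ∈ D, s ≤ x ∧ x < s + l s ∧ s + l s < x + u x ∧
        η * l s < ((s + l s - x : ℕ) : ℝ)
    · obtain ⟨x, hx, x1, x2, x3, x4⟩ := hc
      have hu : ((s + l s - x : ℕ) : ℝ) ≤ u x := by exact_mod_cast (by omega)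
      have hxs : s < x := by
        rcases x1.lt_or_eq with h | rfl
        · exact h
        · exfalso
          have h1 : (l s : ℝ) < u s := by exact_mod_cast (by omega)
          have h2 : η ^ 2 ≤ 1 := pow_le_one₀ hη.le hη1
          nlinarith
      obtain ⟨e1, e2, -, e4, -⟩ := hD x hx
      have i1 := ih (hi - x) (by omega) x hx rfl
      have i2 := mul_le_mul_of_nonneg_left (Ψa s x x1 (by omega)) hK
      have c1 : (D.filter fun s' => s ≤ s').card
          ≤ (Ico s (s + l s)).card + (D.filter fun s' => x ≤ s').card := by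
        refine (card_le_card ?_).trans (card_union_le _ _)
        intro y hy
        simp only [mem_filter, mem_union, mem_Ico] at hy ⊢
        rcases lt_or_ge y x with h | h
        · left; omega
        · right; exact ⟨hy.1, h⟩
      rw [Nat.card_Ico, Nat.add_sub_cancel_left] at c1
      have c2 : ((D.filter fun s' => s ≤ s').card : ℝ)
          ≤ l s + (D.filter fun s' => x ≤ s').card := by exact_mod_cast c1
      have c3 : 2 * (l s : ℝ) ≤ η * l x := by
        have : η * (2 * l s) ≤ η * (η * l x) := by nlinarith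
        exact le_of_mul_le_mul_left this hη
      nlinarith
    · push Not at hc
      have i1 := gen (s + l s) d1 fun x hx hx' => ih (hi - x)
        (by have := (hD x hx).1; have := (hD x hx).2.1; omega) x hx rfl
      have c1 : (D.filter fun s' => s ≤ s').card
          ≤ (D.filter fun s' => s ≤ s' ∧ s' + u s' ≤ s + l s).card +
            ((Ico (s + l s - ⌊η * l s⌋₊) (s + l s)).card +
              (D.filter fun s' => s + l s ≤ s').card) := by
        refine (card_le_card ?_).trans ((card_union_le _ _).trans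
          (Nat.add_le_add_left (card_union_le _ _) _))
        intro y hy
        simp only [mem_filter, mem_union, mem_Ico] at hy ⊢
        rcases le_or_gt (y + u y) (s + l s) with h | h
        · exact Or.inl ⟨hy.1, hy.2, h⟩
        rcases lt_or_ge y (s + l s) with h' | h'
        · have := Nat.le_floor (hc y hy.1 hy.2 h' h)
          exact Or.inr (Or.inl ⟨by omega, h'⟩)
        · exact Or.inr (Or.inr ⟨hy.1, h'⟩)
      have c2 : (Ico (s + l s - ⌊η * l s⌋₊) (s + l s)).card ≤ ⌊η * l s⌋₊ := by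
        rw [Nat.card_Ico]; omega
      have c3 : ((Ico (s + l s - ⌊η * l s⌋₊) (s + l s)).card : ℝ) ≤ η * l s :=
        (Nat.cast_le.mpr c2).trans (Nat.floor_le (by positivity))
      have c4 : ((D.filter fun s' => s ≤ s').card : ℝ)
          ≤ (D.filter fun s' => s ≤ s' ∧ s' + u s' ≤ s + l s).card +
            ((Ico (s + l s - ⌊η * l s⌋₊) (s + l s)).card +
              (D.filter fun s' => s + l s ≤ s').card) := by exact_mod_cast c1
      have i2 := mul_le_mul_of_nonneg_left d3 hK
      nlinarith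
  exact fun p hp => gen p hp fun s hs _ => main _ s hs rfl

end Pool.Agent.P.MP_05754a_lc
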