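import Pool.Agent.P.MP_05754a_lc.Comp

set_option autoImplicit false

namespace Pool.Agent.P.MP_05754a_lc

open Pool.Agent.Lib.PrimrecProp

def mx (l : List ℕ) : ℕ := l.foldr (fun a b => max a b) 0

@[fun_prop] lemma p_max {α : Type} [Primcodable α] {f g : α → ℕ} (hf : Primrec f)
    (hg : Primrec g) : Primrec fun a => max (f a) (g a) := Primrec.nat_max.comp hf hg

lemma le_mx {l : List ℕ} {x : ℕ} (h : x ∈ l) : x ≤ mx l := by
  induction l with
  | nil => simp at h
  | cons a l ih =>
    have e : mx (a :: l) = max a (mx l) := rfl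
    rw [e]
    rcases List.mem_cons.mp h with rfl | h
    · exact le_max_left _ _
    · exact (ih h).trans (le_max_right _ _)

lemma mx_mem {l : List ℕ} (h : l ≠ []) : mx l ∈ l := by
  induction l with
  | nil => exact absurd rfl h
  | cons a l ih =>
    have e : mx (a :: l) = max a (mx l) := rfl
    rw [e]
    rcases eq_or_ne l [] with rfl | hl
    · simp [mx]
    · rcases le_total a (mx l) with h | h
      · rw [max_eq_right h]; exact List.mem_cons_of_mem _ (ih hl)
      · rw [max_eq_left h]; exact List.mem_cons_self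

/-- table of the best sums over decompositions of initial intervals -/
def hl (h : ℕ → ℕ → ℕ) (n : ℕ) : List ℕ :=
  (List.range n).foldl (fun acc m =>
    acc ++ [mx ((List.range (m + 1)).map fun k => acc.getD k 0 + h k (m + 1 - k))]) [0]

/-- the least superadditive majorant, evaluated on `[0, n)` -/
def hull (h : ℕ → ℕ → ℕ) (n : ℕ) : ℕ := (hl h n).getD n 0

section
variable {h h' : ℕ → ℕ → ℕ}

lemma hl_succ (n : ℕ) : hl h (n + 1) = hl h n ++
    [mx ((List.range (n + 1)).map fun k => (hl h n).getD k 0 + h k (n + 1 - k))] := by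
  conv_lhs => rw [hl, List.range_succ, List.foldl_append]
  rfl

lemma hl_length (n : ℕ) : (hl h n).length = n + 1 := by
  induction n with
  | zero => rfl
  | succ n ih => rw [hl_succ, List.length_append, ih]; rfl

lemma hl_getD {k n : ℕ} (hk : k ≤ n) : (hl h n).getD k 0 = hull h k := by
  induction hk with
  | refl => rfl
  | @step m hm ih =>
    have : k ≤ m := hm
    rw [hl_succ, List.getD_append _ _ _ _ (by rw [hl_length]; omega), ih]

lemma hull_zero : hull h 0 = 0 := rfl

lemma hull_succ (n : ℕ) : hull h (n + 1) =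
    mx ((List.range (n + 1)).map fun k => hull h k + h k (n + 1 - k)) := by
  rw [hull, hl_succ, List.getD_append_right _ _ _ _ (by rw [hl_length]), hl_length, Nat.sub_self,
    List.getD_cons_zero]
  congr 1
  exact List.map_congr_left fun k hk => by
    rw [hl_getD (Nat.lt_succ_iff.mp (List.mem_range.mp hk))]

lemma hull_ge {k n : ℕ} (hk : k < n) : hull h k + h k (n - k) ≤ hull h n := by
  obtain ⟨m, rfl⟩ : ∃ m, n = m + 1 := ⟨n - 1, by omega⟩
  rw [hull_succ]
  exact le_mx (List.mem_map.mpr ⟨k, List.mem_range.mpr hk, rfl⟩)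

lemma hull_eq {n : ℕ} (hn : 0 < n) : ∃ k < n, hull h n = hull h k + h k (n - k) := by
  obtain ⟨m, rfl⟩ : ∃ m, n = m + 1 := ⟨n - 1, by omega⟩
  have := mx_mem (l := (List.range (m + 1)).map fun k => hull h k + h k (m + 1 - k)) (by simp)
  rw [← hull_succ] at this
  obtain ⟨k, hk, e⟩ := List.mem_map.mp this
  exact ⟨k, List.mem_range.mp hk, e.symm⟩

lemma hull_mono (n : ℕ) (hh : ∀ k m, 1 ≤ m → k + m ≤ n → h k m ≤ h' k m) :
    hull h n ≤ hull h' n := by
  induction n using Nat.strong_induction_on with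
  | _ n ih =>
  rcases Nat.eq_zero_or_pos n with rfl | hn
  · exact le_rfl
  obtain ⟨k, hk, e⟩ := hull_eq (h := h) hn
  have h1 := ih k hk fun k' m h1 h2 => hh k' m h1 (by omega)
  have h2 := hh k (n - k) (by omega) (by omega)
  have h3 := hull_ge (h := h') hk
  omega

lemma hull_congr (n : ℕ) (hh : ∀ k m, 1 ≤ m → k + m ≤ n → h k m = h' k m) :
    hull h n = hull h' n :=
  (hull_mono n fun k m h1 h2 => (hh k m h1 h2).le).antisymm
    (hull_mono n fun k m h1 h2 => (hh k m h1 h2).ge)

lemma hull_sup (m n : ℕ) : hull h m + hull (fun k => h (m + k)) n ≤ hull h (m + n) := by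
  induction n using Nat.strong_induction_on with
  | _ n ih =>
  rcases Nat.eq_zero_or_pos n with rfl | hn
  · exact le_rfl
  obtain ⟨k, hk, e⟩ := hull_eq (h := fun k => h (m + k)) hn
  have h1 := ih k hk
  have h2 := hull_ge (h := h) (show m + k < m + n by omega)
  rw [show m + n - (m + k) = n - k by omega] at h2
  omega

lemma hull_le {Φ : ℕ → ℕ → ℝ} (h1 : ∀ k m, 1 ≤ m → (h k m : ℝ) ≤ Φ k m)
    (h2 : ∀ k m, 1 ≤ k → 1 ≤ m → Φ 0 k + Φ k m ≤ Φ 0 (k + m)) (n : ℕ) (hn : 1 ≤ n) :
    (hull h n : ℝ) ≤ Φ 0 n := by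
  induction n using Nat.strong_induction_on with
  | _ n ih =>
  obtain ⟨k, hk, e⟩ := hull_eq (h := h) hn
  rw [e]
  push_cast
  have h3 := h1 k (n - k) (by omega)
  rcases Nat.eq_zero_or_pos k with rfl | hk0
  · simpa [hull_zero] using h3
  have h4 := ih k hk hk0
  have h5 := h2 k (n - k) hk0 (by omega)
  rw [show k + (n - k) = n by omega] at h5
  linarith

lemma sum_le_hull (n : ℕ) : ∑ k ∈ Finset.range n, h k 1 ≤ hull h n := by
  induction n with
  | zero => simp
  | succ n ih =>
    have := hull_ge (h := h) (Nat.lt_succ_self n)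
    rw [Nat.succ_sub (le_refl n), Nat.sub_self] at this
    rw [Finset.sum_range_succ]
    exact (Nat.add_le_add_right ih _).trans this

end

end Pool.Agent.P.MP_05754a_lc
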