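import Pool.Agent.P.MP_05754a_lc.KTests

set_option autoImplicit false

namespace Pool.Agent.P.MP_05754a_lc

open MeasureTheory Finset Filter Topology Pool.Agent.Lib.PrimrecProp

theorem no_osc3 {S : ℕ → ℝ} {c : ℕ} (hc : ∀ n : ℕ, 1 ≤ n → -((c : ℝ) * n) ≤ S n)
    (hg : ∀ d : ℕ, ∃ G : ℕ → ℕ → ℕ → ℝ, (∀ n, Monotone fun t => G t 0 n) ∧
      (∀ t n, 1 ≤ n → G t 0 n ≤ (d + 1) * (S n + c * n)) ∧
      (∀ n, 1 ≤ n → ∃ t, (d + 1) * (S n + c * n) - n ≤ G t 0 n) ∧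
      ∀ a : ℕ, 0 < a → (¬ ∀ j, ∃ N, Y1 G a j N) ∧ ¬ ∀ j, ∃ N, Y2 G a j N) {α β : ℝ}
    (hαβ : α < β) (hlo : ∃ᶠ n : ℕ in atTop, S n / n < α)
    (hhi : ∃ᶠ n : ℕ in atTop, β < S n / n) : False := by
  obtain ⟨D, hD⟩ := exists_nat_ge (5 / (β - α))
  have hD0 : (0 : ℝ) < D + 1 := by positivity
  have hD5 : 5 ≤ (D + 1) * (β - α) := by
    rw [div_le_iff₀ (by linarith)] at hD
    nlinarith
  obtain ⟨G, gm, gle, Hge, hY⟩ := hg D
  rw [frequently_atTop] at hlo hhi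
  have hαc : 0 ≤ α + c := by
    obtain ⟨n, hn, h⟩ := hlo 1
    have hn' : (0 : ℝ) < n := by exact_mod_cast hn
    rw [div_lt_iff₀ hn'] at h
    have := hc n hn
    nlinarith
  set a : ℕ := ⌈(D + 1) * (α + c)⌉₊ + 1 with ha
  have a1 : (D + 1) * (α + c) ≤ a := by
    rw [ha]; push_cast; linarith [Nat.le_ceil ((D + 1) * (α + c))]
  have a2 : (a : ℝ) < (D + 1) * (α + c) + 2 := by
    rw [ha]; push_cast
    linarith [Nat.ceil_lt_add_one (show 0 ≤ (D + 1) * (α + c) by positivity)]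
  have Lo : ∀ N, ∃ n : ℕ, N ≤ n ∧ (1 ≤ n ∧ (D + 1) * (S n + c * n) < a * n) := by
    intro N
    obtain ⟨n, hn, h⟩ := hlo (N + 1)
    have hn' : (0 : ℝ) < n := by exact_mod_cast (by omega : 0 < n)
    rw [div_lt_iff₀ hn'] at h
    refine ⟨n, by omega, by omega, ?_⟩
    nlinarith
  have Hi : ∀ N, ∃ n : ℕ, N ≤ n ∧ (1 ≤ n ∧ ((a : ℝ) + 2) * n < (D + 1) * (S n + c * n) - n) := by
    intro N
    obtain ⟨n, hn, h⟩ := hhi (N + 1)
    have hn' : (0 : ℝ) < n := by exact_mod_cast (by omega : 0 < n)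
    rw [lt_div_iff₀ hn'] at h
    refine ⟨n, by omega, by omega, ?_⟩
    nlinarith
  have gge : ∀ N, ∃ t0, ∀ t, t0 ≤ t → ∀ n ≤ N, 1 ≤ n →
      (D + 1) * (S n + c * n) - n ≤ G t 0 n := by
    intro N
    choose! T hT using Hge
    refine ⟨(range (N + 1)).sup T, fun t ht n hn h1 => ?_⟩
    have h2 := Finset.le_sup (f := T) (mem_range.mpr (Nat.lt_succ_of_le hn))
    exact (hT n h1).trans (gm n (h2.trans ht))
  have diag : ∃ N, ∀ n, N ≤ n → G n 0 n ≤ ((a : ℝ) + 1) * n := by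
    by_contra hcon
    push Not at hcon
    refine (hY a (Nat.succ_pos _)).1 fun j => ?_
    obtain ⟨N, hN⟩ := cross_of_freq hcon (Lo := fun n => G n 0 n < a * n) (fun N => by
        obtain ⟨n, h1, h2, h3⟩ := Lo N
        exact ⟨n, h1, (gle n n h2).trans_lt h3⟩) j
    exact ⟨N, hN.mono (fun _ _ h => h.2) fun _ h => h⟩
  obtain ⟨N1, hN1⟩ := diag
  refine (hY a (Nat.succ_pos _)).2 fun j => ?_
  obtain ⟨N, hN⟩ := cross_of_freq Hi Lo j
  obtain ⟨t0, ht0⟩ := gge N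
  obtain ⟨n, hn, hn1, hhn⟩ := Hi (N + N1 + 2 ^ t0)
  have hpos := Nat.one_le_two_pow (n := t0)
  have hlog : t0 ≤ Nat.log 2 n := Nat.le_log_of_pow_le (by norm_num) (by omega)
  obtain ⟨t, ht⟩ := gge n
  refine ⟨max n t, n, t, le_max_left _ _, le_max_right _ _, hn1,
    (gm n (Nat.log_le_self 2 n)).trans (hN1 n (by omega)),
    hhn.trans_le (ht t le_rfl n le_rfl hn1), ?_⟩
  refine hN.mono (fun m _ h => ?_) fun m h => ⟨by omega, (gle t m h.2.1).trans_lt h.2.2⟩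
  have h1 := h.2.2.trans_le (ht0 _ hlog m h.1 h.2.1)
  have h2 : (0 : ℝ) ≤ m := Nat.cast_nonneg _
  linarith

theorem conv_of {S : ℕ → ℝ} {c : ℕ} (hc : ∀ n : ℕ, 1 ≤ n → -((c : ℝ) * n) ≤ S n)
    (h : ∀ α β : ℝ, α < β → (∃ᶠ n : ℕ in atTop, S n / n < α) →
      (∃ᶠ n : ℕ in atTop, β < S n / n) → False) :
    (∃ L : ℝ, Tendsto (fun n : ℕ => S n / n) atTop (𝓝 L)) ∨
      Tendsto (fun n : ℕ => S n / n) atTop atTop := by
  set u : ℕ → ℝ := fun n => S n / n with hu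
  have hlow : ∀ n, -(c : ℝ) ≤ u n := by
    intro n
    rcases Nat.eq_zero_or_pos n with rfl | hn
    · simp [hu]
    · have hn' : (0 : ℝ) < n := by exact_mod_cast hn
      simp only [hu]
      rw [le_div_iff₀ hn']
      linarith [hc n hn]
  by_cases htop : Tendsto u atTop atTop
  · exact Or.inr htop
  left
  rw [tendsto_atTop] at htop
  push Not at htop
  obtain ⟨M, hM⟩ := htop
  have hup : ∀ᶠ n in atTop, u n ≤ M + 1 := by
    by_contra h'
    rw [not_eventually] at h'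
    exact h _ _ (lt_add_one M) hM (h'.mono fun n hn => not_le.mp hn)
  exact tendsto_of_no_upcrossings (s := Set.univ) dense_univ
    (fun α _ β _ hαβ h' => h _ _ hαβ h'.1 h'.2) ⟨M + 1, hup⟩
    ⟨-c, eventually_map.mpr (Eventually.of_forall hlow)⟩

theorem kingman (T : (ℕ → Bool) → ℕ → Bool) (D : Set (ℕ → Bool))
    (hT : EffOpenOn D fun x : List Bool => T ⁻¹' cylOf x) :
    ∃ U : ℕ → Set (ℕ → Bool), EffOpenFam U ∧ Antitone U ∧
      (∀ (P : Measure (ℕ → Bool)) [IsProbabilityMeasure P], MeasurePreserving T P P →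
        (∀ᵐ ω ∂P, ω ∈ D) → ∀ m, P (U m) ≤ 2⁻¹ ^ m) ∧
      ∀ ω, (∀ k, T^[k] ω ∈ D) → ω ∉ ⋂ m, U m →
        ∀ F : ℕ → (ℕ → Bool) → ℝ,
          (EffOpenOn D fun q : ℕ × ℤ × ℕ => {ω | (q.2.1 : ℝ) / ((q.2.2 : ℝ) + 1) < F q.1 ω}) →
          (BddBelow (Set.range fun k => F 1 (T^[k] ω))) →
          (∀ k m n, 1 ≤ m → 1 ≤ n →
            F m (T^[k] ω) + F n (T^[k + m] ω) ≤ F (m + n) (T^[k] ω)) →
          (∃ L : ℝ, Tendsto (fun n : ℕ => F n ω / n) atTop (𝓝 L)) ∨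
            Tendsto (fun n : ℕ => F n ω / n) atTop atTop := by
  obtain ⟨H, hH, Hm, Happ⟩ := approx_univ
  obtain ⟨U, h1, h2, h3, h4⟩ := the_test hH Hm hT
  refine ⟨U, h1, h2, h3, fun ω hω hU F hF ⟨b, hb⟩ hs => ?_⟩
  obtain ⟨c, hc⟩ := exists_nat_gt (-b)
  have hc' : ∀ n : ℕ, 1 ≤ n → ∀ k, -((c : ℝ) * n) ≤ F n (T^[k] ω) := by
    intro n hn
    induction hn with
    | refl =>
      intro k
      have := hb (Set.mem_range_self k)
      simp only [Nat.cast_one, mul_one]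
      linarith
    | @step m hm ih =>
      intro k
      have h5 := hs k m 1 hm le_rfl
      have h6 := hb (Set.mem_range_self (k + m))
      have h7 := ih k
      rw [Nat.succ_eq_add_one]
      push_cast
      linarith
  refine conv_of (S := fun n => F n ω) (fun n hn => hc' n hn 0) fun α β hαβ hlo hhi =>
    no_osc3 (S := fun n => F n ω) (fun n hn => hc' n hn 0) (fun d => ?_) hαβ hlo hhi
  obtain ⟨e, he⟩ := Happ D F hF
  have hi := he d c
  set i := Nat.pair e (Nat.pair c d)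
  have hd : (0 : ℝ) ≤ d + 1 := by positivity
  refine ⟨GG H T i ω, GG_mono Hm _ ω 0, fun t n hn => ?_, fun n hn => ?_, h4 ω hω hU _⟩
  · exact hull_le (h := fun k m => H (i, m, t, pre (T^[0 + k] ω) t))
      (Φ := fun s m => (d + 1) * (F m (T^[s] ω) + c * m))
      (fun k m hm => by
        rw [zero_add]; exact (hi _ (hω k) m (hc' m hm k)).1 t)
      (fun k m hk hm => by
        have := mul_le_mul_of_nonneg_left (hs 0 k m hk hm) hd
        rw [zero_add] at this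
        push_cast
        linarith) n hn
  · obtain ⟨t, ht⟩ := (hi ω (hω 0) n (hc' n hn 0)).2
    refine ⟨t, ?_⟩
    have h5 := hull_ge (h := fun k m => H (i, m, t, pre (T^[0 + k] ω) t)) (show 0 < n from hn)
    rw [hull_zero, zero_add] at h5
    have h6 : (H (i, n, t, pre ω t) : ℝ) ≤ GG H T i ω t 0 n := Nat.cast_le.mpr h5
    have h7 : (1 : ℝ) ≤ n := by exact_mod_cast hn
    linarith

end Pool.Agent.P.MP_05754a_lc
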