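import Pool.Agent.P.MP_05754a_lc.Univ
import Pool.Agent.P.MP_05754a_lc.Catch2
import Pool.Agent.P.MP_05754a_lc.Hull

set_option autoImplicit false

namespace Pool.Agent.P.MP_05754a_lc

open MeasureTheory Pool.Agent.Lib.PrimrecProp Finset

section
variable {H : ℕ × ℕ × ℕ × List Bool → ℕ} {T : (ℕ → Bool) → ℕ → Bool}

/-- superadditive approximations along the orbit: time `t`, start `s`, length `n` -/
noncomputable def GG (H : ℕ × ℕ × ℕ × List Bool → ℕ) (T : (ℕ → Bool) → ℕ → Bool) (i : ℕ)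
    (ω : ℕ → Bool) (t s n : ℕ) : ℝ :=
  hull (fun k m => H (i, m, t, pre (T^[s + k] ω) t)) n

lemma GG_it (i : ℕ) (ω : ℕ → Bool) (s t n : ℕ) :
    GG H T i (T^[s] ω) t 0 n = GG H T i ω t s n := by
  simp only [GG, zero_add, add_comm s, Function.iterate_add_apply]

lemma GG_sup (i : ℕ) (ω : ℕ → Bool) (t : ℕ) : SupAdd (GG H T i ω t) := by
  refine ⟨fun _ _ => Nat.cast_nonneg _, fun s m n => ?_⟩
  have := hull_sup (h := fun k m => H (i, m, t, pre (T^[s + k] ω) t)) m n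
  simp only [← add_assoc] at this
  simp only [GG]
  exact_mod_cast this

lemma GG_mono (Hm : ∀ i n ω, Monotone fun t => H (i, n, t, pre ω t)) (i : ℕ) (ω : ℕ → Bool)
    (s n : ℕ) : Monotone fun t => GG H T i ω t s n :=
  fun _ _ h => Nat.cast_le.mpr (hull_mono n fun _ _ _ _ => Hm _ _ _ h)

def cH (H : ℕ × ℕ × ℕ × List Bool → ℕ) (i : ℕ) (A : List (List Bool)) (t n : ℕ) : ℕ :=
  hull (fun k m => H (i, m, t, (A.getD k []).take t)) n

lemma cH_eq (i : ℕ) (ω : ℕ → Bool) {M t n : ℕ} (hn : n ≤ M) (ht : t ≤ M) :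
    (cH H i (orb T ω M) t n : ℝ) = GG H T i ω t 0 n := by
  rw [cH, GG, hull_congr n fun k m h1 h2 => ?_]
  rw [orb_get T ω (by omega) ht, zero_add]

lemma p_cH0 (hH : Primrec H) :
    Primrec fun p : ℕ × List (List Bool) × ℕ × ℕ => cH H p.1 p.2.1 p.2.2.1 p.2.2.2 := by
  unfold cH hull hl mx
  fun_prop

@[fun_prop] lemma p_cH {α : Type} [Primcodable α] (hH : Primrec H) {f1 : α → ℕ}
    {f2 : α → List (List Bool)} {f3 f4 : α → ℕ} (h1 : Primrec f1) (h2 : Primrec f2)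
    (h3 : Primrec f3) (h4 : Primrec f4) : Primrec fun a => cH H (f1 a) (f2 a) (f3 a) (f4 a) :=
  (p_cH0 hH).comp (h1.pair (h2.pair (h3.pair h4)))

def R1 (H : ℕ × ℕ × ℕ × List Bool → ℕ) (i a j N : ℕ) (w : ℕ × ℕ × ℕ × List ℕ × List ℕ)
    (A : List (List Bool)) : Bool :=
  chk (fun n => leb ((a + 1) * n + 1) (cH H i A n n))
    (fun n => leb n N && leb (cH H i A n n + 1) (a * n)) j w.2.2.2.1 w.2.2.2.2

def Y1 (G : ℕ → ℕ → ℕ → ℝ) (a : ℝ) (j N : ℕ) : Prop :=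
  CrossSeq (fun n => (a + 1) * n < G n 0 n) (fun n => n ≤ N ∧ G n 0 n < a * n) j

lemma Y1_iff (i a j N : ℕ) (ω : ℕ → Bool) :
    Y1 (GG H T i ω) a j N ↔ ∃ w, R1 H i a j N w (orb T ω (2 * N)) = true := by
  simp only [R1, Prod.exists, exists_const, chk_iff, Y1, leb_iff, Bool.and_eq_true]
  constructor
  · intro h
    refine h.mono (fun n ⟨m, h1, h2, _⟩ h3 => ?_) fun n ⟨h1, h2⟩ => ⟨h1, ?_⟩
    · rw [← cH_eq i ω (show n ≤ 2 * N by omega) (show n ≤ 2 * N by omega)] at h3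
      exact_mod_cast h3
    · rw [← cH_eq i ω (show n ≤ 2 * N by omega) (show n ≤ 2 * N by omega)] at h2
      exact_mod_cast h2
  · intro h
    refine h.mono (fun n ⟨m, h1, h2, _⟩ h3 => ?_) fun n ⟨h1, h2⟩ => ⟨h1, ?_⟩
    · rw [← cH_eq i ω (show n ≤ 2 * N by omega) (show n ≤ 2 * N by omega)]
      exact_mod_cast h3
    · rw [← cH_eq i ω (show n ≤ 2 * N by omega) (show n ≤ 2 * N by omega)]
      exact_mod_cast h2

def R2 (H : ℕ × ℕ × ℕ × List Bool → ℕ) (i a j N : ℕ) (w : ℕ × ℕ × ℕ × List ℕ × List ℕ)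
    (A : List (List Bool)) : Bool :=
  leb w.1 N && leb w.2.1 N && leb (2 ^ w.2.2.1) w.1 && leb (w.1 + 1) (2 ^ (w.2.2.1 + 1)) &&
    leb (cH H i A w.2.2.1 w.1) ((a + 1) * w.1) &&
    leb ((a + 2) * w.1 + 1) (cH H i A w.2.1 w.1) &&
    chk (fun m => leb ((a + 1) * m + 1) (cH H i A w.2.2.1 m))
      (fun m => leb m w.1 && leb (cH H i A w.2.1 m + 1) (a * m)) j w.2.2.2.1 w.2.2.2.2

def Y2 (G : ℕ → ℕ → ℕ → ℝ) (a : ℝ) (j N : ℕ) : Prop :=
  ∃ n t, n ≤ N ∧ t ≤ N ∧ Caught2 G a j 0 n t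

lemma Y2_iff (i a j N : ℕ) (ω : ℕ → Bool) :
    Y2 (GG H T i ω) a j N ↔ ∃ w, R2 H i a j N w (orb T ω (2 * N)) = true := by
  simp only [R2, Prod.exists, Y2, leb_iff, Bool.and_eq_true, exists_and_left, chk_iff]
  constructor
  · rintro ⟨n, hn, t, ht, h1, h2, h3, h4⟩
    have hl := Nat.log_le_self 2 n
    refine ⟨n, t, Nat.log 2 n, ⟨⟨⟨⟨⟨hn, ht⟩, Nat.pow_log_le_self 2 (by omega)⟩,
      Nat.lt_pow_succ_log_self (by norm_num) n⟩, ?_⟩, ?_⟩, ?_⟩
    · rw [← cH_eq i ω (show n ≤ 2 * N by omega) (show Nat.log 2 n ≤ 2 * N by omega)] at h2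
      exact_mod_cast h2
    · rw [← cH_eq i ω (show n ≤ 2 * N by omega) (show t ≤ 2 * N by omega)] at h3
      exact_mod_cast h3
    · refine h4.mono (fun m ⟨m', h5, h6, _⟩ h7 => ?_) fun m ⟨h5, h6⟩ => ⟨h5, ?_⟩
      · rw [← cH_eq i ω (show m ≤ 2 * N by omega) (show Nat.log 2 n ≤ 2 * N by omega)] at h7
        exact_mod_cast h7
      · rw [← cH_eq i ω (show m ≤ 2 * N by omega) (show t ≤ 2 * N by omega)] at h6
        exact_mod_cast h6
  · rintro ⟨n, t, e, ⟨⟨⟨⟨⟨hn, ht⟩, h1⟩, h2⟩, h3⟩, h4⟩, h5⟩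
    obtain rfl : Nat.log 2 n = e := Nat.log_eq_of_pow_le_of_lt_pow h1 h2
    have hl := Nat.log_le_self 2 n
    refine ⟨n, hn, t, ht, le_trans Nat.one_le_two_pow h1, ?_, ?_, ?_⟩
    · rw [← cH_eq i ω (show n ≤ 2 * N by omega) (show Nat.log 2 n ≤ 2 * N by omega)]
      exact_mod_cast h3
    · rw [← cH_eq i ω (show n ≤ 2 * N by omega) (show t ≤ 2 * N by omega)]
      exact_mod_cast h4
    · refine h5.mono (fun m ⟨m', h5, h6, _⟩ h7 => ?_) fun m ⟨h5, h6⟩ => ⟨h5, ?_⟩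
      · rw [← cH_eq i ω (show m ≤ 2 * N by omega) (show Nat.log 2 n ≤ 2 * N by omega)]
        exact_mod_cast h7
      · rw [← cH_eq i ω (show m ≤ 2 * N by omega) (show t ≤ 2 * N by omega)]
        exact_mod_cast h6

variable {P : Measure (ℕ → Bool)}

lemma meas_Y1 (hT : Measurable T) (i a j N : ℕ) : MeasurableSet {ω | Y1 (GG H T i ω) a j N} := by
  simp only [Y1_iff]
  exact measurableSet_orb hT (fun A => ∃ w, R1 H i a j N w A = true) _

lemma meas_Y2 (hT : Measurable T) (i a j N : ℕ) : MeasurableSet {ω | Y2 (GG H T i ω) a j N} := by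
  simp only [Y2_iff]
  exact measurableSet_orb hT (fun A => ∃ w, R2 H i a j N w A = true) _

open Classical in
lemma bound_Y1 [IsProbabilityMeasure P] (hP : MeasurePreserving T P P)
    (Hm : ∀ i n ω, Monotone fun t => H (i, n, t, pre ω t)) (i a m N : ℕ) (ha : 0 < a)
    (hm : 0 < m) : P.real {ω | Y1 (GG H T i ω) a (JJ a m) (N + 1)} ≤ 1 / m := by
  refine transferT hP (meas_Y1 hP.measurable i a _ _) (N + 1) _ fun z L => ?_
  have hs : SupAdd fun s n => GG H T i z n s n :=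
    ⟨fun _ _ => Nat.cast_nonneg _, fun s u v => le_trans (add_le_add
      (GG_mono Hm i z s u (Nat.le_add_right u v)) (GG_mono Hm i z (s + u) v (Nat.le_add_left v u)))
      ((GG_sup i z (u + v)).2 s u v)⟩
  have := down hs a m ha hm 0 (L + (N + 1))
    ((range L).filter fun s => T^[s] z ∈ {ω | Y1 (GG H T i ω) a (JJ a m) (N + 1)})
    (Nat.zero_le _) fun s hs => by
      obtain ⟨h1, h2⟩ := mem_filter.mp hs
      rw [mem_range] at h1
      simp only [Set.mem_ofPred_eq, Y1, GG_it] at h2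
      exact ⟨Nat.zero_le _, by omega, h2.mono (fun _ _ h => h) fun n h => ⟨by omega, h.2⟩⟩
  simpa using this

open Classical in
lemma bound_Y2 [IsProbabilityMeasure P] (hP : MeasurePreserving T P P)
    (Hm : ∀ i n ω, Monotone fun t => H (i, n, t, pre ω t)) (i a m N : ℕ) (ha : 0 < a)
    (hm : 0 < m) : P.real {ω | Y2 (GG H T i ω) a (JJ a m) N} ≤ 17 * (a + 2) / m := by
  refine transferT hP (meas_Y2 hP.measurable i a _ N) N _ fun z L => ?_
  have hex : ∀ s, ∃ n t, T^[s] z ∈ {ω | Y2 (GG H T i ω) a (JJ a m) N} →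
      n ≤ N ∧ Caught2 (GG H T i z) a (JJ a m) s n t := by
    intro s
    by_cases h : T^[s] z ∈ {ω | Y2 (GG H T i ω) a (JJ a m) N}
    · obtain ⟨n, t, h1, -, h3⟩ := h
      refine ⟨n, t, fun _ => ⟨h1, ?_⟩⟩
      simpa only [Caught2, GG_it] using h3
    · exact ⟨0, 0, fun h' => absurd h' h⟩
  choose n t hnt using hex
  have := window2 (G := GG H T i z) (a := a) (θ := 1 / m) (j := JJ a m) (n := n) (t := t)
    (GG_sup i z) (GG_mono Hm i z) (fun τ => down (GG_sup i z τ) a m ha hm) (by positivity) _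
    ((range L).filter fun s => T^[s] z ∈ {ω | Y2 (GG H T i ω) a (JJ a m) N})
    (fun _ w => ((a : ℝ) + 2) * w) 0 (L + N) rfl
    ⟨fun _ _ => by positivity, fun _ _ _ => by push_cast; linarith⟩ fun s hs => by
      obtain ⟨h1, h2⟩ := mem_filter.mp hs
      rw [mem_range] at h1
      have := hnt s h2
      exact ⟨this.2, Nat.zero_le _, by omega, le_rfl⟩
  refine this.trans (le_of_eq ?_)
  push_cast
  ring

end

/-- one test that contains both kinds of bad behaviour, for all approximations and all levels -/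
theorem the_test {H : ℕ × ℕ × ℕ × List Bool → ℕ} (hH : Primrec H)
    (Hm : ∀ i n ω, Monotone fun t => H (i, n, t, pre ω t)) {T : (ℕ → Bool) → ℕ → Bool}
    {D : Set (ℕ → Bool)} (hT : EffOpenOn D fun x : List Bool => T ⁻¹' cylOf x) :
    ∃ U : ℕ → Set (ℕ → Bool), EffOpenFam U ∧ Antitone U ∧
      (∀ (P : Measure (ℕ → Bool)) [IsProbabilityMeasure P], MeasurePreserving T P P →
        (∀ᵐ ω ∂P, ω ∈ D) → ∀ m, P (U m) ≤ 2⁻¹ ^ m) ∧
      ∀ ω, (∀ k, T^[k] ω ∈ D) → ω ∉ ⋂ m, U m → ∀ i a : ℕ, 0 < a →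
        (¬ ∀ j, ∃ N, Y1 (GG H T i ω) a j N) ∧ ¬ ∀ j, ∃ N, Y2 (GG H T i ω) a j N := by
  have m1 : ∀ (G : ℕ → ℕ → ℕ → ℝ) (a : ℝ) (j N N' : ℕ), N ≤ N' → Y1 G a j N → Y1 G a j N' :=
    fun G a j N N' h h' => CrossSeq.mono h' (fun _ _ h => h) fun n h2 => ⟨h2.1.trans h, h2.2⟩
  obtain ⟨U, h1, h2, h3, h4⟩ := class_test hT
    (fun p : ℕ × ℕ × (ℕ × (ℕ × ℕ × ℕ × List ℕ × List ℕ)) × List (List Bool) =>
      R1 H p.1.unpair.1 (p.1.unpair.2 + 1) (JJ (p.1.unpair.2 + 1) p.2.1) p.2.2.1.1 p.2.2.1.2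
          p.2.2.2 ||
        R2 H p.1.unpair.1 (p.1.unpair.2 + 1) (JJ (p.1.unpair.2 + 1) p.2.1) p.2.2.1.1 p.2.2.1.2
          p.2.2.2)
    (by unfold R1 R2 chk JJ; fun_prop)
    (fun i => 1 + 17 * (i.unpair.2 + 1 + 2)) (by fun_prop)
    (fun i j N ω => Y1 (GG H T i.unpair.1 ω) (i.unpair.2 + 1 : ℕ) (JJ (i.unpair.2 + 1) j) N ∨
      Y2 (GG H T i.unpair.1 ω) (i.unpair.2 + 1 : ℕ) (JJ (i.unpair.2 + 1) j) N)
    (fun i j N ω => by simp only [Y1_iff, Y2_iff, Bool.or_eq_true, exists_or])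
    (fun i j N N' ω h h' => h'.imp (m1 _ _ _ _ _ h)
      fun ⟨n, t, h1, h2, h3⟩ => ⟨n, t, h1.trans h, h2.trans h, h3⟩)
  refine ⟨U, h1, h2, fun P _ hP hD => h3 P ?_ fun i j N hj => ?_, fun ω hω hU i a ha => ?_⟩
  · exact ae_all_iff.mpr fun k => (hP.iterate k).quasiMeasurePreserving.ae hD
  · rw [Set.ofPred_or]
    refine (measureReal_union_le _ _).trans ((add_le_add
      ((measureReal_mono fun ω h => m1 _ _ _ _ _ (Nat.le_succ N) h).trans
        (bound_Y1 hP Hm _ _ j N (Nat.succ_pos _) hj))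
      (bound_Y2 hP Hm _ _ j N (Nat.succ_pos _) hj)).trans (le_of_eq ?_))
    push_cast
    ring
  obtain ⟨a, rfl⟩ : ∃ a', a = a' + 1 := ⟨a - 1, by omega⟩
  refine ⟨fun h => hU (h4 ω hω ⟨Nat.pair i a, fun j => ?_⟩),
    fun h => hU (h4 ω hω ⟨Nat.pair i a, fun j => ?_⟩)⟩
  · obtain ⟨N, hN⟩ := h (JJ (a + 1) j)
    exact ⟨N, Or.inl (by simpa only [Nat.unpair_pair] using hN)⟩
  · obtain ⟨N, hN⟩ := h (JJ (a + 1) j)
    exact ⟨N, Or.inr (by simpa only [Nat.unpair_pair] using hN)⟩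

end Pool.Agent.P.MP_05754a_lc
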