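import Pool.Agent.P.MP_05754a_lc.Trans
import Pool.Agent.P.MP_05754a_lc.Catch

set_option autoImplicit false

namespace Pool.Agent.P.MP_05754a_lc

open MeasureTheory Pool.Agent.Lib.PrimrecProp Finset

def lsum (l : List ℕ) : ℕ := l.foldr (fun a b => a + b) 0

lemma lsum_range (n : ℕ) (F : ℕ → ℕ) : lsum ((List.range n).map F) = ∑ k ∈ range n, F k := by
  have : ∀ l : List ℕ, lsum l = l.sum := fun l => by
    induction l with
    | nil => rfl
    | cons a l ih => simp only [lsum, List.foldr_cons, List.sum_cons] at ih ⊢; rw [ih]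
  rw [this, Finset.sum_list_map_count, ← Finset.sum_list_map_count]
  induction n with
  | zero => simp
  | succ n ih => rw [List.range_succ, List.map_append, List.sum_append, ih, sum_range_succ]; simp

@[fun_prop] lemma p_lsum {α : Type} [Primcodable α] {f : α → List ℕ} (hf : Primrec f) :
    Primrec fun a => lsum (f a) := by
  unfold lsum; fun_prop

def chk (Hi Lo : ℕ → Bool) (j : ℕ) (lx ly : List ℕ) : Bool :=
  (List.range j).all fun q => leb (lx.getD q 0 + 1) (ly.getD q 0) &&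
    (!(leb (q + 2) j) || leb (ly.getD q 0) (lx.getD (q + 1) 0)) && Hi (lx.getD q 0) &&
      Lo (ly.getD q 0)

lemma chk_iff (Hi Lo : ℕ → Bool) (j : ℕ) :
    (∃ lx ly, chk Hi Lo j lx ly = true) ↔
      CrossSeq (fun n => Hi n = true) (fun n => Lo n = true) j := by
  constructor
  · rintro ⟨lx, ly, h⟩
    refine ⟨fun q => lx.getD q 0, fun q => ly.getD q 0, fun q hq => ?_⟩
    simp only [chk, List.all_eq_true, List.mem_range, Bool.and_eq_true, leb_iff, Bool.or_eq_true,
      Bool.not_eq_true', ← Bool.not_eq_true] at h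
    obtain ⟨⟨⟨h1, h2⟩, h3⟩, h4⟩ := h q hq
    exact ⟨h1, fun h => h2.resolve_left (not_not.mpr h), h3, h4⟩
  · rintro ⟨x, y, h⟩
    refine ⟨(List.range j).map x, (List.range j).map y, ?_⟩
    have e : ∀ (u : ℕ → ℕ) q, q < j → ((List.range j).map u).getD q 0 = u q := by
      intro u q hq
      simp [List.getD_eq_getElem?_getD, hq]
    simp only [chk, List.all_eq_true, List.mem_range, Bool.and_eq_true, leb_iff, Bool.or_eq_true,
      Bool.not_eq_true', ← Bool.not_eq_true]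
    intro q hq
    obtain ⟨h1, h2, h3, h4⟩ := h q hq
    rw [e x q hq, e y q hq]
    refine ⟨⟨⟨h1, ?_⟩, h3⟩, h4⟩
    by_cases h5 : q + 2 ≤ j
    · right; rw [e x _ h5]; exact h2 h5
    · left; exact h5

section
variable {P : Measure (ℕ → Bool)} {H : ℕ × List Bool → ℕ}

/-- the array of approximations along the orbit -/
noncomputable def arr (H : ℕ × List Bool → ℕ) (ω : ℕ → Bool) (k t : ℕ) : ℝ :=
  H (t, pre (sh k ω) t)

lemma arr_sh (ω : ℕ → Bool) (s k t : ℕ) : arr H (sh s ω) k t = arr H ω (s + k) t := by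
  simp only [arr, sh_sh]

def dsum (H : ℕ × List Bool → ℕ) (x : List Bool) (n : ℕ) : ℕ :=
  lsum ((List.range n).map fun k => H (n - k, (x.drop k).take (n - k)))

lemma dsum_eq (ω : ℕ → Bool) {M n : ℕ} (h : n ≤ M) :
    (dsum H (pre ω M) n : ℝ) = ∑ k ∈ range n, arr H ω k (n - k) := by
  rw [dsum, lsum_range]
  push_cast
  refine sum_congr rfl fun k hk => ?_
  rw [take_drop_pre ω (by have := mem_range.mp hk; omega), arr]

def tsum' (H : ℕ × List Bool → ℕ) (x : List Bool) (T n : ℕ) : ℕ :=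
  lsum ((List.range n).map fun k => H (T, (x.drop k).take T))

lemma tsum'_eq (ω : ℕ → Bool) {M T n : ℕ} (h : n + T ≤ M) :
    (tsum' H (pre ω M) T n : ℝ) = SS (arr H ω) T 0 n := by
  rw [tsum', lsum_range, SS]
  push_cast
  refine sum_congr rfl fun k hk => ?_
  rw [take_drop_pre ω (by have := mem_range.mp hk; omega), arr, zero_add]

open Classical in
theorem test_diag [IsProbabilityMeasure P]
    (hstat : ∀ x, P (cylOf x) = P (cylOf (false :: x)) + P (cylOf (true :: x)))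
    (hH : Primrec H) (Hm : ∀ ω, Monotone fun t => H (t, pre ω t)) (a : ℕ) (ω : ℕ → Bool)
    (hω : ∀ j, ∃ N, CrossSeq (fun n => ((a : ℝ) + 1) * n < ∑ k ∈ range n, arr H ω k (n - k))
      (fun n => n ≤ N ∧ ∑ k ∈ range n, arr H ω k (n - k) < a * n) j) : ¬ MLRand P ω := by
  set R : ℕ × (ℕ × (List ℕ × List ℕ)) × List Bool → Bool := fun p =>
    chk (fun n => leb ((a + 1) * n + 1) (dsum H p.2.2 n))
      (fun n => leb n p.2.1.1 && leb (dsum H p.2.2 n + 1) (a * n)) p.1 p.2.1.2.1 p.2.1.2.2 with hR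
  set Y : ℕ → ℕ → (ℕ → Bool) → Prop := fun j N ω =>
    CrossSeq (fun n => ((a : ℝ) + 1) * n < ∑ k ∈ range n, arr H ω k (n - k))
      (fun n => n ≤ N ∧ ∑ k ∈ range n, arr H ω k (n - k) < a * n) j with hYd
  have hY : ∀ j N ω, Y j N ω ↔ ∃ w, R (j, (N, w), pre ω (2 * N)) = true := by
    intro j N ω
    simp only [hR, Prod.exists, chk_iff, hYd, leb_iff, Bool.and_eq_true]
    constructor
    · intro h
      refine h.mono (fun n ⟨m, h1, h2, _⟩ h3 => ?_) fun n ⟨h1, h2⟩ => ⟨h1, ?_⟩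
      · rw [← dsum_eq ω (show n ≤ 2 * N by omega)] at h3
        exact_mod_cast h3
      · rw [← dsum_eq ω (show n ≤ 2 * N by omega)] at h2
        exact_mod_cast h2
    · intro h
      refine h.mono (fun n ⟨m, h1, h2, _⟩ h3 => ?_) fun n ⟨h1, h2⟩ => ⟨h1, ?_⟩
      · rw [← dsum_eq ω (show n ≤ 2 * N by omega)]
        exact_mod_cast h3
      · rw [← dsum_eq ω (show n ≤ 2 * N by omega)]
        exact_mod_cast h2
  refine not_random_of R (by simp only [hR]; unfold chk dsum; fun_prop) a Y hY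
    (fun j j' N ω h h' => h'.anti h)
    (fun j N N' ω h h' => h'.mono (fun _ _ h => h) fun n h2 => ⟨h2.1.trans h, h2.2⟩)
    (fun j N hj => ?_) ω hω
  simp only [hY]
  refine transfer hstat (fun x => ∃ w, R (j, (N, w), x) = true) (2 * N) N _ fun z L => ?_
  have hj' : (0 : ℝ) < j := by exact_mod_cast hj
  have := bishop (arr H z) (fun _ _ => Nat.cast_nonneg _)
    (fun k t t' h => Nat.cast_le.mpr (Hm _ h)) a (a + 1) (Nat.cast_nonneg _) (by linarith) j 0
    (L + N) (Nat.zero_le _)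
    ((range L).filter fun s => ∃ w, R (j, (N, w), pre (sh s z) (2 * N)) = true) fun s hs => by
      obtain ⟨h1, h2⟩ := mem_filter.mp hs
      rw [mem_range] at h1
      rw [← hY] at h2
      simp only [hYd, arr_sh] at h2
      exact ⟨Nat.zero_le _, by omega, h2.mono (fun _ _ h => h) fun n h => ⟨by omega, h.2⟩⟩
  rw [div_mul_eq_mul_div, le_div_iff₀ hj']
  push_cast at this
  linarith

open Classical in
theorem test_catch [IsProbabilityMeasure P]
    (hstat : ∀ x, P (cylOf x) = P (cylOf (false :: x)) + P (cylOf (true :: x)))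
    (hH : Primrec H) (Hm : ∀ ω, Monotone fun t => H (t, pre ω t)) (a : ℕ) (ω : ℕ → Bool)
    (hω : ∀ j, ∃ n t, Caught (arr H ω) a (a + 3) (a + 2) j 0 n t) : ¬ MLRand P ω := by
  set R : ℕ × (ℕ × (ℕ × ℕ × ℕ × List ℕ × List ℕ)) × List Bool → Bool := fun p =>
    leb p.2.1.2.1 p.2.1.1 && leb p.2.1.2.2.1 p.2.1.1 &&
    leb (2 ^ p.2.1.2.2.2.1) p.2.1.2.1 && leb (p.2.1.2.1 + 1) (2 ^ (p.2.1.2.2.2.1 + 1)) &&
    leb (tsum' H p.2.2 p.2.1.2.2.2.1 p.2.1.2.1) ((a + 2) * p.2.1.2.1) &&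
    leb ((a + 3) * p.2.1.2.1 + 1) (tsum' H p.2.2 p.2.1.2.2.1 p.2.1.2.1) &&
    chk (fun m => leb ((a + 3) * m + 1) (tsum' H p.2.2 p.2.1.2.2.2.1 m))
      (fun m => leb m p.2.1.2.1 && leb (tsum' H p.2.2 p.2.1.2.2.1 m + 1) (a * m))
      p.1 p.2.1.2.2.2.2.1 p.2.1.2.2.2.2.2 with hR
  set Y : ℕ → ℕ → (ℕ → Bool) → Prop := fun j N ω =>
    ∃ n t, n ≤ N ∧ t ≤ N ∧ Caught (arr H ω) a (a + 3) (a + 2) j 0 n t with hYd
  have hY : ∀ j N ω, Y j N ω ↔ ∃ w, R (j, (N, w), pre ω (2 * N)) = true := by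
    intro j N ω
    simp only [hR, Prod.exists, hYd, leb_iff, Bool.and_eq_true, exists_and_left, chk_iff]
    constructor
    · rintro ⟨n, hn, t, ht, h1, h2, h3, h4⟩
      have hl := Nat.log_le_self 2 n
      refine ⟨n, t, Nat.log 2 n, ⟨⟨⟨⟨⟨hn, ht⟩, Nat.pow_log_le_self 2 (by omega)⟩,
        Nat.lt_pow_succ_log_self (by norm_num) n⟩, ?_⟩, ?_⟩, ?_⟩
      · rw [← tsum'_eq ω (show n + Nat.log 2 n ≤ 2 * N by omega)] at h2
        exact_mod_cast h2
      · rw [← tsum'_eq ω (show n + t ≤ 2 * N by omega)] at h3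
        exact_mod_cast h3
      · refine h4.mono (fun m ⟨m', h5, h6, _⟩ h7 => ?_) fun m ⟨h5, h6⟩ => ⟨h5, ?_⟩
        · rw [← tsum'_eq ω (show m + Nat.log 2 n ≤ 2 * N by omega)] at h7
          exact_mod_cast h7
        · rw [← tsum'_eq ω (show m + t ≤ 2 * N by omega)] at h6
          exact_mod_cast h6
    · rintro ⟨n, t, e, ⟨⟨⟨⟨⟨hn, ht⟩, h1⟩, h2⟩, h3⟩, h4⟩, h5⟩
      obtain rfl : Nat.log 2 n = e := Nat.log_eq_of_pow_le_of_lt_pow h1 h2
      have hl := Nat.log_le_self 2 n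
      refine ⟨n, hn, t, ht, le_trans Nat.one_le_two_pow h1, ?_, ?_, ?_⟩
      · rw [← tsum'_eq ω (show n + Nat.log 2 n ≤ 2 * N by omega)]
        exact_mod_cast h3
      · rw [← tsum'_eq ω (show n + t ≤ 2 * N by omega)]
        exact_mod_cast h4
      · refine h5.mono (fun m ⟨m', h5, h6, _⟩ h7 => ?_) fun m ⟨h5, h6⟩ => ⟨h5, ?_⟩
        · rw [← tsum'_eq ω (show m + Nat.log 2 n ≤ 2 * N by omega)]
          exact_mod_cast h7
        · rw [← tsum'_eq ω (show m + t ≤ 2 * N by omega)]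
          exact_mod_cast h6
  refine not_random_of R (by simp only [hR]; unfold chk tsum'; fun_prop) (a * (23 + 3 * a)) Y hY
    (fun j j' N ω h ⟨n, t, h1, h2, h3, h4, h5, h6⟩ => ⟨n, t, h1, h2, h3, h4, h5, h6.anti h⟩)
    (fun j N N' ω h ⟨n, t, h1, h2, h3⟩ => ⟨n, t, h1.trans h, h2.trans h, h3⟩)
    (fun j N hj => ?_) ω fun j => ?_
  · simp only [hY]
    refine transfer hstat (fun x => ∃ w, R (j, (N, w), x) = true) (2 * N) N _ fun z L => ?_
    have hj' : (0 : ℝ) < j := by exact_mod_cast hj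
    have ha : (0 : ℝ) ≤ a := Nat.cast_nonneg _
    have hex : ∀ s, ∃ n t, (∃ w, R (j, (N, w), pre (sh s z) (2 * N)) = true) →
        n ≤ N ∧ Caught (arr H z) a (a + 3) (a + 2) j s n t := by
      intro s
      by_cases h : ∃ w, R (j, (N, w), pre (sh s z) (2 * N)) = true
      · obtain ⟨n, t, h1, -, h3⟩ := (hY _ _ _).mpr h
        refine ⟨n, t, fun _ => ⟨h1, ?_⟩⟩
        simpa only [Caught, SS, arr_sh, zero_add] using h3
      · exact ⟨0, 0, fun h' => absurd h' h⟩
    choose n t hnt using hex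
    have := window_bound (g := arr H z) (a := a) (b := a + 3) (c := a + 2) (θ := a / j) (j := j)
      (n := n) (t := t) (fun _ _ => Nat.cast_nonneg _)
      (fun k t t' h => Nat.cast_le.mpr (Hm _ h)) ha (by linarith) (by linarith) (by linarith) hj
      (by positivity) (by field_simp; linarith) _
      ((range L).filter fun s => ∃ w, R (j, (N, w), pre (sh s z) (2 * N)) = true) 0 (L + N) rfl
      (Nat.zero_le _) fun s hs => by
        obtain ⟨h1, h2⟩ := mem_filter.mp hs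
        rw [mem_range] at h1
        have := hnt s h2
        exact ⟨this.2, Nat.zero_le _, by omega⟩
    refine this.trans (le_of_eq ?_)
    push_cast
    ring
  · obtain ⟨n, t, h⟩ := hω j
    exact ⟨max n t, n, t, le_max_left _ _, le_max_right _ _, h⟩

end

end Pool.Agent.P.MP_05754a_lc
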