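import Pool.Agent.P.MP_05754a_lc.Comp

set_option autoImplicit false

namespace Pool.Agent.P.MP_05754a_lc

open MeasureTheory Set

lemma setOf_pre_eq (η : (ℕ → Bool) → ℕ → Bool) (Q : List Bool → Prop) (M : ℕ) :
    {ω | Q (pre (η ω) M)} = ⋃ x : {x : List Bool // Q x ∧ x.length = M}, η ⁻¹' cylOf x.1 := by
  ext ω
  simp only [mem_ofPred_eq, mem_iUnion, mem_preimage, mem_cylOf]
  constructor
  · intro h
    exact ⟨⟨_, h, by simp⟩, by simp⟩
  · rintro ⟨⟨x, h1, h2⟩, h3⟩
    simp only at h3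
    rw [← h2, h3]; exact h1

lemma measurable_sh (k : ℕ) : Measurable (sh k) :=
  measurable_pi_lambda _ fun _ => measurable_pi_apply _

lemma measurableSet_pre (Q : List Bool → Prop) (M k : ℕ) :
    MeasurableSet {ω | Q (pre (sh k ω) M)} := by
  rw [setOf_pre_eq]
  exact MeasurableSet.iUnion fun x => measurable_sh k (measurableSet_cylOf _)

lemma sh_zero (ω : ℕ → Bool) : sh 0 ω = ω := rfl

lemma pre_succ (ω : ℕ → Bool) (M : ℕ) : pre ω (M + 1) = ω 0 :: pre (sh 1 ω) M := by
  simp [pre, List.range_succ_eq_map, sh, Function.comp_def]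

lemma preimage_cyl (x : List Bool) :
    sh 1 ⁻¹' cylOf x = cylOf (false :: x) ∪ cylOf (true :: x) := by
  ext ω
  simp only [mem_preimage, mem_union, mem_cylOf, List.length_cons, pre_succ, List.cons.injEq]
  cases ω 0 <;> simp

lemma disjoint_cyl (x : List Bool) : Disjoint (cylOf (false :: x)) (cylOf (true :: x)) := by
  rw [Set.disjoint_left]
  intro ω h1 h2
  simp only [mem_cylOf, List.length_cons, pre_succ, List.cons.injEq] at h1 h2
  rw [h1.1] at h2
  exact absurd h2.1 (by simp)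

section
variable {P : Measure (ℕ → Bool)}

lemma measure_pre (P : Measure (ℕ → Bool)) (k : ℕ) (Q : List Bool → Prop) (M : ℕ) :
    P {ω | Q (pre (sh k ω) M)}
      = ∑' x : {x : List Bool // Q x ∧ x.length = M}, P (sh k ⁻¹' cylOf x.1) := by
  rw [setOf_pre_eq, measure_iUnion]
  · intro x y hxy
    rw [Function.onFun, Set.disjoint_left]
    intro ω h1 h2
    simp only [mem_preimage, mem_cylOf, x.2.2, y.2.2] at h1 h2
    exact hxy (Subtype.ext (h1.symm.trans h2))
  · exact fun x => measurable_sh k (measurableSet_cylOf _)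

lemma inv_one (hstat : ∀ x, P (cylOf x) = P (cylOf (false :: x)) + P (cylOf (true :: x)))
    (Q : List Bool → Prop) (M : ℕ) :
    P {ω | Q (pre (sh 1 ω) M)} = P {ω | Q (pre ω M)} := by
  have := measure_pre P 0 Q M
  simp only [sh_zero] at this
  rw [this, measure_pre]
  refine tsum_congr fun x => ?_
  rw [preimage_cyl, measure_union (disjoint_cyl _) (measurableSet_cylOf _), ← hstat]
  rfl

lemma inv_all (hstat : ∀ x, P (cylOf x) = P (cylOf (false :: x)) + P (cylOf (true :: x)))
    (k : ℕ) (Q : List Bool → Prop) (M : ℕ) :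
    P {ω | Q (pre (sh k ω) M)} = P {ω | Q (pre ω M)} := by
  induction k with
  | zero => rfl
  | succ k ih =>
    have := inv_one hstat (fun x => Q ((x.drop k).take M)) (k + M)
    simp only [take_drop_pre _ (le_refl (k + M)), sh_sh] at this
    rw [add_comm k 1, this, ih]

open Classical in
lemma transfer [IsProbabilityMeasure P]
    (hstat : ∀ x, P (cylOf x) = P (cylOf (false :: x)) + P (cylOf (true :: x)))
    (Q : List Bool → Prop) (M N : ℕ) (θ : ℝ)
    (h : ∀ z L, (((Finset.range L).filter fun s => Q (pre (sh s z) M)).card : ℝ) ≤ θ * (L + N)) :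
    P.real {ω | Q (pre ω M)} ≤ θ := by
  set p := P.real {ω | Q (pre ω M)} with hp
  have key : ∀ L : ℕ, L * p ≤ θ * (L + N) := by
    intro L
    have hi : ∀ s ∈ Finset.range L,
        Integrable ({ω | Q (pre (sh s ω) M)}.indicator (1 : (ℕ → Bool) → ℝ)) P := fun s _ =>
      (integrable_const (1 : ℝ)).indicator (measurableSet_pre Q M s)
    have e : ∫ z, ∑ s ∈ Finset.range L,
        {ω | Q (pre (sh s ω) M)}.indicator (1 : (ℕ → Bool) → ℝ) z ∂P = L * p := by
      rw [integral_finsetSum _ hi]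
      have : ∀ s ∈ Finset.range L,
          ∫ z, {ω | Q (pre (sh s ω) M)}.indicator (1 : (ℕ → Bool) → ℝ) z ∂P = p := by
        intro s _
        rw [integral_indicator_one (measurableSet_pre Q M s), hp, Measure.real, Measure.real,
          inv_all hstat]
      rw [Finset.sum_congr rfl this]; simp
    rw [← e]
    have h2 : ∫ z, ∑ s ∈ Finset.range L,
        {ω | Q (pre (sh s ω) M)}.indicator (1 : (ℕ → Bool) → ℝ) z ∂P ≤ ∫ _z, θ * (L + N) ∂P := by
      refine integral_mono (integrable_finsetSum _ hi) (integrable_const _) fun z => ?_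
      refine le_trans (le_of_eq ?_) (h z L)
      rw [Finset.card_filter]
      push_cast
      refine Finset.sum_congr rfl fun s _ => ?_
      simp [Set.indicator_apply]
    simpa using h2
  by_contra hc
  have hd : 0 < p - θ := by linarith [not_le.mp hc]
  obtain ⟨L, hL⟩ := exists_nat_gt (θ * N / (p - θ))
  rw [div_lt_iff₀ hd] at hL
  have := key L
  nlinarith

lemma not_random_of [IsProbabilityMeasure P] {β : Type} [Primcodable β] [Inhabited β]
    (R : ℕ × (ℕ × β) × List Bool → Bool) (hR : Primrec R) (K : ℕ)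
    (Y : ℕ → ℕ → (ℕ → Bool) → Prop)
    (hY : ∀ j N ω, Y j N ω ↔ ∃ w, R (j, (N, w), pre ω (2 * N)) = true)
    (hj : ∀ j j' N ω, j' ≤ j → Y j N ω → Y j' N ω)
    (hN : ∀ j N N' ω, N ≤ N' → Y j N ω → Y j N' ω)
    (hP : ∀ j N, 0 < j → P.real {ω | Y j N ω} ≤ K / j)
    (ω : ℕ → Bool) (hω : ∀ j, ∃ N, Y j N ω) : ¬ MLRand P ω := by
  intro hr
  refine hr ⟨fun m => {ω | ∃ N, Y ((K + 1) * 2 ^ m) N ω}, ?_, ?_, ?_, ?_⟩
  · have := effOpen_of (ι := ℕ) (β := ℕ × β)
      (fun p => R ((K + 1) * 2 ^ p.1, p.2.1, p.2.2)) (by fun_prop) (fun p => 2 * p.2.1)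
      (by fun_prop)
    simp only [hY]
    simpa only [Prod.exists] using this
  · rintro m m' hm ω ⟨N, h⟩
    exact ⟨N, hj _ _ _ _ (Nat.mul_le_mul_left _ (Nat.pow_le_pow_right (by norm_num) hm)) h⟩
  · intro m
    have e : {ω | ∃ N, Y ((K + 1) * 2 ^ m) N ω} = ⋃ N, {ω | Y ((K + 1) * 2 ^ m) N ω} := by
      ext ω; simp
    beta_reduce
    have hmono : Monotone fun N => {ω | Y ((K + 1) * 2 ^ m) N ω} :=
      fun N N' h ω h' => hN _ _ _ _ h h'
    rw [e, hmono.measure_iUnion]
    refine iSup_le fun N => ?_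
    have h1 := hP ((K + 1) * 2 ^ m) N (by positivity)
    have h2 : (K : ℝ) / (((K + 1) * 2 ^ m : ℕ) : ℝ) ≤ 2⁻¹ ^ m := by
      rw [div_le_iff₀ (by positivity)]
      push_cast
      rw [mul_left_comm, ← mul_pow]
      norm_num
    rw [← ofReal_measureReal (measure_ne_top P _)]
    refine (ENNReal.ofReal_le_ofReal (h1.trans h2)).trans (le_of_eq ?_)
    rw [ENNReal.ofReal_pow (by norm_num), ENNReal.ofReal_inv_of_pos (by norm_num)]
    simp
  · exact mem_iInter.mpr fun m => hω _

end

end Pool.Agent.P.MP_05754a_lc
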