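import Pool.Agent.P.MP_05754a_lc.Orb

set_option autoImplicit false

namespace Pool.Agent.P.MP_05754a_lc

open Pool.Agent.Lib.PrimrecProp MeasureTheory

lemma stages_univ (α : Type) [Primcodable α] :
    ∃ E : ℕ × ℕ × α → Bool, Primrec E ∧
      (∀ t t' a, t ≤ t' → E (t, a) = true → E (t', a) = true) ∧
      ∀ p : α → Prop, REPred p → ∃ e, ∀ a, p a ↔ ∃ t, E (t, e, a) = true := by
  refine ⟨fun q => (Nat.Partrec.Code.evaln q.1 (Denumerable.ofNat Nat.Partrec.Code q.2.1)
    (Encodable.encode q.2.2)).isSome, ?_, ?_, ?_⟩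
  · exact Primrec.option_isSome.comp (Nat.Partrec.Code.primrec_evaln.comp
      ((Primrec.fst.pair ((Primrec.ofNat _).comp (Primrec.fst.comp Primrec.snd))).pair
        (Primrec.encode.comp (Primrec.snd.comp Primrec.snd))))
  · intro t t' a htt h
    obtain ⟨x, hx⟩ := Option.isSome_iff_exists.mp h
    exact Option.isSome_iff_exists.mpr ⟨x, Nat.Partrec.Code.evaln_mono htt hx⟩
  · intro p hp
    obtain ⟨c, hc⟩ := Nat.Partrec.Code.exists_code.mp hp
    refine ⟨Encodable.encode c, fun a => ?_⟩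
    simp only [Denumerable.ofNat_encode]
    have e : ∀ x, x ∈ c.eval (Encodable.encode a) ↔ p a ∧ Encodable.encode () = x := by
      intro x
      rw [hc]
      simp only [Encodable.encodek, Part.coe_some, Part.bind_some, Part.mem_map_iff,
        Part.mem_assert_iff, Part.mem_some_iff]
      constructor
      · rintro ⟨u, ⟨h, -⟩, h2⟩
        exact ⟨h, h2⟩
      · rintro ⟨h, h2⟩
        exact ⟨(), ⟨h, trivial⟩, h2⟩
    constructor
    · intro h
      obtain ⟨k, hk⟩ := Nat.Partrec.Code.evaln_complete.mp ((e _).mpr ⟨h, rfl⟩)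
      exact ⟨k, Option.isSome_iff_exists.mpr ⟨_, hk⟩⟩
    · rintro ⟨t, h⟩
      obtain ⟨x, hx⟩ := Option.isSome_iff_exists.mp h
      exact ((e x).mp (Nat.Partrec.Code.evaln_sound hx)).1

/-- integer difference of two naturals -/
def isub (k C : ℕ) : ℤ := (k : ℤ) - C

@[fun_prop] lemma p_isub {α : Type} [Primcodable α] {f g : α → ℕ} (hf : Primrec f)
    (hg : Primrec g) : Primrec fun a => isub (f a) (g a) := by
  rw [← Primrec.encode_iff]
  have h : Primrec fun a => cond (leb (g a) (f a)) (2 * (f a - g a)) (2 * (g a - f a - 1) + 1) := by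
    fun_prop
  refine h.of_eq fun a => ?_
  generalize f a = k
  generalize g a = C
  unfold isub
  by_cases hk : C ≤ k
  · have : (k : ℤ) - C = Int.ofNat (k - C) := by simp [Nat.cast_sub hk]
    rw [this, leb_iff C k |>.mpr hk]
    rfl
  · have : (k : ℤ) - C = Int.negSucc (C - k - 1) := by
      rw [Int.negSucc_eq]; push_cast [Nat.cast_sub (by omega : 1 ≤ C - k),
        Nat.cast_sub (by omega : k ≤ C)]; ring
    have h2 : leb C k = false := by simpa [leb] using hk
    rw [this, h2]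
    rfl

/-- one primitive recursive family that approximates every uniformly lower semicomputable
sequence of functions -/
lemma approx_univ : ∃ H : ℕ × ℕ × ℕ × List Bool → ℕ, Primrec H ∧
    (∀ i n ω, Monotone fun t => H (i, n, t, pre ω t)) ∧
    ∀ (D : Set (ℕ → Bool)) (F : ℕ → (ℕ → Bool) → ℝ),
      (EffOpenOn D fun q : ℕ × ℤ × ℕ => {ω | (q.2.1 : ℝ) / ((q.2.2 : ℝ) + 1) < F q.1 ω}) →
      ∃ e, ∀ d c : ℕ, ∀ ω ∈ D, ∀ n : ℕ, -((c : ℝ) * n) ≤ F n ω →
        (∀ t, (H (Nat.pair e (Nat.pair c d), n, t, pre ω t) : ℝ) ≤ (d + 1) * (F n ω + c * n)) ∧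
        ∃ t, (d + 1) * (F n ω + c * n) - 1 ≤ (H (Nat.pair e (Nat.pair c d), n, t, pre ω t) : ℝ) := by
  obtain ⟨E0, hE0, Em0, hEW0⟩ := stages_univ ((ℕ × ℤ × ℕ) × List Bool)
  set E : (ℕ × ℕ) × ℕ × ℕ × List Bool → Bool := fun p => E0 (p.2.1, p.1.1.unpair.1, (p.1.2,
    isub p.2.2.1 (p.1.1.unpair.2.unpair.1 * p.1.2 * (p.1.1.unpair.2.unpair.2 + 1)),
    p.1.1.unpair.2.unpair.2), p.2.2.2) with hEd
  have hE : Primrec E := by simp only [hEd]; fun_prop
  have Em : ∀ i t t' a, t ≤ t' → E (i, t, a) = true → E (i, t', a) = true :=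
    fun i t t' a h h' => Em0 _ _ _ h h'
  set H : ℕ × ℕ × ℕ × List Bool → ℕ := fun p => ((List.range p.2.2.1).filter fun k =>
    (List.range (p.2.2.1 + 1)).any fun l =>
      E ((p.1, p.2.1), p.2.2.1, k + 1, p.2.2.2.take l)).length with hH
  have Hc : ∀ i n ω t, H (i, n, t, pre ω t) = ((Finset.range t).filter fun k =>
      ∃ l ≤ t, E ((i, n), t, k + 1, pre ω l) = true).card := by
    intro i n ω t
    simp only [hH]
    rw [← List.toFinset_card_of_nodup (List.nodup_range.filter _)]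
    congr 1
    ext k
    simp only [List.mem_toFinset, List.mem_filter, List.mem_range, List.any_eq_true,
      Finset.mem_filter, Finset.mem_range, Nat.lt_succ_iff]
    refine and_congr_right fun _ => exists_congr fun l => and_congr_right fun hl => ?_
    rw [take_pre ω hl]
  refine ⟨H, by simp only [hH]; fun_prop, fun i n ω t t' htt => ?_, ?_⟩
  · simp only [Hc]
    refine Finset.card_le_card fun k hk => ?_
    simp only [Finset.mem_filter, Finset.mem_range] at hk ⊢
    obtain ⟨h1, l, h2, h3⟩ := hk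
    exact ⟨by omega, l, by omega, Em _ _ _ _ htt h3⟩
  rintro D F ⟨V, ⟨W, hW, hV⟩, hU⟩
  obtain ⟨e, hEW⟩ := hEW0 W hW
  refine ⟨e, fun d c ω hω n hc => ?_⟩
  set i := Nat.pair e (Nat.pair c d) with hi
  have hD : (0 : ℝ) < d + 1 := by positivity
  have key : ∀ k : ℕ, (k : ℝ) < (d + 1) * (F n ω + c * n) ↔
      ∃ t l, E ((i, n), t, k, pre ω l) = true := by
    intro k
    have h1 := Set.ext_iff.mp (hU (n, isub k (c * n * (d + 1)), d)) ω
    simp only [Set.mem_inter_iff, hω, true_and, hV, Set.mem_ofPred_eq, Set.mem_iUnion,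
      exists_prop, mem_cylOf] at h1
    rw [div_lt_iff₀ hD] at h1
    have h0 : ((isub k (c * n * (d + 1)) : ℤ) : ℝ) = k - c * n * (d + 1) := by
      unfold isub; push_cast; ring
    rw [h0] at h1
    simp only [hEd, hi, Nat.unpair_pair]
    constructor
    · intro h
      obtain ⟨x, h2, h3⟩ := h1.mp (by linarith)
      obtain ⟨t, ht⟩ := (hEW _).mp h2
      exact ⟨t, x.length, by rw [h3]; exact ht⟩
    · rintro ⟨t, l, h⟩
      have h2 := (hEW _).mpr ⟨t, h⟩
      have := h1.mpr ⟨pre ω l, h2, by simp⟩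
      linarith
  refine ⟨fun t => ?_, ?_⟩
  · rw [Hc]
    have h0 : 0 ≤ (d + 1) * (F n ω + c * n) := mul_nonneg hD.le (by linarith)
    refine le_trans ?_ (Nat.floor_le h0)
    rw [Nat.cast_le, ← Finset.card_range ⌊_⌋₊]
    refine Finset.card_le_card fun k hk => ?_
    simp only [Finset.mem_filter, Finset.mem_range] at hk ⊢
    obtain ⟨-, l, -, h3⟩ := hk
    exact Nat.le_floor ((key (k + 1)).mpr ⟨t, l, h3⟩).le
  · set φ := (d + 1) * (F n ω + c * n) with hφ
    have h1 : ∀ k : Fin (⌈φ⌉₊ - 1), ∃ t l, E ((i, n), t, k + 1, pre ω l) = true := by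
      intro k
      refine (key (k + 1)).mp (Nat.lt_ceil.mp ?_)
      have := k.2
      omega
    choose T L hTL using h1
    obtain ⟨t, ht⟩ : ∃ t, ⌈φ⌉₊ ≤ t ∧ ∀ k, T k ≤ t ∧ L k ≤ t := by
      refine ⟨⌈φ⌉₊ + Finset.univ.sup T + Finset.univ.sup L, by omega, fun k => ?_⟩
      have a := Finset.le_sup (f := T) (Finset.mem_univ k)
      have b := Finset.le_sup (f := L) (Finset.mem_univ k)
      omega
    refine ⟨t, ?_⟩
    rw [Hc]
    have h2 : ⌈φ⌉₊ - 1 ≤ ((Finset.range t).filter fun k =>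
        ∃ l ≤ t, E ((i, n), t, k + 1, pre ω l) = true).card := by
      rw [← Finset.card_range (⌈φ⌉₊ - 1)]
      refine Finset.card_le_card fun k hk => ?_
      simp only [Finset.mem_filter, Finset.mem_range] at hk ⊢
      exact ⟨by omega, L ⟨k, hk⟩, (ht.2 _).2, Em _ _ _ _ (ht.2 _).1 (hTL ⟨k, hk⟩)⟩
    have h3 : ⌈φ⌉₊ ≤ ((Finset.range t).filter fun k =>
        ∃ l ≤ t, E ((i, n), t, k + 1, pre ω l) = true).card + 1 := by omega
    have h4 : (⌈φ⌉₊ : ℝ) ≤ ((Finset.range t).filter fun k =>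
        ∃ l ≤ t, E ((i, n), t, k + 1, pre ω l) = true).card + 1 := by exact_mod_cast h3
    linarith [Nat.le_ceil φ]

end Pool.Agent.P.MP_05754a_lc
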